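import Pool.Agent.Lib_MP_af4de1_in.W0

/-!
# The number of zeros in a disc and the winding number
-/

set_option autoImplicit false

namespace SokalIn

open Complex Set Filter Topology

/-- `G` has exactly `n` zeros (with multiplicity) in `‖z‖ < r` and none on `‖z‖ = r`. -/
def Fac (U : Set ℂ) (G : ℂ → ℂ) (r : ℝ) (n : ℕ) : Prop :=
  ∃ (a : Fin n → ℂ) (K : ℂ → ℂ), (∀ i, ‖a i‖ < r) ∧ DifferentiableOn ℂ K U ∧
    (∀ z, ‖z‖ ≤ r → K z ≠ 0) ∧ ∀ z ∈ U, G z = (∏ i, (z - a i)) * K z

/-- the point `r e^(iθ)` -/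
noncomputable def cp (r θ : ℝ) : ℂ := (r : ℂ) * cexp (θ * I)

theorem norm_cp {r : ℝ} (hr : 0 ≤ r) (θ : ℝ) : ‖cp r θ‖ = r := by
  unfold cp
  rw [norm_mul, Complex.norm_real, Real.norm_of_nonneg hr, Complex.norm_exp_ofReal_mul_I, mul_one]

theorem cexp_period (θ : ℝ) : cexp (((θ + 2 * Real.pi : ℝ) : ℂ) * I) = cexp (θ * I) := by
  have : (((θ + 2 * Real.pi : ℝ) : ℂ) * I) = θ * I + 2 * Real.pi * I := by push_cast; ring
  rw [this, exp_periodic]

theorem cexp_neg_period (θ : ℝ) : cexp (-(((θ + 2 * Real.pi : ℝ) : ℂ) * I)) = cexp (-(θ * I)) := by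
  rw [exp_neg, cexp_period, exp_neg]

theorem cp_period (r θ : ℝ) : cp r (θ + 2 * Real.pi) = cp r θ := by
  unfold cp
  rw [cexp_period]

theorem continuous_cp (r : ℝ) : Continuous (cp r) := by
  unfold cp
  fun_prop

theorem norm_mul_cexp_neg (a : ℂ) (θ : ℝ) : ‖a * cexp (-(θ * I))‖ = ‖a‖ := by
  have : -((θ : ℂ) * I) = ((-θ : ℝ) : ℂ) * I := by push_cast; ring
  rw [norm_mul, this, Complex.norm_exp_ofReal_mul_I, mul_one]

/-- `1 - s a e^(-iθ)/r`: the factor of a zero inside. -/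
theorem w0_factor {r : ℝ} {a : ℂ} (ha : ‖a‖ < r) : W0 fun θ => (r : ℂ) - a * cexp (-(θ * I)) := by
  have hr : 0 < r := lt_of_le_of_lt (norm_nonneg a) ha
  have h := W0.homotopy01 (H := fun p : ℝ × ℝ => (r : ℂ) - p.2 * (a * cexp (-(p.1 * I))))
    (by fun_prop) (fun θ s hs => ?_) (fun θ s _ => ?_) ?_
  · simpa using h
  · intro h
    have h1 : ‖(r : ℂ)‖ = ‖(s : ℂ) * (a * cexp (-(θ * I)))‖ := by
      rw [sub_eq_zero] at h; rw [← h]
    rw [norm_mul, norm_mul_cexp_neg, Complex.norm_real, Complex.norm_real,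
      Real.norm_of_nonneg hr.le, Real.norm_of_nonneg hs.1] at h1
    have := mul_le_mul_of_nonneg_right hs.2 (norm_nonneg a)
    linarith
  · simp only [cexp_neg_period]
  · have : (fun θ : ℝ => (fun p : ℝ × ℝ => (r : ℂ) - p.2 * (a * cexp (-(p.1 * I)))) (θ, 0)) =
        fun _ => (r : ℂ) := by
      funext θ; simp
    rw [this]
    exact W0.const (by exact_mod_cast hr.ne')

/-- a zero free function on the disc -/
theorem w0_zero_free {r : ℝ} (hr : 0 < r) {K : ℂ → ℂ} (hK : ContinuousOn K (Metric.closedBall 0 r))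
    (h0 : ∀ z, ‖z‖ ≤ r → K z ≠ 0) : W0 fun θ => K (cp r θ) := by
  have hle : ∀ (θ : ℝ) (s : ℝ), s ∈ Icc (0 : ℝ) 1 → ‖(s : ℂ) * cp r θ‖ ≤ r := by
    intro θ s hs
    rw [norm_mul, norm_cp hr.le, Complex.norm_real, Real.norm_of_nonneg hs.1]
    exact mul_le_of_le_one_left hr.le hs.2
  have h := W0.homotopy01 (H := fun p : ℝ × ℝ => K (p.2 * cp r p.1)) ?_
    (fun θ s hs => h0 _ (hle θ s hs)) (fun θ s _ => ?_) ?_
  · simpa using h
  · refine hK.comp ?_ ?_
    · have := continuous_cp r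
      fun_prop
    · rintro ⟨θ, s⟩ ⟨-, hs⟩
      exact mem_closedBall_zero_iff.2 (hle θ s hs)
  · simp only [cp_period]
  · have : (fun θ : ℝ => (fun p : ℝ × ℝ => K (p.2 * cp r p.1)) (θ, 0)) = fun _ => K 0 := by
      funext θ; simp
    rw [this]
    exact W0.const (h0 0 (by simpa using hr.le))

theorem Fac.w0 {U : Set ℂ} {G : ℂ → ℂ} {r : ℝ} {n : ℕ} (hr : 0 < r)
    (hU : Metric.closedBall 0 r ⊆ U) (h : Fac U G r n) :
    W0 fun θ => G (cp r θ) * cexp (-(n * θ * I)) := by
  obtain ⟨a, K, ha, hK, hK0, hG⟩ := h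
  have h1 : W0 fun θ => K (cp r θ) := w0_zero_free hr (hK.continuousOn.mono hU) hK0
  have h2 : W0 fun θ => ∏ i, ((r : ℂ) - a i * cexp (-(θ * I))) :=
    W0.prod Finset.univ (f := fun i θ => (r : ℂ) - a i * cexp (-(θ * I)))
      (fun i _ => w0_factor (ha i))
  refine (h2.mul h1).congr fun θ => ?_
  have hmem : cp r θ ∈ U := hU (mem_closedBall_zero_iff.2 (norm_cp hr.le θ).le)
  rw [hG _ hmem]
  have h3 : cexp (-(n * θ * I)) = ∏ _i : Fin n, cexp (-(θ * I)) := by
    rw [Finset.prod_const, Finset.card_univ, Fintype.card_fin, ← exp_nat_mul]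
    congr 1
    ring
  have h4 : ∀ i, (r : ℂ) - a i * cexp (-(θ * I)) = (cp r θ - a i) * cexp (-(θ * I)) := by
    intro i
    unfold cp
    rw [sub_mul, mul_assoc, ← exp_add]
    simp
  simp only [h4]
  rw [Finset.prod_mul_distrib, ← h3]
  ring

theorem Fac.unique {U : Set ℂ} {G : ℂ → ℂ} {r : ℝ} {n m : ℕ} (hr : 0 < r)
    (hU : Metric.closedBall 0 r ⊆ U) (hn : Fac U G r n)
    (hm : W0 fun θ => G (cp r θ) * cexp (-(m * θ * I))) : n = m := by
  have h1 := hn.w0 hr hU
  have h2 : W0 fun θ => cexp (((n : ℤ) - (m : ℤ) : ℤ) * θ * I) := by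
    refine (hm.div h1).congr fun θ => ?_
    have h3 : G (cp r θ) ≠ 0 := fun h => hm.ne_zero θ (by rw [h, zero_mul])
    rw [mul_div_mul_left _ _ h3, ← exp_sub]
    congr 1
    push_cast
    ring
  have h3 := h2.int_eq_zero
  omega

/-! ### Existence of the factorisation -/

theorem fac_order_ne_top {U : Set ℂ} (hUo : IsOpen U) (hUc : IsPreconnected U) {G : ℂ → ℂ}
    (hG : DifferentiableOn ℂ G U) {z1 : ℂ} (hz1 : z1 ∈ U) (hGz : G z1 ≠ 0) {a : ℂ} (ha : a ∈ U) :
    analyticOrderAt G a ≠ ⊤ := by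
  intro h
  rw [analyticOrderAt_eq_top] at h
  have h1 : Set.EqOn G 0 U :=
    (hG.analyticOnNhd hUo).eqOn_zero_of_preconnected_of_eventuallyEq_zero hUc ha h
  exact hGz (h1 hz1)

theorem fac_finite_zeros {U : Set ℂ} (hUo : IsOpen U) (hUc : IsPreconnected U) {G : ℂ → ℂ}
    (hG : DifferentiableOn ℂ G U) {z1 : ℂ} (hz1 : z1 ∈ U) (hGz : G z1 ≠ 0) {r : ℝ}
    (hU : Metric.closedBall 0 r ⊆ U) : {u : ℂ | ‖u‖ ≤ r ∧ G u = 0}.Finite := by
  by_contra hinf
  have hinf' : {u : ℂ | ‖u‖ ≤ r ∧ G u = 0}.Infinite := hinf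
  obtain ⟨x, hx, hacc⟩ := hinf'.exists_accPt_of_subset_isCompact (isCompact_closedBall (0 : ℂ) r)
    (fun u hu => mem_closedBall_zero_iff.2 hu.1)
  rw [accPt_iff_frequently_nhdsNE] at hacc
  refine hacc ?_
  have hne : ∀ᶠ u in 𝓝[≠] x, G u ≠ 0 := by
    rcases (hG.analyticAt (hUo.mem_nhds (hU hx))).eventually_eq_zero_or_eventually_ne_zero with h | h
    · exfalso
      exact fac_order_ne_top hUo hUc hG hz1 hGz (hU hx) (analyticOrderAt_eq_top.2 h)
    · exact h
  filter_upwards [hne] with u hu hu'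
  exact hu hu'.2

private noncomputable def tot (G : ℂ → ℂ) (Z : Finset ℂ) : ℕ := ∑ a ∈ Z, analyticOrderNatAt G a

private theorem fac_aux {U : Set ℂ} (hUo : IsOpen U) (hUc : IsPreconnected U) {r : ℝ} (hr : 0 < r)
    (hU : Metric.closedBall 0 r ⊆ U) (Z : Finset ℂ) (hZr : ∀ a ∈ Z, ‖a‖ ≤ r) (n : ℕ) :
    ∀ G : ℂ → ℂ, DifferentiableOn ℂ G U → (∀ u : ℂ, ‖u‖ = r → G u ≠ 0) →
    (∀ u : ℂ, ‖u‖ ≤ r → G u = 0 → u ∈ Z) → tot G Z = n → Fac U G r n := by
  have hrC : ‖(r : ℂ)‖ = r := by rw [Complex.norm_real, Real.norm_of_nonneg hr.le]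
  have hrU : (r : ℂ) ∈ U := hU (mem_closedBall_zero_iff.2 hrC.le)
  induction n with
  | zero =>
    intro G hG h1 hZ htot
    have hno : ∀ u : ℂ, ‖u‖ ≤ r → G u ≠ 0 := by
      intro u hu h
      have h3 := hZ u hu h
      have h4 : analyticOrderNatAt G u = 0 := by
        unfold tot at htot
        exact (Finset.sum_eq_zero_iff.1 htot) u h3
      have huU : u ∈ U := hU (mem_closedBall_zero_iff.2 hu)
      have h5 : analyticOrderAt G u ≠ 0 :=
        analyticOrderAt_ne_zero.2 ⟨hG.analyticAt (hUo.mem_nhds huU), h⟩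
      have h6 := fac_order_ne_top hUo hUc hG hrU (h1 _ hrC) huU
      unfold analyticOrderNatAt at h4
      rw [ENat.toNat_eq_zero] at h4
      rcases h4 with h4 | h4
      · exact h5 h4
      · exact h6 h4
    exact ⟨fun i => i.elim0, G, fun i => i.elim0, hG, hno, fun z _ => by simp⟩
  | succ n ih =>
    intro G hG h1 hZ htot
    have hex : ∃ a ∈ Z, analyticOrderNatAt G a ≠ 0 := by
      by_contra hcon
      push Not at hcon
      unfold tot at htot
      rw [Finset.sum_eq_zero hcon] at htot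
      omega
    obtain ⟨a, haZ, hord⟩ := hex
    have har := hZr a haZ
    have haU : a ∈ U := hU (mem_closedBall_zero_iff.2 har)
    have hGa : G a = 0 := by
      by_contra hGa
      have : analyticOrderAt G a = 0 := analyticOrderAt_eq_zero.2 (Or.inr hGa)
      unfold analyticOrderNatAt at hord
      rw [this] at hord
      exact hord rfl
    have har' : ‖a‖ < r := lt_of_le_of_ne har fun h => h1 a h hGa
    have hGH : ∀ z, G z = (z - a) * dslope G a z := by
      intro z
      have := sub_smul_dslope G a z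
      rw [hGa, sub_zero, smul_eq_mul] at this
      exact this.symm
    have hH : DifferentiableOn ℂ (dslope G a) U :=
      (Complex.differentiableOn_dslope (hUo.mem_nhds haU)).2 hG
    have hne1 : ∀ u : ℂ, ‖u‖ = r → dslope G a u ≠ 0 := fun u hu h =>
      h1 u hu (by rw [hGH, h, mul_zero])
    have hmul : ∀ b ∈ Z, analyticOrderNatAt G b = analyticOrderNatAt (fun z => z - a) b +
        analyticOrderNatAt (dslope G a) b := by
      intro b hb
      have hbU : b ∈ U := hU (mem_closedBall_zero_iff.2 (hZr b hb))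
      have h3 : G = (fun z => z - a) * dslope G a := funext hGH
      have h4 : AnalyticAt ℂ (fun z : ℂ => z - a) b := by fun_prop
      conv_lhs => rw [h3]
      refine analyticOrderNatAt_mul h4 (hH.analyticAt (hUo.mem_nhds hbU)) ?_
        (fac_order_ne_top hUo hUc hH hrU (hne1 _ hrC) hbU)
      intro h
      rw [analyticOrderAt_eq_top] at h
      have h50 : AnalyticOnNhd ℂ (fun z : ℂ => z - a) Set.univ := fun z _ =>
        analyticAt_id.sub analyticAt_const
      have h5 : Set.EqOn (fun z : ℂ => z - a) 0 Set.univ :=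
        h50.eqOn_zero_of_preconnected_of_eventuallyEq_zero isPreconnected_univ (Set.mem_univ b) h
      have h6 := h5 (Set.mem_univ (a + 1))
      simp at h6
    have hone : analyticOrderNatAt (fun z => z - a) a = 1 := by
      have h3 : analyticOrderAt (fun z : ℂ => z - a) a = ((1 : ℕ) : ℕ∞) := by
        rw [AnalyticAt.analyticOrderAt_eq_natCast (by fun_prop)]
        refine ⟨fun _ => 1, analyticAt_const, one_ne_zero, Eventually.of_forall fun z => ?_⟩
        simp
      unfold analyticOrderNatAt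
      rw [h3]
      rfl
    have hzero : ∀ b, b ≠ a → analyticOrderNatAt (fun z => z - a) b = 0 := by
      intro b hb
      have h3 : analyticOrderAt (fun z : ℂ => z - a) b = 0 := by
        rw [analyticOrderAt_eq_zero]
        exact Or.inr (sub_ne_zero.2 hb)
      unfold analyticOrderNatAt
      rw [h3]
      rfl
    have htot' : tot (dslope G a) Z = n := by
      have h3 : tot G Z = 1 + tot (dslope G a) Z := by
        unfold tot
        rw [Finset.sum_congr rfl hmul, Finset.sum_add_distrib]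
        congr 1
        rw [Finset.sum_eq_single a (fun b _ hb => hzero b hb) (fun h => absurd haZ h), hone]
      omega
    obtain ⟨b, K, hb, hK, hK0, hKG⟩ := ih (dslope G a) hH hne1
      (fun u hu h => hZ u hu (by rw [hGH, h, mul_zero])) htot'
    refine ⟨Fin.cons a b, K, fun i => ?_, hK, hK0, fun z hz => ?_⟩
    · refine Fin.cases ?_ (fun j => ?_) i
      · simpa using har'
      · simpa using hb j
    · rw [hGH, hKG z hz, Fin.prod_univ_succ]
      simp only [Fin.cons_zero, Fin.cons_succ]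
      ring

/-- a factorisation exists -/
theorem fac_exists {U : Set ℂ} (hUo : IsOpen U) (hUc : IsPreconnected U) {r : ℝ} (hr : 0 < r)
    (hU : Metric.closedBall 0 r ⊆ U) {G : ℂ → ℂ} (hG : DifferentiableOn ℂ G U)
    (h1 : ∀ u : ℂ, ‖u‖ = r → G u ≠ 0) : ∃ n, Fac U G r n := by
  have hrC : ‖(r : ℂ)‖ = r := by rw [Complex.norm_real, Real.norm_of_nonneg hr.le]
  have hrU : (r : ℂ) ∈ U := hU (mem_closedBall_zero_iff.2 hrC.le)
  have hf := fac_finite_zeros hUo hUc hG hrU (h1 _ hrC) hU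
  refine ⟨_, fac_aux hUo hUc hr hU hf.toFinset (fun a ha => ?_) _ G hG h1 (fun u hu h => ?_) rfl⟩
  · exact (hf.mem_toFinset.1 ha).1
  · exact hf.mem_toFinset.2 ⟨hu, h⟩

/-- winding number `k` gives exactly `k` zeros -/
theorem fac_of_w0 {U : Set ℂ} (hUo : IsOpen U) (hUc : IsPreconnected U) {r : ℝ} (hr : 0 < r)
    (hU : Metric.closedBall 0 r ⊆ U) {G : ℂ → ℂ} (hG : DifferentiableOn ℂ G U) {k : ℕ}
    (h : W0 fun θ => G (cp r θ) * cexp (-(k * θ * I))) : Fac U G r k := by
  have h1 : ∀ u : ℂ, ‖u‖ = r → G u ≠ 0 := by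
    intro u hu h2
    have h3 : cp r (Complex.arg u) = u := by
      unfold cp
      rw [← hu]
      exact Complex.norm_mul_exp_arg_mul_I u
    exact h.ne_zero (Complex.arg u) (by rw [h3, h2, zero_mul])
  obtain ⟨n, hn⟩ := fac_exists hUo hUc hr hU hG h1
  have := hn.unique hr hU h
  rw [← this]
  exact hn

/-- zero winding number: no zero -/
theorem ne_zero_of_w0 {U : Set ℂ} (hUo : IsOpen U) (hUc : IsPreconnected U) {r : ℝ} (hr : 0 < r)
    (hU : Metric.closedBall 0 r ⊆ U) {G : ℂ → ℂ} (hG : DifferentiableOn ℂ G U)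
    (h : W0 fun θ => G (cp r θ)) : ∀ z, ‖z‖ ≤ r → G z ≠ 0 := by
  have h1 : W0 fun θ => G (cp r θ) * cexp (-(((0 : ℕ) : ℂ) * θ * I)) := by
    refine h.congr fun θ => ?_
    simp
  obtain ⟨a, K, -, -, hK0, hG'⟩ := fac_of_w0 hUo hUc hr hU hG h1
  intro z hz
  rw [hG' z (hU (mem_closedBall_zero_iff.2 hz))]
  simpa using hK0 z hz

/-! ### Entire functions: all counts attained means simple zeros of distinct moduli -/

theorem Fac.ne_zero {G : ℂ → ℂ} {r : ℝ} {n : ℕ} (h : Fac univ G r n) {z : ℂ} (hz : ‖z‖ = r) :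
    G z ≠ 0 := by
  obtain ⟨a, K, ha, -, hK0, hG⟩ := h
  rw [hG z (mem_univ z)]
  refine mul_ne_zero (Finset.prod_ne_zero_iff.2 fun i _ => ?_) (hK0 z hz.le)
  intro h
  have h1 := ha i
  rw [sub_eq_zero] at h
  rw [← h, hz] at h1
  exact lt_irrefl _ h1

/-- append factors to a factorisation -/
theorem Fac.append {G K : ℂ → ℂ} {r : ℝ} {n m : ℕ} (a : Fin n → ℂ) (ha : ∀ i, ‖a i‖ < r)
    (hG : ∀ z, G z = (∏ i, (z - a i)) * K z) (hK : Fac univ K r m) : Fac univ G r (n + m) := by
  obtain ⟨b, K', hb, hK', hK0, hKK⟩ := hK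
  refine ⟨Fin.append a b, K', fun i => ?_, hK', hK0, fun z hz => ?_⟩
  · refine Fin.addCases (fun j => ?_) (fun j => ?_) i
    · rw [Fin.append_left]; exact ha j
    · rw [Fin.append_right]; exact hb j
  · rw [hG, hKK z hz, Fin.prod_univ_add]
    simp only [Fin.append_left, Fin.append_right]
    ring

theorem fac_uniq {G : ℂ → ℂ} {r : ℝ} (hr : 0 < r) {n m : ℕ} (hn : Fac univ G r n)
    (hm : Fac univ G r m) : n = m :=
  hn.unique hr (subset_univ _) (hm.w0 hr (subset_univ _))

/-- If for every `k` some circle about `0` has exactly `k` zeros inside, then the zeros are simple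
and have distinct moduli. -/
theorem simple_of_fac {G : ℂ → ℂ} (hG : Differentiable ℂ G) (hG0 : G 0 ≠ 0)
    (h : ∀ k, ∃ r, 0 < r ∧ Fac univ G r k) {z : ℂ} (hz : G z = 0) :
    deriv G z ≠ 0 ∧ ∀ w, G w = 0 → ‖w‖ = ‖z‖ → w = z := by
  have hz0 : 0 < ‖z‖ := by
    rw [norm_pos_iff]
    rintro rfl
    exact hG0 hz
  -- a radius just below `‖z‖`
  obtain ⟨r', hr'0, hr'z, hr'⟩ : ∃ r', 0 < r' ∧ r' < ‖z‖ ∧
      ∀ u : ℂ, r' ≤ ‖u‖ → ‖u‖ < ‖z‖ → G u ≠ 0 := by
    have hf := fac_finite_zeros isOpen_univ isPreconnected_univ hG.differentiableOn (mem_univ 0) hG0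
      (subset_univ (Metric.closedBall 0 ‖z‖))
    have hf' : ((fun u : ℂ => ‖u‖) '' {u : ℂ | ‖u‖ < ‖z‖ ∧ G u = 0}).Finite := by
      refine Set.Finite.image _ (hf.subset ?_)
      rintro u ⟨h1, h2⟩
      exact ⟨h1.le, h2⟩
    obtain ⟨b, hb⟩ : ∃ b, b < ‖z‖ ∧ ∀ x ∈ ((fun u : ℂ => ‖u‖) '' {u : ℂ | ‖u‖ < ‖z‖ ∧ G u = 0}),
        x ≤ b := by
      rcases Set.eq_empty_or_nonempty ((fun u : ℂ => ‖u‖) '' {u : ℂ | ‖u‖ < ‖z‖ ∧ G u = 0}) with
        he | hne
      · exact ⟨0, hz0, fun x hx => by rw [he] at hx; exact absurd hx (Set.notMem_empty x)⟩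
      · obtain ⟨b, hb1, hb2⟩ := Set.exists_max_image _ id hf' hne
        refine ⟨b, ?_, fun x hx => hb2 x hx⟩
        obtain ⟨u, ⟨h1, -⟩, rfl⟩ := hb1
        exact h1
    refine ⟨(max b 0 + ‖z‖) / 2, ?_, ?_, ?_⟩
    · have := le_max_right b 0
      linarith
    · have : max b 0 < ‖z‖ := max_lt hb.1 hz0
      linarith
    · intro u h1 h2 h3
      have h4 := hb.2 ‖u‖ ⟨u, ⟨h2, h3⟩, rfl⟩
      have h5 := le_max_left b 0
      have : max b 0 < ‖z‖ := max_lt hb.1 hz0
      linarith
  obtain ⟨n, hn⟩ := fac_exists isOpen_univ isPreconnected_univ hr'0 (subset_univ _)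
    hG.differentiableOn (fun u hu => hr' u hu.ge (by rw [hu]; exact hr'z))
  obtain ⟨r, hr0, hr⟩ := h (n + 1)
  have hne : ‖z‖ ≠ r := fun hzr => hr.ne_zero hzr hz
  have hrz : ‖z‖ < r := by
    by_contra hcon
    have hlt : r < ‖z‖ := lt_of_le_of_ne (not_lt.1 hcon) (Ne.symm hne)
    -- all `n + 1` zeros are inside `r'`
    obtain ⟨a, K, ha, hK, hK0, hGK⟩ := hr
    have hGa : ∀ i, G (a i) = 0 := by
      intro i
      rw [hGK _ (mem_univ _), Finset.prod_eq_zero (Finset.mem_univ i) (sub_self _), zero_mul]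
    have ha' : ∀ i, ‖a i‖ < r' := by
      intro i
      by_contra h1
      exact hr' (a i) (not_lt.1 h1) ((ha i).trans hlt) (hGa i)
    obtain ⟨m, hm⟩ := fac_exists isOpen_univ isPreconnected_univ hr'0 (subset_univ _)
      hK (fun u hu h1 => hr' u hu.ge (by rw [hu]; exact hr'z)
        (by rw [hGK _ (mem_univ _), h1, mul_zero]))
    have := fac_uniq hr'0 hn (Fac.append a ha' (fun z => hGK z (mem_univ z)) hm)
    omega
  -- the factorisation at `r'`
  obtain ⟨b, K, hb, hK, hK0, hGK⟩ := hn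
  have hKd : Differentiable ℂ K := differentiableOn_univ.1 hK
  have hprod : ∀ u : ℂ, r' ≤ ‖u‖ → ∏ i, (u - b i) ≠ 0 := by
    intro u hu
    refine Finset.prod_ne_zero_iff.2 fun i _ h1 => ?_
    rw [sub_eq_zero] at h1
    have := hb i
    rw [← h1] at this
    linarith
  have hKz : K z = 0 := by
    have h1 := hGK z (mem_univ z)
    rw [hz] at h1
    exact (mul_eq_zero.1 h1.symm).resolve_left (hprod z hr'z.le)
  -- a second zero is impossible
  have key : ∀ w : ℂ, ‖w‖ = ‖z‖ → dslope K z w ≠ 0 := by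
    intro w hw h1
    have hd : Differentiable ℂ (dslope K z) := by
      have := (Complex.differentiableOn_dslope (s := Set.univ) (f := K) (c := z)
        Filter.univ_mem).2 hKd.differentiableOn
      exact differentiableOn_univ.1 this
    have hd2 : Differentiable ℂ (dslope (dslope K z) w) := by
      have := (Complex.differentiableOn_dslope (s := Set.univ) (f := dslope K z) (c := w)
        Filter.univ_mem).2 hd.differentiableOn
      exact differentiableOn_univ.1 this
    have e1 : ∀ u, K u = (u - z) * dslope K z u := by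
      intro u
      have := sub_smul_dslope K z u
      rw [hKz, sub_zero, smul_eq_mul] at this
      exact this.symm
    have e2 : ∀ u, dslope K z u = (u - w) * dslope (dslope K z) w u := by
      intro u
      have := sub_smul_dslope (dslope K z) w u
      rw [h1, sub_zero, smul_eq_mul] at this
      exact this.symm
    have hGu : ∀ u, G u = (∏ i, (u - Fin.append b ![z, w] i)) * dslope (dslope K z) w u := by
      intro u
      rw [hGK u (mem_univ u), e1, e2, Fin.prod_univ_add]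
      simp only [Fin.append_left, Fin.append_right, Fin.prod_univ_two, Matrix.cons_val_zero,
        Matrix.cons_val_one]
      ring
    have hap : ∀ i, ‖Fin.append b ![z, w] i‖ < r := by
      intro i
      refine Fin.addCases (fun j => ?_) (fun j => ?_) i
      · rw [Fin.append_left]; exact (hb j).trans (hr'z.trans hrz)
      · rw [Fin.append_right]
        fin_cases j
        · simpa using hrz
        · simpa [hw] using hrz
    obtain ⟨m, hm⟩ := fac_exists isOpen_univ isPreconnected_univ hr0 (subset_univ _)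
      hd2.differentiableOn (fun u hu h2 => hr.ne_zero hu (by rw [hGu, h2, mul_zero]))
    have := fac_uniq hr0 hr (Fac.append _ hap hGu hm)
    omega
  constructor
  · intro h1
    refine key z rfl ?_
    rw [dslope_same]
    have h2 : deriv G z = (∏ i, (z - b i)) * deriv K z := by
      have h3 : G = fun u => (∏ i, (u - b i)) * K u := funext fun u => hGK u (mem_univ u)
      have h4 : DifferentiableAt ℂ (fun u : ℂ => ∏ i, (u - b i)) z := by fun_prop
      rw [h3, deriv_fun_mul h4 (hKd z), hKz, mul_zero, zero_add]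
    rw [h1] at h2
    exact (mul_eq_zero.1 h2.symm).resolve_left (hprod z hr'z.le)
  · intro w hw hwz
    by_contra hne2
    have hKw : K w = 0 := by
      have h1 := hGK w (mem_univ w)
      rw [hw] at h1
      exact (mul_eq_zero.1 h1.symm).resolve_left (hprod w (by rw [hwz]; exact hr'z.le))
    refine key w hwz ?_
    rw [dslope_of_ne _ hne2, slope_def_field, hKw, hKz]
    simp

end SokalIn
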