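import Pool.Agent.Lib_MP_af4de1_in.Defs
import Pool.Agent.Lib_MP_af4de1_in.Fac
import Pool.Agent.Lib_MP_af4de1_Ray.Limit

/-!
# The first zeros: uniqueness, conjugation, persistence
-/

set_option autoImplicit false

open Complex Set Filter Topology SokalF

namespace SokalIn

/-! ### Elementary properties -/

theorem First.lt {q : ℂ} {k : ℕ} {z : ℕ → ℂ} (h : First q k z) {i j : ℕ} (hij : i < j)
    (hj : j ≤ k) : ‖z i‖ < ‖z j‖ := by
  induction j, hij using Nat.le_induction with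
  | base => exact h.mono i (by omega)
  | succ j hj' ih => exact (ih (by omega)).trans (h.mono j (by omega))

theorem First.le {q : ℂ} {k : ℕ} {z : ℕ → ℂ} (h : First q k z) {i j : ℕ} (hij : i ≤ j)
    (hj : j ≤ k) : ‖z i‖ ≤ ‖z j‖ := by
  rcases hij.lt_or_eq with h1 | h1
  · exact (h.lt h1 hj).le
  · rw [h1]

theorem First.mono_k {q : ℂ} {k j : ℕ} {z : ℕ → ℂ} (h : First q k z) (hj : j ≤ k) :
    First q j z where
  zero i hi := h.zero i (hi.trans hj)
  simple i hi := h.simple i (hi.trans hj)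
  mono i hi := h.mono i (hi.trans_le hj)
  complete w hw hwj := by
    obtain ⟨i, hi, rfl⟩ := h.complete w hw (hwj.trans (h.le hj le_rfl))
    refine ⟨i, ?_, rfl⟩
    by_contra hcon
    exact absurd hwj (not_le.2 (h.lt (not_le.1 hcon) hi))

theorem first_unique {q : ℂ} {k : ℕ} {z z' : ℕ → ℂ} (h : First q k z) (h' : First q k z') :
    ∀ i ≤ k, z i = z' i := by
  intro i
  induction i using Nat.strong_induction_on with
  | _ i ih =>
    intro hi
    have key : ∀ {a b : ℕ → ℂ}, First q k a → First q k b → (∀ j < i, a j = b j) →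
        ‖a i‖ ≤ ‖b i‖ := by
      intro a b ha hb hab
      by_contra hcon
      rw [not_le] at hcon
      obtain ⟨j, hj, hj2⟩ := ha.complete (b i) (hb.zero i hi) (hcon.le.trans (ha.le hi le_rfl))
      have hji : j < i := by
        by_contra h1
        have := ha.le (not_lt.1 h1) hj
        rw [← hj2] at this
        linarith
      rw [hab j hji] at hj2
      have := hb.lt hji hi
      rw [hj2] at this
      exact lt_irrefl _ this
    have h1 := key h h' fun j hj => ih j hj (hj.le.trans hi)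
    have h2 := key h' h fun j hj => (ih j hj (hj.le.trans hi)).symm
    have h3 : ‖z i‖ = ‖z' i‖ := le_antisymm h1 h2
    obtain ⟨j, hj, hj2⟩ := h'.complete (z i) (h.zero i hi) (h1.trans (h'.le hi le_rfl))
    have hji : j = i := by
      rcases lt_trichotomy j i with h4 | h4 | h4
      · have := h'.lt h4 hi
        rw [← hj2] at this
        linarith
      · exact h4
      · have := h'.lt h4 hj
        rw [← hj2] at this
        linarith
    rw [hji] at hj2
    exact hj2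

theorem F_conj (q z : ℂ) : F (starRingEnd ℂ q) (starRingEnd ℂ z) = starRingEnd ℂ (F q z) := by
  unfold F
  rw [Complex.conj_tsum]
  refine tsum_congr fun n => ?_
  simp

theorem First.conj {q : ℂ} {k : ℕ} {z : ℕ → ℂ} (h : First q k z) :
    First (starRingEnd ℂ q) k (fun i => starRingEnd ℂ (z i)) where
  zero i hi := by rw [F_conj, h.zero i hi, map_zero]
  simple i hi := by
    rw [← map_mul, F_conj]
    intro h1
    exact h.simple i hi ((map_eq_zero _).1 h1)
  mono i hi := by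
    simp only [Complex.norm_conj]
    exact h.mono i hi
  complete w hw hwk := by
    simp only [Complex.norm_conj] at hwk
    obtain ⟨i, hi, hi2⟩ := h.complete (starRingEnd ℂ w) (by
      have := F_conj (starRingEnd ℂ q) w
      rw [Complex.conj_conj] at this
      rw [this, hw, map_zero]) (by rw [Complex.norm_conj]; exact hwk)
    refine ⟨i, hi, ?_⟩
    rw [← hi2, Complex.conj_conj]

theorem First.ne_zero {q : ℂ} {k : ℕ} {z : ℕ → ℂ} (h : First q k z) {i : ℕ} (hi : i ≤ k) :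
    z i ≠ 0 := by
  intro h0
  have := h.zero i hi
  rw [h0, F_zero] at this
  exact one_ne_zero this

theorem First.norm_pos {q : ℂ} {k : ℕ} {z : ℕ → ℂ} (h : First q k z) {i : ℕ} (hi : i ≤ k) :
    0 < ‖z i‖ := norm_pos_iff.2 (h.ne_zero hi)

/-! ### Uniform continuity in `q` -/

theorem unif {q : ℂ} (hq : ‖q‖ ≤ 1) {C : Set ℂ} (hC : IsCompact C) {η : ℝ} (hη : 0 < η) :
    ∃ δ > 0, ∀ q' : ℂ, ‖q'‖ ≤ 1 → ‖q' - q‖ < δ → ∀ w ∈ C, ‖F q' w - F q w‖ < η := by
  have hf : ContinuousOn (Function.uncurry fun (x : ℂ) (z : ℂ) => F x z)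
      ({x : ℂ | ‖x‖ ≤ 1} ×ˢ C) :=
    continuousOn_F.mono fun p hp => hp.1
  obtain ⟨v, hv, hv2⟩ := hC.mem_uniformity_of_prod hf (show q ∈ {x : ℂ | ‖x‖ ≤ 1} from hq)
    (Metric.dist_mem_uniformity hη)
  obtain ⟨δ, hδ, hδv⟩ := Metric.mem_nhdsWithin_iff.1 hv
  refine ⟨δ, hδ, fun q' hq' hqq w hw => ?_⟩
  have h1 : q' ∈ v := hδv ⟨by rw [Metric.mem_ball, dist_eq_norm]; exact hqq, hq'⟩
  have h2 : dist (F q' w) (F q w) < η := hv2 q' h1 w hw
  rwa [dist_eq_norm] at h2

theorem ne_near {q : ℂ} (hq : ‖q‖ ≤ 1) {C : Set ℂ} (hC : IsCompact C)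
    (h0 : ∀ w ∈ C, F q w ≠ 0) :
    ∃ δ > 0, ∀ q' : ℂ, ‖q'‖ ≤ 1 → ‖q' - q‖ < δ → ∀ w ∈ C, F q' w ≠ 0 := by
  rcases C.eq_empty_or_nonempty with he | hne
  · exact ⟨1, one_pos, fun q' _ _ w hw => by rw [he] at hw; exact absurd hw (Set.notMem_empty w)⟩
  · obtain ⟨x0, hx0, hmin⟩ := hC.exists_isMinOn hne
      (SokalRay.differentiable_F hq).continuous.norm.continuousOn
    have hm : 0 < ‖F q x0‖ := norm_pos_iff.2 (h0 x0 hx0)
    obtain ⟨δ, hδ, H⟩ := unif hq hC hm
    refine ⟨δ, hδ, fun q' hq' hqq w hw h1 => ?_⟩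
    have h2 := H q' hq' hqq w hw
    rw [h1, zero_sub, norm_neg] at h2
    exact absurd (show ‖F q x0‖ ≤ ‖F q w‖ from hmin hw) (not_le.2 h2)

/-! ### One zero in a small disc -/

theorem fac_one {G : ℂ → ℂ} {r : ℝ} (hr : 0 < r) (hG : Differentiable ℂ G) (h0 : G 0 = 0)
    (h1 : deriv G 0 ≠ 0) (h2 : ∀ w, ‖w‖ ≤ r → G w = 0 → w = 0) : Fac univ G r 1 := by
  have hH : DifferentiableOn ℂ (dslope G 0) univ :=
    (Complex.differentiableOn_dslope (s := Set.univ) (f := G) (c := 0)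
      Filter.univ_mem).2 hG.differentiableOn
  have e1 : ∀ u, G u = (u - 0) * dslope G 0 u := by
    intro u
    have := sub_smul_dslope G 0 u
    rw [h0, sub_zero (G u), smul_eq_mul] at this
    exact this.symm
  refine ⟨fun _ => 0, dslope G 0, fun _ => by simpa using hr, hH, fun w hw h3 => ?_,
    fun w _ => by rw [e1]; simp⟩
  have h4 := h2 w hw (by rw [e1, h3, mul_zero])
  rw [h4, dslope_same] at h3
  exact h1 h3

theorem Fac.one {G : ℂ → ℂ} {r : ℝ} (h : Fac univ G r 1) :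
    ∃ a, ‖a‖ < r ∧ G a = 0 ∧ deriv G a ≠ 0 ∧ ∀ w, ‖w‖ ≤ r → G w = 0 → w = a := by
  obtain ⟨a, K, ha, hK, hK0, hG⟩ := h
  have hG' : ∀ z, G z = (z - a 0) * K z := fun z => by
    rw [hG z (mem_univ z)]; simp
  have hKd : Differentiable ℂ K := differentiableOn_univ.1 hK
  refine ⟨a 0, ha 0, by rw [hG', sub_self, zero_mul], ?_, fun w hw h1 => ?_⟩
  · have h2 : HasDerivAt (fun z => (z - a 0) * K z) (1 * K (a 0) + (a 0 - a 0) * deriv K (a 0))
        (a 0) := ((hasDerivAt_id (a 0)).sub_const (a 0)).mul (hKd (a 0)).hasDerivAt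
    have h3 : G = fun z => (z - a 0) * K z := funext hG'
    rw [h3, h2.deriv, sub_self, zero_mul, add_zero, one_mul]
    exact hK0 _ (ha 0).le
  · rw [hG', mul_eq_zero] at h1
    exact sub_eq_zero.1 (h1.resolve_right (hK0 w hw))

theorem norm_segment {q q' : ℂ} (hq : ‖q‖ ≤ 1) (hq' : ‖q'‖ ≤ 1) {s : ℝ} (hs : s ∈ Icc (0 : ℝ) 1) :
    ‖q + s * (q' - q)‖ ≤ 1 := by
  have h1 : q + s * (q' - q) = ((1 - s : ℝ) : ℂ) * q + (s : ℂ) * q' := by push_cast; ring
  rw [h1]
  refine (norm_add_le _ _).trans ?_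
  rw [norm_mul, norm_mul, Complex.norm_real, Complex.norm_real, Real.norm_of_nonneg hs.1,
    Real.norm_of_nonneg (by linarith [hs.2])]
  nlinarith [hs.1, hs.2, norm_nonneg q, norm_nonneg q']

/-- the number of zeros in a disc about `c` is locally constant in `q` -/
theorem fac_stable {q q' c : ℂ} (hq : ‖q‖ ≤ 1) (hq' : ‖q'‖ ≤ 1) {r : ℝ} (hr : 0 < r) {n : ℕ}
    (h : Fac univ (fun u => F q (c + u)) r n)
    (hne : ∀ s ∈ Icc (0 : ℝ) 1, ∀ u : ℂ, ‖u‖ = r → F (q + s * (q' - q)) (c + u) ≠ 0) :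
    Fac univ (fun u => F q' (c + u)) r n := by
  have h1 := h.w0 hr (subset_univ _)
  have h2 := W0.homotopy01 (H := fun p : ℝ × ℝ =>
    F (q + p.2 * (q' - q)) (c + cp r p.1) * cexp (-(n * p.1 * I))) ?_
    (fun θ s hs => mul_ne_zero (hne s hs _ (norm_cp hr.le θ)) (exp_ne_zero _))
    (fun θ s _ => ?_) ?_
  · refine fac_of_w0 isOpen_univ isPreconnected_univ hr (subset_univ _) ?_ ?_
    · have := SokalRay.differentiable_F hq'
      exact (this.comp (by fun_prop)).differentiableOn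
    · refine h2.congr fun θ => ?_
      simp
  · refine ContinuousOn.mul ?_ (by fun_prop)
    have hcp := continuous_cp r
    refine continuousOn_F.comp (f := fun p : ℝ × ℝ => (q + p.2 * (q' - q), c + cp r p.1))
      (by fun_prop) ?_
    rintro ⟨θ, s⟩ ⟨-, hs⟩
    exact norm_segment hq hq' hs
  · simp only [cp_period]
    congr 1
    have : -(n * ((θ + 2 * Real.pi : ℝ) : ℂ) * I) = -(n * θ * I) + (-(n : ℤ) : ℤ) * (2 * Real.pi * I) := by
      push_cast; ring
    rw [this, exp_add, exp_int_mul_two_pi_mul_I, mul_one]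
  · refine h1.congr fun θ => ?_
    simp

/-! ### Persistence -/

theorem exists_pos_le (g : ℕ → ℝ) (k : ℕ) (hg : ∀ i < k, 0 < g i) : ∃ ε > 0, ∀ i < k, ε ≤ g i := by
  induction k with
  | zero => exact ⟨1, one_pos, fun i hi => absurd hi (Nat.not_lt_zero i)⟩
  | succ k ih =>
    obtain ⟨ε, hε, h⟩ := ih fun i hi => hg i (by omega)
    refine ⟨min ε (g k), lt_min hε (hg k (by omega)), fun i hi => ?_⟩
    rcases (Nat.lt_succ_iff_lt_or_eq.1 hi) with h1 | h1
    · exact (min_le_left _ _).trans (h i h1)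
    · rw [h1]; exact min_le_right _ _

theorem gap_above {G : ℂ → ℂ} (hG : Differentiable ℂ G) (hG0 : G 0 ≠ 0) (r : ℝ) :
    ∃ r' > r, ∀ w, r < ‖w‖ → ‖w‖ ≤ r' → G w ≠ 0 := by
  have hf := fac_finite_zeros isOpen_univ isPreconnected_univ hG.differentiableOn (mem_univ 0) hG0
    (subset_univ (Metric.closedBall 0 (r + 1)))
  have hf' : ((fun u : ℂ => ‖u‖) '' {u : ℂ | (‖u‖ ≤ r + 1 ∧ G u = 0) ∧ r < ‖u‖}).Finite := by
    refine Set.Finite.image _ (hf.subset ?_)
    rintro u ⟨h1, h2⟩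
    exact h1
  rcases Set.eq_empty_or_nonempty
    ((fun u : ℂ => ‖u‖) '' {u : ℂ | (‖u‖ ≤ r + 1 ∧ G u = 0) ∧ r < ‖u‖}) with he | hne
  · refine ⟨r + 1, by linarith, fun w h1 h2 h3 => ?_⟩
    have : ‖w‖ ∈ ((fun u : ℂ => ‖u‖) '' {u : ℂ | (‖u‖ ≤ r + 1 ∧ G u = 0) ∧ r < ‖u‖}) :=
      ⟨w, ⟨⟨h2, h3⟩, h1⟩, rfl⟩
    rw [he] at this
    exact Set.notMem_empty _ this
  · obtain ⟨b, hb1, hb2⟩ := Set.exists_min_image _ id hf' hne
    obtain ⟨u, ⟨⟨hu1, hu2⟩, hu3⟩, rfl⟩ := hb1
    refine ⟨(r + ‖u‖) / 2, by linarith, fun w h1 h2 h3 => ?_⟩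
    have h4 : id ‖u‖ ≤ id ‖w‖ := hb2 ‖w‖ ⟨w, ⟨⟨by linarith, h3⟩, h1⟩, rfl⟩
    simp only [id] at h4
    linarith

/-- the first zeros persist under small changes of `q` -/
theorem stable {q : ℂ} (hq : ‖q‖ ≤ 1) {k : ℕ} {z : ℕ → ℂ} (hz : First q k z) {ε : ℝ} (hε : 0 < ε) :
    ∃ δ > 0, ∀ q' : ℂ, ‖q'‖ ≤ 1 → ‖q' - q‖ < δ →
      ∃ z' : ℕ → ℂ, First q' k z' ∧ ∀ i ≤ k, ‖z' i - z i‖ < ε := by
  have hFd := SokalRay.differentiable_F hq
  obtain ⟨r0, hr0, hgap⟩ := gap_above hFd (by rw [F_zero]; exact one_ne_zero) ‖z k‖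
  obtain ⟨e1, he1, h1⟩ := exists_pos_le (fun i => (‖z (i + 1)‖ - ‖z i‖) / 3) k
    (fun i hi => by have := hz.mono i hi; linarith)
  set e : ℝ := min e1 (min (ε / 2) (r0 - ‖z k‖)) with hedef
  have he : 0 < e := lt_min he1 (lt_min (by linarith) (by linarith))
  have he1' : e ≤ e1 := min_le_left _ _
  have heε : e < ε := by
    have : e ≤ ε / 2 := (min_le_right _ _).trans (min_le_left _ _)
    linarith
  have her : ‖z k‖ + e ≤ r0 := by
    have : e ≤ r0 - ‖z k‖ := (min_le_right _ _).trans (min_le_right _ _)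
    linarith
  have hgap3 : ∀ i j, i < j → j ≤ k → ‖z i‖ + 3 * e ≤ ‖z j‖ := by
    intro i j hij hj
    have h2 : ‖z (i + 1)‖ ≤ ‖z j‖ := hz.le (by omega) hj
    have h3 : e1 ≤ (‖z (i + 1)‖ - ‖z i‖) / 3 := h1 i (by omega)
    linarith
  have hdist : ∀ i j, i ≤ k → j ≤ k → i ≠ j → 3 * e ≤ ‖z i - z j‖ := by
    intro i j hi hj hij
    rcases lt_or_gt_of_ne hij with h2 | h2
    · have h3 := hgap3 i j h2 hj
      have h4 := norm_sub_norm_le (z j) (z i)
      rw [norm_sub_rev] at h4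
      linarith
    · have h3 := hgap3 j i h2 hi
      have h4 := norm_sub_norm_le (z i) (z j)
      linarith
  -- the compact set
  set C : Set ℂ := Metric.closedBall 0 r0 \ ⋃ i ∈ Finset.range (k + 1), Metric.ball (z i) e with hCdef
  have hCc : IsCompact C := by
    refine (isCompact_closedBall (0 : ℂ) r0).diff ?_
    exact isOpen_biUnion fun i _ => Metric.isOpen_ball
  have hCmem : ∀ w, w ∈ C ↔ ‖w‖ ≤ r0 ∧ ∀ i ≤ k, e ≤ ‖w - z i‖ := by
    intro w
    rw [hCdef, Set.mem_sdiff, mem_closedBall_zero_iff, mem_iUnion₂]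
    simp only [Finset.mem_range, Metric.mem_ball, dist_eq_norm, not_exists, not_lt,
      Nat.lt_succ_iff]
  have hC0 : ∀ w ∈ C, F q w ≠ 0 := by
    intro w hw h2
    rw [hCmem] at hw
    rcases le_or_gt ‖w‖ ‖z k‖ with h3 | h3
    · obtain ⟨i, hi, hi2⟩ := hz.complete w h2 h3
      have := hw.2 i hi
      rw [hi2, sub_self, norm_zero] at this
      linarith
    · exact hgap w h3 hw.1 h2
  obtain ⟨δ, hδ, hne⟩ := ne_near hq hCc hC0
  refine ⟨δ, hδ, fun q' hq' hqq => ?_⟩
  have hsph : ∀ i ≤ k, ∀ u : ℂ, ‖u‖ = e → z i + u ∈ C := by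
    intro i hi u hu
    rw [hCmem]
    constructor
    · refine (norm_add_le _ _).trans ?_
      rw [hu]
      have := hz.le hi le_rfl
      linarith
    · intro j hj
      by_cases hij : i = j
      · rw [← hij, add_sub_cancel_left, hu]
      · have h2 := hdist i j hi hj hij
        have h3 : ‖z i - z j‖ ≤ ‖z i + u - z j‖ + ‖u‖ := by
          have : z i - z j = (z i + u - z j) - u := by ring
          rw [this]
          exact norm_sub_le _ _
        linarith
  have hfac : ∀ i ≤ k, Fac univ (fun u => F q' (z i + u)) e 1 := by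
    intro i hi
    refine fac_stable hq hq' he (fac_one he (hFd.comp (by fun_prop)) ?_ ?_ ?_) ?_
    · simpa using hz.zero i hi
    · have h2 : HasDerivAt (fun u => F q (z i + u)) (F q (q * (z i + 0)) * 1) 0 := by
        have h3 := (hasDerivAt_F hq (z i + 0)).comp (0 : ℂ)
          ((hasDerivAt_id (0 : ℂ)).const_add (z i))
        exact h3
      rw [h2.deriv, add_zero, mul_one]
      exact hz.simple i hi
    · intro w hw h2
      -- `z i + w` is a zero in the closed disc of radius `e`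
      have h3 : ‖z i + w‖ ≤ r0 := by
        refine (norm_add_le _ _).trans ?_
        have := hz.le hi le_rfl
        linarith
      have h4 : ‖z i + w‖ ≤ ‖z k‖ := by
        by_contra h5
        exact hgap _ (not_le.1 h5) h3 h2
      obtain ⟨j, hj, hj2⟩ := hz.complete _ h2 h4
      by_cases hij : i = j
      · rw [← hij] at hj2
        linear_combination hj2
      · exfalso
        have h5 := hdist i j hi hj hij
        have h6 : z i - z j = -w := by linear_combination hj2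
        rw [h6, norm_neg] at h5
        linarith
    · intro s hs u hu
      refine hne _ (norm_segment hq hq' hs) ?_ _ (hsph i hi u hu)
      have : q + s * (q' - q) - q = s * (q' - q) := by ring
      rw [this, norm_mul, Complex.norm_real, Real.norm_of_nonneg hs.1]
      have := mul_le_mul_of_nonneg_right hs.2 (norm_nonneg (q' - q))
      linarith
  have hex : ∀ i, ∃ a, i ≤ k → ‖a‖ < e ∧ F q' (z i + a) = 0 ∧ F q' (q' * (z i + a)) ≠ 0 ∧
      ∀ w, ‖w‖ ≤ e → F q' (z i + w) = 0 → w = a := by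
    intro i
    by_cases hi : i ≤ k
    · obtain ⟨a, ha, ha0, ha1, ha2⟩ := (hfac i hi).one
      refine ⟨a, fun _ => ⟨ha, ha0, ?_, ha2⟩⟩
      have h2 : HasDerivAt (fun u => F q' (z i + u)) (F q' (q' * (z i + a)) * 1) a :=
        (hasDerivAt_F hq' (z i + a)).comp a ((hasDerivAt_id a).const_add (z i))
      rw [h2.deriv, mul_one] at ha1
      exact ha1
    · exact ⟨0, fun h => absurd h hi⟩
  choose a ha using hex
  have hnorm : ∀ i ≤ k, |‖z i + a i‖ - ‖z i‖| < e := by
    intro i hi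
    have h2 := abs_norm_sub_norm_le (z i + a i) (z i)
    rw [add_sub_cancel_left] at h2
    exact h2.trans_lt (ha i hi).1
  refine ⟨fun i => z i + a i, ⟨fun i hi => (ha i hi).2.1, fun i hi => (ha i hi).2.2.1,
    fun i hi => ?_, fun w hw hwk => ?_⟩, fun i hi => ?_⟩
  · have h2 := hnorm i (by omega)
    have h3 := hnorm (i + 1) (by omega)
    have h4 := hgap3 i (i + 1) (by omega) (by omega)
    rw [abs_lt] at h2 h3
    linarith [h2.2, h3.1]
  · have h2 := hnorm k le_rfl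
    rw [abs_lt] at h2
    have h3 : ‖w‖ ≤ r0 := by
      have := h2.2
      linarith
    have h4 : w ∉ C := fun h5 => hne q' hq' hqq w h5 hw
    rw [hCmem] at h4
    push Not at h4
    obtain ⟨i, hi, hi2⟩ := h4 h3
    refine ⟨i, hi, ?_⟩
    have h5 := (ha i hi).2.2.2 (w - z i) hi2.le (by rw [add_sub_cancel]; exact hw)
    rw [← h5]
    ring
  · rw [add_sub_cancel_left]
    exact (ha i hi).1.trans heε

end SokalIn
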