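import Pool.Agent.Lib_MP_af4de1_in.Defs
import Pool.Agent.Lib_MP_af4de1_in.Local

/-!
# From the arc `q = e^(iα)`, `0 < α ≤ π`, and the interior to the frozen statement
-/

set_option autoImplicit false

open Complex Set Filter Topology SokalF

namespace SokalIn

theorem Dist.conj {q : ℂ} (h : Dist q) : Dist ((starRingEnd ℂ) q) := by
  have key : ∀ z, F ((starRingEnd ℂ) q) z = 0 → F q ((starRingEnd ℂ) z) = 0 := by
    intro z hz
    have h1 := F_conj q ((starRingEnd ℂ) z)
    rw [Complex.conj_conj, hz] at h1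
    exact (map_eq_zero (starRingEnd ℂ)).1 h1.symm
  refine ⟨fun z hz h0 => ?_, fun z w hz hw hn => ?_⟩
  · refine h.1 _ (key z hz) ?_
    have h1 := F_conj q (q * (starRingEnd ℂ) z)
    rw [map_mul, Complex.conj_conj, h0] at h1
    exact (map_eq_zero (starRingEnd ℂ)).1 h1.symm
  · have h1 := h.2 _ _ (key z hz) (key w hw) (by rwa [Complex.norm_conj, Complex.norm_conj])
    exact (starRingEnd ℂ).injective h1

/-- the circle from the upper arc -/
theorem circle_of_arc (h : ∀ α : ℝ, 0 < α → α ≤ Real.pi → Dist (cexp (α * I))) :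
    ∀ q : ℂ, ‖q‖ = 1 → q ≠ 1 → Dist q := by
  intro q hq h1
  have hq0 : q ≠ 0 := by
    rintro rfl
    simp at hq
  have hexp : cexp (q.arg * I) = q := by
    have := Complex.norm_mul_exp_arg_mul_I q
    rwa [hq, Complex.ofReal_one, one_mul] at this
  rcases lt_trichotomy q.arg 0 with h2 | h2 | h2
  · have h3 : Dist (cexp (((-q.arg : ℝ) : ℂ) * I)) :=
      h (-q.arg) (by linarith) (by linarith [Complex.neg_pi_lt_arg q])
    have h4 : (starRingEnd ℂ) (cexp (((-q.arg : ℝ) : ℂ) * I)) = q := by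
      rw [← Complex.exp_conj, map_mul, Complex.conj_ofReal, Complex.conj_I]
      have : (((-q.arg : ℝ) : ℂ) * -I) = q.arg * I := by push_cast; ring
      rw [this, hexp]
    have := h3.conj
    rwa [h4] at this
  · exfalso
    apply h1
    rw [← hexp, h2]
    simp
  · have := h q.arg h2 (Complex.arg_le_pi q)
    rwa [hexp] at this

/-- the frozen statement from the conclusion in terms of `F` -/
theorem frozen_of {q : ℂ} (hq : ‖q‖ ≤ 1) (h : ∀ z, F q z = 0 → F q (q * z) ≠ 0) (z : ℂ)
    (hz : (∑' k : ℕ, q ^ (k * (k - 1) / 2) * z ^ k / (Nat.factorial k : ℂ)) = 0) :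
    deriv (fun w : ℂ => ∑' k : ℕ, q ^ (k * (k - 1) / 2) * w ^ k / (Nat.factorial k : ℂ)) z ≠ 0 := by
  have h1 : deriv (F q) z = F q (q * z) := deriv_F hq z
  have h2 := h z hz
  rw [← h1] at h2
  exact h2

end SokalIn
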