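import Pool.Agent.Lib_MP_af4de1_in.Winding

/-!
# Good circles close to `|q| = 1`

From `First` on `|q| = 1`, `q ≠ 1`, and the corner `TIP k`, by compactness.
-/

set_option autoImplicit false

open Complex Set Filter Topology SokalF

namespace SokalIn

/-- first zeros with the gap needed for the winding numbers -/
def GoodQ (k : ℕ) (q : ℂ) : Prop :=
  ∃ z : ℕ → ℂ, First q k z ∧ ∀ i < k, ‖z i‖ < ‖q‖ * ‖z (i + 1)‖

theorem good_near {q : ℂ} (hq : ‖q‖ = 1) {k : ℕ} {z : ℕ → ℂ} (hz : First q k z) :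
    ∃ δ > 0, ∀ q' : ℂ, ‖q'‖ ≤ 1 → ‖q' - q‖ < δ → GoodQ k q' := by
  obtain ⟨ε, hε, h1⟩ := exists_pos_le (fun i => (‖z (i + 1)‖ - ‖z i‖) / 4) k
    (fun i hi => by have := hz.mono i hi; linarith)
  obtain ⟨δ, hδ, h2⟩ := stable hq.le hz hε
  have hzk : 0 < ‖z k‖ := hz.norm_pos le_rfl
  have hη : 0 < ε / (‖z k‖ + ε) := by positivity
  refine ⟨min δ (ε / (‖z k‖ + ε)), lt_min hδ hη, fun q' hq' hd => ?_⟩
  obtain ⟨z', hz', h3⟩ := h2 q' hq' (hd.trans_le (min_le_left _ _))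
  refine ⟨z', hz', fun i hi => ?_⟩
  have h4 := h1 i hi
  have h5 := h3 i hi.le
  have h6 := h3 (i + 1) hi
  have h7 : ‖z' i‖ ≤ ‖z i‖ + ε := by
    have := norm_sub_norm_le (z' i) (z i)
    linarith
  have h8 : ‖z (i + 1)‖ - ε ≤ ‖z' (i + 1)‖ := by
    have := norm_sub_norm_le (z (i + 1)) (z' (i + 1))
    rw [norm_sub_rev] at this
    linarith
  have h9 : ‖z' (i + 1)‖ ≤ ‖z k‖ + ε := by
    have h10 := norm_sub_norm_le (z' (i + 1)) (z (i + 1))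
    have h11 := hz.le (show i + 1 ≤ k from hi) le_rfl
    linarith
  have h10 : 1 - ‖q'‖ < ε / (‖z k‖ + ε) := by
    have h11 := norm_sub_norm_le q q'
    rw [hq, norm_sub_rev] at h11
    exact h11.trans_lt (hd.trans_le (min_le_right _ _))
  have h11 : (1 - ‖q'‖) * ‖z' (i + 1)‖ ≤ ε := by
    calc (1 - ‖q'‖) * ‖z' (i + 1)‖ ≤ (ε / (‖z k‖ + ε)) * (‖z k‖ + ε) := by
          gcongr
      _ = ε := by field_simp
  have h12 : ‖q'‖ * ‖z' (i + 1)‖ = ‖z' (i + 1)‖ - (1 - ‖q'‖) * ‖z' (i + 1)‖ := by ring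
  rw [h12]
  linarith

/-- near the unit circle everything is good -/
theorem good_annulus' {k : ℕ} (hfirst : ∀ q : ℂ, ‖q‖ = 1 → q ≠ 1 → ∃ z, First q k z)
    (hT : TIP k) : ∃ r < 1, ∀ q : ℂ, r < ‖q‖ → ‖q‖ < 1 → GoodQ k q := by
  by_contra hcon
  push Not at hcon
  have h1 : ∀ n : ℕ, ∃ q : ℂ, 1 - 1 / ((n : ℝ) + 1) < ‖q‖ ∧ ‖q‖ < 1 ∧ ¬ GoodQ k q := by
    intro n
    have h2 : (1 : ℝ) - 1 / ((n : ℝ) + 1) < 1 := by
      have : (0 : ℝ) < 1 / ((n : ℝ) + 1) := by positivity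
      linarith
    obtain ⟨q, hq1, hq2, hq3⟩ := hcon _ h2
    exact ⟨q, hq1, hq2, hq3⟩
  choose q hq1 hq2 hq3 using h1
  obtain ⟨q0, -, φ, hφ, hlim⟩ := tendsto_subseq_of_bounded (x := q)
    (Metric.isBounded_closedBall (x := (0 : ℂ)) (r := 1))
    (fun n => mem_closedBall_zero_iff.2 (hq2 n).le)
  have hq0 : ‖q0‖ = 1 := by
    have h2 : Tendsto (fun n => ‖q (φ n)‖) atTop (𝓝 ‖q0‖) := hlim.norm
    have h3 : Tendsto (fun n : ℕ => (1 : ℝ) - 1 / (((φ n : ℕ) : ℝ) + 1)) atTop (𝓝 1) := by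
      have h4 : Tendsto (fun n : ℕ => (1 : ℝ) - 1 / ((n : ℝ) + 1)) atTop (𝓝 1) := by
        have := (tendsto_one_div_add_atTop_nhds_zero_nat (𝕜 := ℝ)).const_sub 1
        simpa using this
      exact h4.comp hφ.tendsto_atTop
    exact tendsto_nhds_unique h2 (tendsto_of_tendsto_of_tendsto_of_le_of_le h3
      tendsto_const_nhds (fun n => (hq1 (φ n)).le) fun n => (hq2 (φ n)).le)
  have key : ∃ δ > 0, ∀ q' : ℂ, ‖q'‖ < 1 → ‖q' - q0‖ < δ → GoodQ k q' := by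
    by_cases h1 : q0 = 1
    · obtain ⟨ε, hε, h2⟩ := hT
      refine ⟨ε, hε, fun q' hq' hd => ?_⟩
      rw [h1] at hd
      refine h2 q' hq'.le ?_ hd
      rintro rfl
      rw [norm_one] at hq'
      exact lt_irrefl _ hq'
    · obtain ⟨z, hz⟩ := hfirst q0 hq0 h1
      obtain ⟨δ, hδ, h2⟩ := good_near hq0 hz
      exact ⟨δ, hδ, fun q' hq' hd => h2 q' hq'.le hd⟩
  obtain ⟨δ, hδ, h2⟩ := key
  have h3 : ∀ᶠ n in atTop, ‖q (φ n) - q0‖ < δ := by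
    have := (tendsto_iff_norm_sub_tendsto_zero.1 hlim).eventually_lt_const hδ
    exact this
  obtain ⟨n, hn⟩ := h3.exists
  exact hq3 (φ n) (h2 _ (hq2 _) hn)

/-- The good circles, fixed `k`. -/
theorem exists_circ' {k : ℕ} (hfirst : ∀ q : ℂ, ‖q‖ = 1 → q ≠ 1 → ∃ z, First q k z)
    (hT : TIP k) {r : ℝ} (hr : r < 1) : ∃ ρ, r < ρ ∧ 0 < ρ ∧ ρ < 1 ∧ ∃ z, Circ ρ k z := by
  obtain ⟨r', hr', h⟩ := good_annulus' hfirst hT
  obtain ⟨ρ, hρ1, hρ2⟩ := exists_between (show max (max r r') 0 < 1 by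
    refine max_lt (max_lt hr hr') one_pos)
  have h1 : r < ρ := (le_max_left _ _).trans_lt ((le_max_left _ _).trans_lt hρ1)
  have h2 : r' < ρ := (le_max_right _ _).trans_lt ((le_max_left _ _).trans_lt hρ1)
  have h3 : 0 < ρ := (le_max_right _ _).trans_lt hρ1
  have h4 : ∀ θ, GoodQ k (qq ρ θ 1) := fun θ => h _ (by rw [norm_qq h3]; exact h2)
    (by rw [norm_qq h3]; exact hρ2)
  choose z hz hgap using h4
  refine ⟨ρ, h1, h3, hρ2, z, ⟨hz, fun θ i hi => ?_⟩⟩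
  have := hgap θ i hi
  rwa [norm_qq h3] at this

/-- The good circles. -/
theorem exists_circ (hfirst : ∀ q : ℂ, ‖q‖ = 1 → q ≠ 1 → ∀ k, ∃ z, First q k z) {k : ℕ}
    (hT : TIP k) {r : ℝ} (hr : r < 1) : ∃ ρ, r < ρ ∧ 0 < ρ ∧ ρ < 1 ∧ ∃ z, Circ ρ k z :=
  exists_circ' (fun q hq h1 => hfirst q hq h1 k) hT hr

section

variable {ρ : ℝ} {k : ℕ} {z : ℝ → ℕ → ℂ}

theorem Circ.continuous (hC : Circ ρ k z) (hρ : 0 < ρ) (hρ1 : ρ ≤ 1) :
    ∀ i ≤ k, Continuous fun θ => z θ i := by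
  intro i hi
  rw [continuous_iff_continuousAt]
  intro θ0
  rw [Metric.continuousAt_iff']
  intro ε hε
  obtain ⟨δ, hδ, h⟩ := stable ((norm_qq hρ θ0).le.trans hρ1) (hC.first θ0) hε
  have h1 : ∀ᶠ θ in 𝓝 θ0, ‖qq ρ θ 1 - qq ρ θ0 1‖ < δ := by
    have h2 := (continuous_qq ρ).continuousAt (x := θ0)
    rw [Metric.continuousAt_iff'] at h2
    filter_upwards [h2 δ hδ] with θ hθ
    rwa [dist_eq_norm] at hθ
  filter_upwards [h1] with θ hθ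
  obtain ⟨z', hz', h3⟩ := h (qq ρ θ 1) ((norm_qq hρ θ).le.trans hρ1) hθ
  rw [first_unique (hC.first θ) hz' i hi, dist_eq_norm]
  exact h3 i hi

theorem Circ.period (hC : Circ ρ k z) : ∀ i ≤ k, ∀ θ, z (θ + 2 * Real.pi) i = z θ i := by
  intro i hi θ
  have h1 := hC.first (θ + 2 * Real.pi)
  rw [qq_period] at h1
  exact first_unique h1 (hC.first θ) i hi

end

/-- Everything that is needed on one good circle, fixed `k`. -/
theorem exists_circ_w0' {k : ℕ} (hfirst : ∀ q : ℂ, ‖q‖ = 1 → q ≠ 1 → ∃ z, First q k z)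
    (hT : TIP k) {r : ℝ} (hr : r < 1) : ∃ ρ, r < ρ ∧ 0 < ρ ∧ ρ < 1 ∧ ∃ z : ℝ → ℕ → ℂ,
      (∀ θ, First (qq ρ θ 1) k (z θ)) ∧ (∀ i ≤ k, Continuous fun θ => z θ i) ∧
      (∀ i ≤ k, ∀ θ, z (θ + 2 * Real.pi) i = z θ i) ∧
      ∀ i ≤ k, W0 fun θ => -z θ i * (qq ρ θ 1) ^ i := by
  obtain ⟨ρ, h1, h2, h3, z, hC⟩ := exists_circ' hfirst hT hr
  have hc := hC.continuous h2 h3.le
  have hp := hC.period
  exact ⟨ρ, h1, h2, h3, z, hC.first, hc, hp, fun i hi => w0_zero h2 h3 hC hc hp hi⟩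

/-- Everything that is needed on one good circle. -/
theorem exists_circ_w0 (hfirst : ∀ q : ℂ, ‖q‖ = 1 → q ≠ 1 → ∀ k, ∃ z, First q k z) {k : ℕ}
    (hT : TIP k) {r : ℝ} (hr : r < 1) : ∃ ρ, r < ρ ∧ 0 < ρ ∧ ρ < 1 ∧ ∃ z : ℝ → ℕ → ℂ,
      (∀ θ, First (qq ρ θ 1) k (z θ)) ∧ (∀ i ≤ k, Continuous fun θ => z θ i) ∧
      (∀ i ≤ k, ∀ θ, z (θ + 2 * Real.pi) i = z θ i) ∧
      ∀ i ≤ k, W0 fun θ => -z θ i * (qq ρ θ 1) ^ i :=
  exists_circ_w0' (fun q hq h1 => hfirst q hq h1 k) hT hr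

end SokalIn
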