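import Mathlib

/-!
# Winding numbers, argument principle, real parts of polynomials on a circle

General lemmas for the interior step.

* `exists_log`, `exists_log2`: continuous logarithm of a continuous nonvanishing function on `ℝ`, `ℝ × ℝ`.
* `period_log`: if `g` has period `T`, the logarithm changes by a fixed multiple of `2πi`.
* `circle_log`: `∮ f'/f` is the change of the logarithm.
* `count`: argument principle on `‖q‖ ≤ ρ`.
* `no_zero`: no zeros inside if the winding number is `0`.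
* `poly_between`: a polynomial with `a < Re P < b` on `‖q‖ = ρ`.
-/

set_option autoImplicit false

namespace SokalIn

open Complex Real Filter Topology

/-- a continuous function with values in the integers is constant -/
theorem const_of_int {X : Type*} [TopologicalSpace X] [PreconnectedSpace X] {f : X → ℂ}
    (hf : Continuous f) (h : ∀ x, ∃ n : ℤ, f x = n) (x y : X) : f x = f y := by
  have hl : IsLocallyConstant f := by
    rw [IsLocallyConstant.iff_eventually_eq]
    intro x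
    have h1 : ∀ᶠ y in 𝓝 x, dist (f y) (f x) < 1 :=
      hf.continuousAt.eventually (Metric.ball_mem_nhds _ one_pos)
    filter_upwards [h1] with y hy
    obtain ⟨n, hn⟩ := h x
    obtain ⟨m, hm⟩ := h y
    rw [hn, hm, Complex.dist_eq] at hy
    have h2 : ‖((m - n : ℤ) : ℂ)‖ < 1 := by
      push_cast
      exact hy
    rw [Complex.norm_intCast] at h2
    have h3 : |m - n| < 1 := by exact_mod_cast h2
    have h4 : m = n := by
      have := Int.abs_lt_one_iff.1 h3
      omega
    rw [hn, hm, h4]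
  exact hl.apply_eq_of_preconnectedSpace x y

theorem exists_log {g : ℝ → ℂ} (hg : Continuous g) (h0 : ∀ x, g x ≠ 0) :
    ∃ l : ℝ → ℂ, Continuous l ∧ ∀ x, cexp (l x) = g x := by
  have hs : IsSimplyConnected (Set.univ : Set ℝ) := by
    have := (convex_univ (𝕜 := ℝ) (E := ℝ)).contractibleSpace ⟨0, Set.mem_univ 0⟩
    exact (inferInstance : SimplyConnectedSpace (Set.univ : Set ℝ))
  obtain ⟨l, hl, he⟩ := Complex.exists_continuousOn_eqOn_exp_comp hs isOpen_univ hg.continuousOn
    (by rintro ⟨x, -, hx⟩; exact h0 x hx)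
  exact ⟨l, continuousOn_univ.1 hl, fun x => he (Set.mem_univ x)⟩

theorem exists_log2 {g : ℝ × ℝ → ℂ} (hg : Continuous g) (h0 : ∀ x, g x ≠ 0) :
    ∃ l : ℝ × ℝ → ℂ, Continuous l ∧ ∀ x, cexp (l x) = g x := by
  have hs : IsSimplyConnected (Set.univ : Set (ℝ × ℝ)) := by
    have := (convex_univ (𝕜 := ℝ) (E := ℝ × ℝ)).contractibleSpace ⟨0, Set.mem_univ 0⟩
    exact (inferInstance : SimplyConnectedSpace (Set.univ : Set (ℝ × ℝ)))
  obtain ⟨l, hl, he⟩ := Complex.exists_continuousOn_eqOn_exp_comp hs isOpen_univ hg.continuousOn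
    (by rintro ⟨x, -, hx⟩; exact h0 x hx)
  exact ⟨l, continuousOn_univ.1 hl, fun x => he (Set.mem_univ x)⟩

/-- two logarithms with the same exponential differ by a constant -/
theorem log_sub_const {X : Type*} [TopologicalSpace X] [PreconnectedSpace X] {l m : X → ℂ}
    (hl : Continuous l) (hm : Continuous m) {c : ℂ} (h : ∀ x, cexp (l x) = c * cexp (m x))
    (x y : X) : l x - m x = l y - m y := by
  have h1 : ∀ x, cexp (l x - m x) = c := fun x => by
    rw [Complex.exp_sub, h, mul_div_assoc, div_self (Complex.exp_ne_zero _), mul_one]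
  have h2 : ∀ x, ∃ n : ℤ, (l x - m x - (l y - m y)) / (2 * π * I) = n := by
    intro x
    have h3 : cexp (l x - m x - (l y - m y)) = 1 := by
      rw [Complex.exp_sub, h1, h1, div_self]
      rw [← h1 y]
      exact Complex.exp_ne_zero _
    obtain ⟨n, hn⟩ := Complex.exp_eq_one_iff.1 h3
    refine ⟨n, ?_⟩
    rw [hn, mul_div_assoc, div_self Complex.two_pi_I_ne_zero, mul_one]
  have h4 := const_of_int (f := fun x => (l x - m x - (l y - m y)) / (2 * π * I))
    (by fun_prop) h2 x y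
  simp only [sub_self, zero_div] at h4
  rw [div_eq_zero_iff] at h4
  rcases h4 with h4 | h4
  · exact sub_eq_zero.1 h4
  · exact absurd h4 Complex.two_pi_I_ne_zero

theorem period_log {l g : ℝ → ℂ} (hl : Continuous l) (he : ∀ x, cexp (l x) = g x) {T : ℝ}
    (hg : ∀ x, g (x + T) = g x) : ∃ n : ℤ, ∀ x, l (x + T) = l x + n * (2 * π * I) := by
  have h1 : cexp (l (0 + T)) = cexp (l 0) := by rw [he, he, hg]
  obtain ⟨n, hn⟩ := Complex.exp_eq_exp_iff_exists_int.1 h1
  refine ⟨n, fun x => ?_⟩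
  have h2 := log_sub_const (l := fun x => l (x + T)) (m := l) (by fun_prop) hl (c := 1)
    (fun x => by rw [he, he, hg, one_mul]) x 0
  rw [hn] at h2
  linear_combination h2


/-- the integral of `f'/f` over a circle is the change of the logarithm -/
theorem circle_log {ρ : ℝ} (hρ : 0 < ρ) {f : ℂ → ℂ}
    (hf : ∀ q, ‖q‖ = ρ → AnalyticAt ℂ f q) (hne : ∀ q, ‖q‖ = ρ → f q ≠ 0) {l : ℝ → ℂ}
    (hl : Continuous l) (he : ∀ θ, cexp (l θ) = f (circleMap 0 ρ θ)) :
    (∮ q in C(0, ρ), deriv f q / f q) = l (2 * π) - l 0 := by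
  have hn : ∀ θ, ‖circleMap 0 ρ θ‖ = ρ := fun θ => by
    rw [norm_circleMap_zero, abs_of_pos hρ]
  set F : ℝ → ℂ := fun θ => deriv (circleMap 0 ρ) θ • (deriv f (circleMap 0 ρ θ) /
    f (circleMap 0 ρ θ)) with hF
  have hFc : Continuous F := by
    rw [continuous_iff_continuousAt]
    intro θ
    have h1 : ContinuousAt (circleMap 0 ρ) θ := (continuous_circleMap 0 ρ).continuousAt
    have h2 : ContinuousAt (fun θ => deriv f (circleMap 0 ρ θ)) θ :=
      ContinuousAt.comp (g := deriv f) (hf _ (hn θ)).deriv.continuousAt h1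
    have h3 : ContinuousAt (fun θ => f (circleMap 0 ρ θ)) θ :=
      ContinuousAt.comp (g := f) (hf _ (hn θ)).continuousAt h1
    have h4 : ContinuousAt (fun θ => deriv (circleMap 0 ρ) θ) θ := by
      have : (fun θ => deriv (circleMap 0 ρ) θ) = fun θ => circleMap 0 ρ θ * I := by
        funext t
        rw [deriv_circleMap]
      rw [this]
      exact h1.mul continuousAt_const
    exact h4.smul (h2.div h3 (hne _ (hn θ)))
  set G : ℝ → ℂ := fun θ => ∫ s in (0 : ℝ)..θ, F s with hG
  have hGd : ∀ θ, HasDerivAt G (F θ) θ := fun θ =>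
    intervalIntegral.integral_hasDerivAt_right (hFc.intervalIntegrable _ _)
      (hFc.stronglyMeasurableAtFilter _ _) hFc.continuousAt
  have hGc : Continuous G := continuous_iff_continuousAt.2 fun θ => (hGd θ).continuousAt
  -- `f e^{-G}` is constant
  set H : ℝ → ℂ := fun θ => f (circleMap 0 ρ θ) * cexp (-G θ) with hH
  have hHd : ∀ θ, HasDerivAt H 0 θ := by
    intro θ
    have h1 : HasDerivAt (circleMap 0 ρ) (deriv (circleMap 0 ρ) θ) θ :=
      (differentiable_circleMap 0 ρ θ).hasDerivAt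
    have h2 : HasDerivAt f (deriv f (circleMap 0 ρ θ)) (circleMap 0 ρ θ) :=
      (hf _ (hn θ)).differentiableAt.hasDerivAt
    have h3 := HasDerivAt.comp θ h2 h1
    have h4 : HasDerivAt (fun θ => cexp (-G θ)) (cexp (-G θ) * (-F θ)) θ := (hGd θ).neg.cexp
    have h5 := h3.mul h4
    have h6 : deriv f (circleMap 0 ρ θ) * deriv (circleMap 0 ρ) θ * cexp (-G θ) +
        (f ∘ circleMap 0 ρ) θ * (cexp (-G θ) * -F θ) = 0 := by
      have h7 := hne _ (hn θ)
      simp only [hF, Function.comp, smul_eq_mul]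
      field_simp
      ring
    rw [h6] at h5
    exact h5
  have hHc : ∀ θ, H θ = H 0 := fun θ =>
    is_const_of_deriv_eq_zero (fun x => (hHd x).differentiableAt) (fun x => (hHd x).deriv) θ 0
  have hG0 : G 0 = 0 := by simp [hG]
  have h8 := log_sub_const (l := l) (m := G) hl hGc (c := H 0) (fun θ => by
    rw [he, ← hHc θ]
    simp only [hH]
    rw [mul_assoc, ← Complex.exp_add, neg_add_cancel, Complex.exp_zero, mul_one]) (2 * π) 0
  rw [hG0, sub_zero] at h8
  have h9 : (∮ q in C(0, ρ), deriv f q / f q) = G (2 * π) := rfl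
  rw [h9]
  linear_combination -h8

private theorem circle_inv_in {a : ℂ} {R : ℝ} (h : ‖a‖ < R) :
    (∮ z in C(0, R), (z - a)⁻¹) = 2 * π * I := by
  refine circleIntegral.integral_sub_inv_of_mem_ball ?_
  rw [Metric.mem_ball, dist_zero_right]
  exact h

private theorem an_of {r : ℝ} {f : ℂ → ℂ} (hf : DifferentiableOn ℂ f (Metric.ball 0 r)) {q : ℂ}
    (hq : ‖q‖ < r) : AnalyticAt ℂ f q :=
  hf.analyticAt (Metric.isOpen_ball.mem_nhds (by rwa [mem_ball_zero_iff]))

private theorem split {r R : ℝ} (hR : 0 < R) (hRr : R < r) {G H : ℂ → ℂ}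
    (hH : DifferentiableOn ℂ H (Metric.ball 0 r)) {a : ℂ}
    (hGH : ∀ z, G z = (z - a) * H z) (hne : ∀ u : ℂ, ‖u‖ = R → G u ≠ 0) :
    (∮ z in C(0, R), deriv G z / G z) =
      (∮ z in C(0, R), (z - a)⁻¹) + ∮ z in C(0, R), deriv H z / H z := by
  have h1 : ∀ u : ℂ, ‖u‖ = R → u - a ≠ 0 := fun u hu h => hne u hu (by rw [hGH, h, zero_mul])
  have h2 : ∀ u : ℂ, ‖u‖ = R → H u ≠ 0 := fun u hu h => hne u hu (by rw [hGH, h, mul_zero])
  have hsph : ∀ u ∈ Metric.sphere (0 : ℂ) R, ‖u‖ = R := fun u hu => by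
    rwa [mem_sphere_zero_iff_norm] at hu
  have han : ∀ u : ℂ, ‖u‖ = R → AnalyticAt ℂ H u := fun u hu => an_of hH (by rw [hu]; exact hRr)
  rw [← circleIntegral.integral_add]
  · refine circleIntegral.integral_congr hR.le fun z hz => ?_
    have hz' := hsph z hz
    have hG : deriv G z = H z + (z - a) * deriv H z := by
      have h3 : HasDerivAt (fun z => (z - a) * H z) (1 * H z + (z - a) * deriv H z) z :=
        ((hasDerivAt_id z).sub_const a).mul (han z hz').differentiableAt.hasDerivAt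
      have h4 : G = fun z => (z - a) * H z := funext hGH
      rw [h4, h3.deriv, one_mul]
    have e1 := h1 z hz'
    have e2 := h2 z hz'
    simp only [hG, hGH]
    field_simp
  · refine ContinuousOn.circleIntegrable hR.le ?_
    exact ContinuousOn.inv₀ (by fun_prop) fun z hz => h1 z (hsph z hz)
  · refine ContinuousOn.circleIntegrable hR.le ?_
    intro z hz
    have hz' := hsph z hz
    exact ((han z hz').deriv.continuousAt.div (han z hz').continuousAt (h2 z hz')).continuousWithinAt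

private theorem zero_case {r R : ℝ} (hR : 0 ≤ R) (hRr : R < r) {G : ℂ → ℂ}
    (hG : DifferentiableOn ℂ G (Metric.ball 0 r)) (hne : ∀ u : ℂ, ‖u‖ ≤ R → G u ≠ 0) :
    (∮ z in C(0, R), deriv G z / G z) = 0 := by
  have han : ∀ u : ℂ, ‖u‖ ≤ R → AnalyticAt ℂ G u := fun u hu => an_of hG (hu.trans_lt hRr)
  refine Complex.circleIntegral_eq_zero_of_differentiable_on_off_countable hR Set.countable_empty
    ?_ ?_
  · intro z hz
    have hz' := mem_closedBall_zero_iff.1 hz
    exact ((han z hz').deriv.continuousAt.div (han z hz').continuousAt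
      (hne z hz')).continuousWithinAt
  · intro z hz
    have hz' := mem_closedBall_zero_iff.1 (Metric.ball_subset_closedBall hz.1)
    exact (han z hz').deriv.differentiableAt.div (han z hz').differentiableAt (hne z hz')

/-- Total multiplicity of the zeros in a finite set. -/
noncomputable def tot (G : ℂ → ℂ) (Z : Finset ℂ) : ℕ := ∑ a ∈ Z, analyticOrderNatAt G a

private theorem order_ne_top {r R : ℝ} (hR : 0 < R) (hRr : R < r) {G : ℂ → ℂ}
    (hG : DifferentiableOn ℂ G (Metric.ball 0 r)) (hne : ∀ u : ℂ, ‖u‖ = R → G u ≠ 0) {a : ℂ}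
    (ha : ‖a‖ < r) : analyticOrderAt G a ≠ ⊤ := by
  intro h
  rw [analyticOrderAt_eq_top] at h
  have h1 : Set.EqOn G 0 (Metric.ball 0 r) :=
    AnalyticOnNhd.eqOn_zero_of_preconnected_of_eventuallyEq_zero
      (fun z hz => an_of hG (mem_ball_zero_iff.1 hz)) (convex_ball 0 r).isPreconnected
      (mem_ball_zero_iff.2 ha) h
  have h2 : ‖(R : ℂ)‖ = R := by rw [Complex.norm_real, Real.norm_eq_abs, abs_of_pos hR]
  exact hne R h2 (h1 (mem_ball_zero_iff.2 (by rw [h2]; exact hRr)))

private theorem count_aux {r ρ : ℝ} (hρ : 0 < ρ) (hρr : ρ < r) (Z : Finset ℂ)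
    (hZr : ∀ u ∈ Z, ‖u‖ ≤ ρ) (n : ℕ) :
    ∀ G : ℂ → ℂ, DifferentiableOn ℂ G (Metric.ball 0 r) → (∀ u : ℂ, ‖u‖ = ρ → G u ≠ 0) →
    (∀ u : ℂ, ‖u‖ ≤ ρ → G u = 0 → u ∈ Z) → tot G Z = n →
    (∮ z in C(0, ρ), deriv G z / G z) = n * (2 * π * I) := by
  induction n with
  | zero =>
    intro G hG h1 hZ htot
    have hno : ∀ u : ℂ, ‖u‖ ≤ ρ → G u ≠ 0 := by
      intro u hu h
      have h3 := hZ u hu h
      have h4 : analyticOrderNatAt G u = 0 := by
        unfold tot at htot
        exact (Finset.sum_eq_zero_iff.1 htot) u h3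
      have hur : ‖u‖ < r := hu.trans_lt hρr
      have h5 : analyticOrderAt G u ≠ 0 := analyticOrderAt_ne_zero.2 ⟨an_of hG hur, h⟩
      have h6 := order_ne_top hρ hρr hG h1 hur
      unfold analyticOrderNatAt at h4
      rw [ENat.toNat_eq_zero] at h4
      rcases h4 with h4 | h4
      · exact h5 h4
      · exact h6 h4
    rw [zero_case hρ.le hρr hG hno]
    simp
  | succ n ih =>
    intro G hG h1 hZ htot
    -- a zero in the disc
    have hex : ∃ a ∈ Z, analyticOrderNatAt G a ≠ 0 := by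
      by_contra hcon
      push Not at hcon
      have : tot G Z = 0 := by
        unfold tot
        exact Finset.sum_eq_zero hcon
      omega
    obtain ⟨a, haZ, ha0⟩ := hex
    have ha := hZr a haZ
    have har : ‖a‖ < r := ha.trans_lt hρr
    have hGa : G a = 0 := by
      by_contra hGa
      apply ha0
      unfold analyticOrderNatAt
      rw [(an_of hG har).analyticOrderAt_eq_zero.2 hGa]
      rfl
    have hGH : ∀ z, G z = (z - a) * dslope G a z := by
      intro z
      have := sub_smul_dslope G a z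
      rw [hGa, sub_zero, smul_eq_mul] at this
      exact this.symm
    have hball : Metric.ball (0 : ℂ) r ∈ 𝓝 a :=
      Metric.isOpen_ball.mem_nhds (by rwa [mem_ball_zero_iff])
    have hH : DifferentiableOn ℂ (dslope G a) (Metric.ball 0 r) :=
      (Complex.differentiableOn_dslope hball).2 hG
    have hne1 : ∀ u : ℂ, ‖u‖ = ρ → dslope G a u ≠ 0 := fun u hu h =>
      h1 u hu (by rw [hGH, h, mul_zero])
    have haρ : ‖a‖ < ρ := lt_of_le_of_ne ha fun h => h1 a h hGa
    have hmul : ∀ b, ‖b‖ < r → analyticOrderNatAt G b = analyticOrderNatAt (fun z => z - a) b +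
        analyticOrderNatAt (dslope G a) b := by
      intro b hb
      have h3 : G = (fun z => z - a) * dslope G a := funext hGH
      have h4 : AnalyticAt ℂ (fun z : ℂ => z - a) b := by fun_prop
      conv_lhs => rw [h3]
      refine analyticOrderNatAt_mul h4 (an_of hH hb) ?_ (order_ne_top hρ hρr hH hne1 hb)
      intro h
      rw [analyticOrderAt_eq_top] at h
      have h50 : AnalyticOnNhd ℂ (fun z : ℂ => z - a) Set.univ := fun z _ =>
        analyticAt_id.sub analyticAt_const
      have h5 : Set.EqOn (fun z : ℂ => z - a) 0 Set.univ :=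
        h50.eqOn_zero_of_preconnected_of_eventuallyEq_zero isPreconnected_univ (Set.mem_univ b) h
      have h6 := h5 (Set.mem_univ (a + 1))
      simp at h6
    have hone : analyticOrderNatAt (fun z => z - a) a = 1 := by
      have h3 : analyticOrderAt (fun z : ℂ => z - a) a = ((1 : ℕ) : ℕ∞) := by
        rw [AnalyticAt.analyticOrderAt_eq_natCast (by fun_prop)]
        refine ⟨fun _ => 1, analyticAt_const, one_ne_zero, Eventually.of_forall fun z => ?_⟩
        simp
      unfold analyticOrderNatAt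
      rw [h3]
      rfl
    have hzero : ∀ b, b ≠ a → analyticOrderNatAt (fun z => z - a) b = 0 := by
      intro b hb
      have h3 : analyticOrderAt (fun z : ℂ => z - a) b = 0 := by
        rw [analyticOrderAt_eq_zero]
        exact Or.inr (sub_ne_zero.2 hb)
      unfold analyticOrderNatAt
      rw [h3]
      rfl
    have htot' : tot (dslope G a) Z = n := by
      have h3 : tot G Z = 1 + tot (dslope G a) Z := by
        unfold tot
        rw [Finset.sum_congr rfl fun b hb => hmul b ((hZr b hb).trans_lt hρr),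
          Finset.sum_add_distrib]
        congr 1
        rw [Finset.sum_eq_single a (fun b _ hb => hzero b hb) (fun h => absurd haZ h), hone]
      omega
    have hih := ih (dslope G a) hH hne1
      (fun u hu h => hZ u hu (by rw [hGH, h, mul_zero])) htot'
    rw [split hρ hρr hH hGH h1, circle_inv_in haρ, hih]
    push_cast
    ring

theorem finite_zeros {r ρ : ℝ} (hρ : 0 < ρ) (hρr : ρ < r) {G : ℂ → ℂ}
    (hG : DifferentiableOn ℂ G (Metric.ball 0 r)) (hne : ∀ u : ℂ, ‖u‖ = ρ → G u ≠ 0) :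
    {u : ℂ | ‖u‖ ≤ ρ ∧ G u = 0}.Finite := by
  by_contra hinf
  have hinf' : {u : ℂ | ‖u‖ ≤ ρ ∧ G u = 0}.Infinite := hinf
  obtain ⟨x, hx, hacc⟩ := hinf'.exists_accPt_of_subset_isCompact (isCompact_closedBall (0 : ℂ) ρ)
    (fun u hu => mem_closedBall_zero_iff.2 hu.1)
  have hxr : ‖x‖ < r := (mem_closedBall_zero_iff.1 hx).trans_lt hρr
  have h1 : ∃ᶠ z in 𝓝[≠] x, G z = 0 := by
    rw [accPt_iff_frequently] at hacc
    rw [frequently_nhdsWithin_iff]
    exact hacc.mono fun z hz => ⟨hz.2.2, hz.1⟩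
  have h2 : ∀ᶠ z in 𝓝 x, G z = 0 := (an_of hG hxr).frequently_zero_iff_eventually_zero.1 h1
  exact order_ne_top hρ hρr hG hne hxr (analyticOrderAt_eq_top.2 h2)

/-- Argument principle. -/
theorem count {r ρ : ℝ} (hρ : 0 < ρ) (hρr : ρ < r) {G : ℂ → ℂ}
    (hG : DifferentiableOn ℂ G (Metric.ball 0 r)) (hne : ∀ u : ℂ, ‖u‖ = ρ → G u ≠ 0) :
    ∃ Z : Finset ℂ, (∀ u, u ∈ Z ↔ ‖u‖ ≤ ρ ∧ G u = 0) ∧
      (∀ u ∈ Z, 1 ≤ analyticOrderNatAt G u) ∧
      (∮ z in C(0, ρ), deriv G z / G z) = tot G Z * (2 * π * I) := by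
  refine ⟨(finite_zeros hρ hρr hG hne).toFinset, fun u => Set.Finite.mem_toFinset _, ?_, ?_⟩
  · intro u hu
    rw [Set.Finite.mem_toFinset] at hu
    have hur : ‖u‖ < r := hu.1.trans_lt hρr
    have h5 : analyticOrderAt G u ≠ 0 := analyticOrderAt_ne_zero.2 ⟨an_of hG hur, hu.2⟩
    have h6 := order_ne_top hρ hρr hG hne hur
    by_contra h4
    have h4' : analyticOrderNatAt G u = 0 := by omega
    unfold analyticOrderNatAt at h4'
    rw [ENat.toNat_eq_zero] at h4'
    rcases h4' with h4' | h4'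
    · exact h5 h4'
    · exact h6 h4'
  · refine count_aux hρ hρr _ (fun u hu => ?_) _ G hG hne (fun u hu h => ?_) rfl
    · rw [Set.Finite.mem_toFinset] at hu
      exact hu.1
    · rw [Set.Finite.mem_toFinset]
      exact ⟨hu, h⟩

theorem no_zero {r ρ : ℝ} (hρ : 0 < ρ) (hρr : ρ < r) {G : ℂ → ℂ}
    (hG : DifferentiableOn ℂ G (Metric.ball 0 r)) (hne : ∀ u : ℂ, ‖u‖ = ρ → G u ≠ 0)
    {l : ℝ → ℂ} (hl : Continuous l) (he : ∀ θ, cexp (l θ) = G (circleMap 0 ρ θ))
    (h0 : l (2 * π) = l 0) : ∀ u : ℂ, ‖u‖ ≤ ρ → G u ≠ 0 := by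
  intro u hu hGu
  obtain ⟨Z, hZ, h1, hint⟩ := count hρ hρr hG hne
  rw [circle_log hρ (fun q hq => an_of hG (by rw [hq]; exact hρr)) hne hl he, h0, sub_self] at hint
  have h2 : (tot G Z : ℂ) = 0 := by
    rcases mul_eq_zero.1 hint.symm with h | h
    · exact h
    · exact absurd h Complex.two_pi_I_ne_zero
  have h3 : tot G Z = 0 := by exact_mod_cast h2
  have h4 := (Finset.sum_eq_zero_iff.1 h3) u ((hZ u).2 ⟨hu, hGu⟩)
  have h5 := h1 u ((hZ u).2 ⟨hu, hGu⟩)
  omega

/-- trigonometric polynomials are `P + conj Q` with polynomials `P, Q` on the circle -/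
private theorem span_repr {ρ : ℝ} (hρ : 0 < ρ) {f : C(AddCircle (2 * π), ℂ)}
    (hf : f ∈ Submodule.span ℂ (Set.range (@fourier (2 * π)))) :
    ∃ P Q : Polynomial ℂ, ∀ θ : ℝ, f (θ : AddCircle (2 * π)) =
      P.eval (circleMap 0 ρ θ) + (starRingEnd ℂ) (Q.eval (circleMap 0 ρ θ)) := by
  have hρ0 : (ρ : ℂ) ≠ 0 := by exact_mod_cast hρ.ne'
  have hexp : ∀ (n : ℤ) (θ : ℝ), fourier n (θ : AddCircle (2 * π)) = cexp (n * θ * I) := by
    intro n θ
    rw [fourier_coe_apply]
    congr 1
    push_cast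
    have : (π : ℂ) ≠ 0 := by exact_mod_cast Real.pi_ne_zero
    field_simp
  refine Submodule.span_induction (p := fun f _ => ∃ P Q : Polynomial ℂ, ∀ θ : ℝ,
    f (θ : AddCircle (2 * π)) = P.eval (circleMap 0 ρ θ) +
      (starRingEnd ℂ) (Q.eval (circleMap 0 ρ θ))) ?_ ?_ ?_ ?_ hf
  · rintro _ ⟨n, rfl⟩
    rcases le_total 0 n with hn | hn
    · obtain ⟨k, rfl⟩ := Int.eq_ofNat_of_zero_le hn
      refine ⟨Polynomial.C ((ρ : ℂ)⁻¹ ^ k) * Polynomial.X ^ k, 0, fun θ => ?_⟩
      rw [hexp]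
      simp only [Polynomial.eval_mul, Polynomial.eval_C, Polynomial.eval_pow, Polynomial.eval_X,
        Polynomial.eval_zero, map_zero, add_zero, circleMap, zero_add]
      rw [mul_pow, ← mul_assoc, ← mul_pow, inv_mul_cancel₀ hρ0, one_pow, one_mul,
        ← Complex.exp_nat_mul]
      congr 1
      push_cast
      ring
    · obtain ⟨k, hk⟩ := Int.eq_ofNat_of_zero_le (neg_nonneg.2 hn)
      have hk' : n = -(k : ℤ) := by omega
      subst hk'
      refine ⟨0, Polynomial.C ((ρ : ℂ)⁻¹ ^ k) * Polynomial.X ^ k, fun θ => ?_⟩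
      rw [hexp]
      simp only [Polynomial.eval_mul, Polynomial.eval_C, Polynomial.eval_pow, Polynomial.eval_X,
        Polynomial.eval_zero, zero_add, circleMap]
      rw [mul_pow, ← mul_assoc, ← mul_pow, inv_mul_cancel₀ hρ0, one_pow, one_mul,
        ← Complex.exp_nat_mul, ← Complex.exp_conj]
      congr 1
      simp
      ring
  · exact ⟨0, 0, fun θ => by simp⟩
  · rintro f g - - ⟨P, Q, h⟩ ⟨P', Q', h'⟩
    refine ⟨P + P', Q + Q', fun θ => ?_⟩
    rw [ContinuousMap.add_apply, h, h', Polynomial.eval_add, Polynomial.eval_add, map_add]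
    ring
  · rintro c f - ⟨P, Q, h⟩
    refine ⟨Polynomial.C c * P, Polynomial.C ((starRingEnd ℂ) c) * Q, fun θ => ?_⟩
    rw [ContinuousMap.smul_apply, h, Polynomial.eval_mul, Polynomial.eval_mul, Polynomial.eval_C,
      Polynomial.eval_C, map_mul, Complex.conj_conj, smul_eq_mul]
    ring

theorem poly_approx {ρ : ℝ} (hρ : 0 < ρ) {u : ℂ → ℝ}
    (hu : ContinuousOn u (Metric.sphere 0 ρ)) {ε : ℝ} (hε : 0 < ε) :
    ∃ P : Polynomial ℂ, ∀ q : ℂ, ‖q‖ = ρ → |(P.eval q).re - u q| < ε := by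
  have : Fact (0 < 2 * π) := ⟨by positivity⟩
  have hg : Continuous (fun θ : ℝ => ((u (circleMap 0 ρ θ) : ℝ) : ℂ)) := by
    refine Complex.continuous_ofReal.comp ?_
    refine hu.comp_continuous (continuous_circleMap 0 ρ) fun θ => ?_
    rw [mem_sphere_zero_iff_norm, norm_circleMap_zero, abs_of_pos hρ]
  have hper : Function.Periodic (fun θ : ℝ => ((u (circleMap 0 ρ θ) : ℝ) : ℂ)) (2 * π) := by
    intro θ
    simp only [periodic_circleMap 0 ρ θ]
  let g : C(AddCircle (2 * π), ℂ) := ⟨hper.lift, by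
    refine continuous_coinduced_dom.2 ?_
    exact hg⟩
  have hgθ : ∀ θ : ℝ, g (θ : AddCircle (2 * π)) = ((u (circleMap 0 ρ θ) : ℝ) : ℂ) := fun θ => rfl
  have hmem : g ∈ (Submodule.span ℂ (Set.range (@fourier (2 * π)))).topologicalClosure := by
    rw [span_fourier_closure_eq_top]
    trivial
  have hmem' : g ∈ closure (Submodule.span ℂ (Set.range (@fourier (2 * π))) : Set _) := hmem
  obtain ⟨f, hf, hfg⟩ := Metric.mem_closure_iff.1 hmem' ε hε
  obtain ⟨P, Q, hPQ⟩ := span_repr hρ hf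
  refine ⟨P + Q, fun q hq => ?_⟩
  obtain ⟨θ, rfl⟩ : ∃ θ : ℝ, circleMap 0 ρ θ = q := by
    have : q ∈ Metric.sphere (0 : ℂ) |ρ| := by
      rw [mem_sphere_zero_iff_norm, abs_of_pos hρ]
      exact hq
    rw [← range_circleMap] at this
    exact this
  have h1 : ‖f (θ : AddCircle (2 * π)) - g (θ : AddCircle (2 * π))‖ < ε := by
    have h2 := ContinuousMap.norm_coe_le_norm (f - g) (θ : AddCircle (2 * π))
    rw [ContinuousMap.sub_apply] at h2
    refine h2.trans_lt ?_
    rw [← dist_eq_norm, dist_comm]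
    exact hfg
  have h2 : ((P + Q).eval (circleMap 0 ρ θ)).re - u (circleMap 0 ρ θ) =
      (f (θ : AddCircle (2 * π)) - g (θ : AddCircle (2 * π))).re := by
    rw [hPQ, hgθ, Polynomial.eval_add]
    simp
  rw [h2]
  exact (Complex.abs_re_le_norm _).trans_lt h1

theorem poly_between {ρ : ℝ} (hρ : 0 < ρ) {a b : ℂ → ℝ}
    (ha : ContinuousOn a (Metric.sphere 0 ρ)) (hb : ContinuousOn b (Metric.sphere 0 ρ))
    (hab : ∀ q, ‖q‖ = ρ → a q < b q) :
    ∃ P : Polynomial ℂ, ∀ q : ℂ, ‖q‖ = ρ → a q < (P.eval q).re ∧ (P.eval q).re < b q := by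
  have hcomp : IsCompact (Metric.sphere (0 : ℂ) ρ) := isCompact_sphere 0 ρ
  have hne : (Metric.sphere (0 : ℂ) ρ).Nonempty := NormedSpace.sphere_nonempty.2 hρ.le
  obtain ⟨q0, hq0, hmin⟩ := hcomp.exists_isMinOn hne (hb.sub ha)
  have hε : 0 < (b q0 - a q0) / 2 := by
    have := hab q0 (mem_sphere_zero_iff_norm.1 hq0)
    linarith
  obtain ⟨P, hP⟩ := poly_approx hρ (u := fun q => (a q + b q) / 2)
    ((ha.add hb).div_const 2) hε
  refine ⟨P, fun q hq => ?_⟩
  have h1 := abs_lt.1 (hP q hq)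
  have h2 : b q0 - a q0 ≤ b q - a q := hmin (mem_sphere_zero_iff_norm.2 hq)
  constructor <;> linarith [h1.1, h1.2]

end SokalIn
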