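import Mathlib
import Pool.Agent.Lib_MP_af4de1.Basic

/-!
# Interior of the disc (F4) and the corner q = 1: definitions

`F q z = ∑ q^(n(n-1)/2) z^n / n!` (SokalF.F), `F(·;q)' = F(q ·;q)`.
-/

set_option autoImplicit false

open Complex Set Filter Topology SokalF

namespace SokalIn

/-- `z 0, …, z k` are the first `k + 1` zeros of `F(·;q)`: simple, strictly increasing moduli,
and every zero of modulus at most `‖z k‖` is one of them. -/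
structure First (q : ℂ) (k : ℕ) (z : ℕ → ℂ) : Prop where
  zero : ∀ i ≤ k, F q (z i) = 0
  simple : ∀ i ≤ k, F q (q * z i) ≠ 0
  mono : ∀ i < k, ‖z i‖ < ‖z (i + 1)‖
  complete : ∀ w, F q w = 0 → ‖w‖ ≤ ‖z k‖ → ∃ i ≤ k, w = z i

/-- all zeros of `F(·;q)` are simple and have distinct moduli -/
def Dist (q : ℂ) : Prop :=
  (∀ z, F q z = 0 → F q (q * z) ≠ 0) ∧ ∀ z w, F q z = 0 → F q w = 0 → ‖z‖ = ‖w‖ → z = w

/-- the corner `q = 1` -/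
def TIP (k : ℕ) : Prop :=
  ∃ ε > 0, ∀ q : ℂ, ‖q‖ ≤ 1 → q ≠ 1 → ‖q - 1‖ < ε →
    ∃ z : ℕ → ℂ, First q k z ∧ ∀ i < k, ‖z i‖ < ‖q‖ * ‖z (i + 1)‖

/-- `q = ρ e^(iθ)` in polar form, `qq ρ θ τ = q^τ` -/
noncomputable def qq (ρ θ τ : ℝ) : ℂ := cexp (τ * (Real.log ρ + θ * I))

/-- the circle `|q| = ρ` is good for the first `k + 1` zeros `z θ 0, …, z θ k` -/
structure Circ (ρ : ℝ) (k : ℕ) (z : ℝ → ℕ → ℂ) : Prop where
  first : ∀ θ, First (qq ρ θ 1) k (z θ)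
  gap : ∀ θ, ∀ i < k, ‖z θ i‖ < ρ * ‖z θ (i + 1)‖

end SokalIn
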