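import Mathlib

/-!
# Sorted enumeration of a discrete set with distinct moduli [IN-EN]

`Z` infinite, finitely many points in every closed ball, distinct moduli.  The image of `Z` under the norm is an infinite set of reals with finitely many points in
`(-∞, R]`; recursion: `z 0` the point of least modulus, `z (n+1)` the point of least modulus among those of modulus `> ‖z n‖` (it exists: infinite minus finite, minimum of a
nonempty finite set `{w ∈ Z | ‖z n‖ < ‖w‖ ≤ ‖w0‖}`).  A point which is never reached would have infinitely many `z n` below it.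
-/

set_option autoImplicit false

namespace SokalIn

open Filter Topology

/-- the next point -/
private theorem enum_next {Z : Set ℂ} (hfin : ∀ R : ℝ, (Z ∩ Metric.closedBall 0 R).Finite)
    (hinf : Z.Infinite) (R : ℝ) :
    ∃ w ∈ Z, R < ‖w‖ ∧ ∀ v ∈ Z, R < ‖v‖ → ‖w‖ ≤ ‖v‖ := by
  obtain ⟨w0, hw0, hw0R⟩ := hinf.exists_notMem_finite (hfin R)
  have hR : R < ‖w0‖ := by
    by_contra h
    push Not at h
    exact hw0R ⟨hw0, mem_closedBall_zero_iff.2 h⟩
  have hS : ({w ∈ Z | R < ‖w‖ ∧ ‖w‖ ≤ ‖w0‖} : Set ℂ).Finite :=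
    (hfin ‖w0‖).subset fun w hw => ⟨hw.1, mem_closedBall_zero_iff.2 hw.2.2⟩
  obtain ⟨w, hw, hmin⟩ := Set.exists_min_image _ (fun w : ℂ => ‖w‖) hS ⟨w0, hw0, hR, le_rfl⟩
  refine ⟨w, hw.1, hw.2.1, fun v hv hRv => ?_⟩
  by_cases h : ‖v‖ ≤ ‖w0‖
  · exact hmin v ⟨hv, hRv, h⟩
  · push Not at h
    exact hw.2.2.trans h.le

/-- sorted enumeration -/
theorem exists_enum {Z : Set ℂ} (hfin : ∀ R : ℝ, (Z ∩ Metric.closedBall 0 R).Finite)
    (hinj : ∀ z ∈ Z, ∀ w ∈ Z, ‖z‖ = ‖w‖ → z = w) (hinf : Z.Infinite) :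
    ∃ z : ℕ → ℂ, (∀ i, z i ∈ Z) ∧ StrictMono (fun i => ‖z i‖) ∧ (∀ w ∈ Z, ∃ i, w = z i) ∧
      Tendsto (fun i => ‖z i‖) atTop atTop := by
  choose nx h1 h2 h3 using enum_next hfin hinf
  let z : ℕ → ℂ := fun i => Nat.rec (nx (-1)) (fun _ w => nx ‖w‖) i
  have hz0 : z 0 = nx (-1) := rfl
  have hzs : ∀ i, z (i + 1) = nx ‖z i‖ := fun i => rfl
  have hmem : ∀ i, z i ∈ Z := by
    intro i
    cases i with
    | zero => exact h1 _
    | succ i => exact h1 _
  have hmono : StrictMono (fun i => ‖z i‖) := by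
    refine strictMono_nat_of_lt_succ fun i => ?_
    rw [hzs]
    exact h2 _
  have hinjz : Function.Injective z := fun i j h => hmono.injective (congrArg norm h)
  -- not all `z i` are in a ball
  have hunb : ∀ R : ℝ, ∃ i, R < ‖z i‖ := by
    intro R
    by_contra h
    push Not at h
    exact (Set.infinite_range_of_injective hinjz)
      ((hfin R).subset (by
        rintro _ ⟨i, rfl⟩
        exact ⟨hmem i, mem_closedBall_zero_iff.2 (h i)⟩))
  refine ⟨z, hmem, hmono, fun w hw => ?_, ?_⟩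
  · by_contra h
    push Not at h
    have hlt : ∀ i, ‖z i‖ < ‖w‖ := by
      intro i
      refine lt_of_le_of_ne ?_ fun h4 => h i (hinj _ hw _ (hmem i) h4.symm)
      induction i with
      | zero =>
        rw [hz0]
        exact h3 _ w hw (by linarith [norm_nonneg w])
      | succ i ih =>
        rw [hzs]
        exact h3 _ w hw (lt_of_le_of_ne ih fun h4 => h i (hinj _ hw _ (hmem i) h4.symm))
    obtain ⟨i, hi⟩ := hunb ‖w‖
    exact lt_asymm hi (hlt i)
  · refine tendsto_atTop_atTop.2 fun b => ?_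
    obtain ⟨i, hi⟩ := hunb b
    exact ⟨i, fun j hij => hi.le.trans (hmono.monotone hij)⟩

end SokalIn
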