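import Pool.Agent.Lib_MP_af4de1_in.Final
import Pool.Agent.Lib_MP_af4de1_fu.Tub

/-!
# From `SokalFU.Dist` (one circle) to `SokalIn.Dist`
-/

set_option autoImplicit false

open Complex Set Filter Topology SokalF

namespace SokalIn

theorem dist_of_fu {α : ℝ} (h : ∀ r : ℝ, 0 < r → SokalFU.Dist α r) : Dist (cexp (α * I)) := by
  have hq : ‖cexp (α * I)‖ ≤ 1 := (Complex.norm_exp_ofReal_mul_I α).le
  have hpos : ∀ z, F (cexp (α * I)) z = 0 → 0 < ‖z‖ := by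
    intro z hz
    rw [norm_pos_iff]
    rintro rfl
    rw [F_zero] at hz
    exact one_ne_zero hz
  refine ⟨fun z hz h0 => ?_, fun z w hz hw hn => ?_⟩
  · have h1 := (h ‖z‖ (hpos z hz) z rfl hz).1
    apply h1
    have h2 := deriv_F hq z
    unfold SokalFU.qa
    rw [h2, h0]
  · exact (h ‖w‖ (hpos w hw) w rfl hw).2 z hn hz

theorem circle_of_fu (h : ∀ α : ℝ, 0 < α → α ≤ Real.pi → ∀ r : ℝ, 0 < r → SokalFU.Dist α r) :
    ∀ q : ℂ, ‖q‖ = 1 → q ≠ 1 → Dist q :=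
  circle_of_arc fun α h1 h2 => dist_of_fu (h α h1 h2)

end SokalIn
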