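import Pool.Agent.Lib_MP_af4de1_in.Local

/-!
# Rouche and Hurwitz
-/

set_option autoImplicit false

open Complex Set Filter Topology

namespace SokalIn

/-- Rouche -/
theorem rouche {G1 G2 : ℂ → ℂ} (h1 : Continuous G1) (h2 : Differentiable ℂ G2) {r : ℝ} (hr : 0 < r)
    {n : ℕ} (h : Fac univ G1 r n) (hlt : ∀ u : ℂ, ‖u‖ = r → ‖G2 u - G1 u‖ < ‖G1 u‖) :
    Fac univ G2 r n := by
  have hw := h.w0 hr (subset_univ _)
  have h3 := W0.homotopy01 (H := fun p : ℝ × ℝ =>
    (G1 (cp r p.1) + p.2 * (G2 (cp r p.1) - G1 (cp r p.1))) * cexp (-(n * p.1 * I))) ?_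
    (fun θ s hs => mul_ne_zero ?_ (exp_ne_zero _)) (fun θ s _ => ?_) ?_
  · refine fac_of_w0 isOpen_univ isPreconnected_univ hr (subset_univ _) h2.differentiableOn ?_
    refine h3.congr fun θ => ?_
    simp
  · have hcp := continuous_cp r
    have h2c := h2.continuous
    fun_prop
  · intro h0
    have h4 := hlt _ (norm_cp hr.le θ)
    have h5 : ‖G1 (cp r θ)‖ = ‖(s : ℂ) * (G2 (cp r θ) - G1 (cp r θ))‖ := by
      rw [← norm_neg (G1 (cp r θ))]
      congr 1
      linear_combination -h0
    rw [norm_mul, Complex.norm_real, Real.norm_of_nonneg hs.1] at h5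
    have := mul_le_mul_of_nonneg_right hs.2 (norm_nonneg (G2 (cp r θ) - G1 (cp r θ)))
    linarith
  · simp only [cp_period]
    congr 1
    have : -(n * ((θ + 2 * Real.pi : ℝ) : ℂ) * I) =
        -(n * θ * I) + (-(n : ℤ) : ℤ) * (2 * Real.pi * I) := by
      push_cast; ring
    rw [this, exp_add, exp_int_mul_two_pi_mul_I, mul_one]
  · refine hw.congr fun θ => ?_
    simp

/-- a simple zero of an entire function is alone in a small disc -/
theorem isolated_simple {g : ℂ → ℂ} (hg : Differentiable ℂ g) {w : ℂ} (hw : g w = 0)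
    (hw' : deriv g w ≠ 0) :
    ∃ r0 > 0, (∀ x ∈ Metric.closedBall w r0, g x = 0 → x = w) ∧
      ∀ x ∈ Metric.closedBall w r0, deriv g x ≠ 0 := by
  have hd : Differentiable ℂ (dslope g w) := by
    have := (Complex.differentiableOn_dslope (s := Set.univ) (f := g) (c := w)
      Filter.univ_mem).2 hg.differentiableOn
    exact differentiableOn_univ.1 this
  have h1 : ∀ᶠ x in 𝓝 w, dslope g w x ≠ 0 :=
    hd.continuous.continuousAt.eventually_ne (by rw [dslope_same]; exact hw')
  have hdg : Continuous (deriv g) := hg.contDiff (n := 1) |>.continuous_deriv le_rfl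
  have h2 : ∀ᶠ x in 𝓝 w, deriv g x ≠ 0 := hdg.continuousAt.eventually_ne hw'
  obtain ⟨ε, hε, hball⟩ := Metric.eventually_nhds_iff_ball.1 (h1.and h2)
  refine ⟨ε / 2, by positivity, fun x hx hx0 => ?_, fun x hx => ?_⟩
  · have h3 := (hball x (Metric.closedBall_subset_ball (by linarith) hx)).1
    have h4 := sub_smul_dslope g w x
    rw [hx0, hw, sub_zero, smul_eq_mul, mul_eq_zero] at h4
    exact sub_eq_zero.1 (h4.resolve_right h3)
  · exact (hball x (Metric.closedBall_subset_ball (by linarith) hx)).2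

/-- Hurwitz for a simple zero -/
theorem hurwitz_simple {ι : Type*} {l : Filter ι} {f : ι → ℂ → ℂ} {g : ℂ → ℂ}
    (hf : ∀ n, Differentiable ℂ (f n)) (hg : Differentiable ℂ g)
    (hfg : TendstoLocallyUniformly f g l) {w : ℂ} (hw : g w = 0) (hw' : deriv g w ≠ 0) :
    ∃ r0 > 0, ∀ r ∈ Ioc 0 r0, ∀ᶠ n in l, (∃! x, x ∈ Metric.ball w r ∧ f n x = 0) ∧
      (∀ x ∈ Metric.ball w r, deriv (f n) x ≠ 0) ∧
      ∀ x ∈ Metric.closedBall w r, f n x = 0 → x ∈ Metric.ball w r := by
  obtain ⟨r0, hr0, hiso, hder⟩ := isolated_simple hg hw hw'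
  refine ⟨r0, hr0, fun r hr => ?_⟩
  have hr' : 0 < r := hr.1
  have hfac : Fac univ (fun u => g (w + u)) r 1 := by
    refine fac_one hr' (hg.comp (by fun_prop)) (by simpa using hw) ?_ ?_
    · have h2 : HasDerivAt (fun u => g (w + u)) (deriv g (w + 0) * 1) 0 :=
        (hg (w + 0)).hasDerivAt.comp (0 : ℂ) ((hasDerivAt_id (0 : ℂ)).const_add w)
      rw [h2.deriv, add_zero, mul_one]
      exact hw'
    · intro u hu h2
      have := hiso (w + u) (by
        rw [Metric.mem_closedBall, dist_eq_norm, add_sub_cancel_left]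
        exact hu.trans hr.2) h2
      linear_combination this
  -- the minimum on the circle
  have hne : (Metric.sphere w r).Nonempty := NormedSpace.sphere_nonempty.2 hr'.le
  obtain ⟨x0, hx0, hmin⟩ := (isCompact_sphere w r).exists_isMinOn hne hg.continuous.norm.continuousOn
  have hx0' : g x0 ≠ 0 := by
    intro h
    have := hiso x0 (Metric.closedBall_subset_closedBall hr.2 (Metric.sphere_subset_closedBall hx0)) h
    rw [this, Metric.mem_sphere, dist_self] at hx0
    linarith
  have hm : 0 < ‖g x0‖ := norm_pos_iff.2 hx0'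
  have hunif : TendstoUniformlyOn f g l (Metric.sphere w r) :=
    (tendstoLocallyUniformlyOn_iff_tendstoUniformlyOn_of_compact (isCompact_sphere w r)).1
      hfg.tendstoLocallyUniformlyOn
  rw [Metric.tendstoUniformlyOn_iff] at hunif
  -- the derivatives
  obtain ⟨x1, hx1, hmin1⟩ := (isCompact_closedBall w r).exists_isMinOn
    (Metric.nonempty_closedBall.2 hr'.le)
    ((hg.contDiff (n := 1)).continuous_deriv le_rfl).norm.continuousOn
  have hm1 : 0 < ‖deriv g x1‖ :=
    norm_pos_iff.2 (hder x1 (Metric.closedBall_subset_closedBall hr.2 hx1))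
  have hderiv : TendstoLocallyUniformlyOn (deriv ∘ f) (deriv g) l univ :=
    (tendstoLocallyUniformlyOn_univ.2 hfg).deriv
      (Eventually.of_forall fun n => (hf n).differentiableOn) isOpen_univ
  have hunif1 : TendstoUniformlyOn (deriv ∘ f) (deriv g) l (Metric.closedBall w r) :=
    (tendstoLocallyUniformlyOn_iff_tendstoUniformlyOn_of_compact (isCompact_closedBall w r)).1
      (hderiv.mono (subset_univ _))
  rw [Metric.tendstoUniformlyOn_iff] at hunif1
  filter_upwards [hunif _ hm, hunif1 _ hm1] with n hn hn1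
  have hfacn : Fac univ (fun u => f n (w + u)) r 1 := by
    refine rouche (hg.continuous.comp (by fun_prop)) ((hf n).comp (by fun_prop)) hr' hfac
      fun u hu => ?_
    have hs : w + u ∈ Metric.sphere w r := by
      rw [Metric.mem_sphere, dist_eq_norm, add_sub_cancel_left, hu]
    have h3 := hn _ hs
    rw [dist_comm, dist_eq_norm] at h3
    exact h3.trans_le (hmin hs)
  obtain ⟨a, ha, ha0, -, hauniq⟩ := hfacn.one
  refine ⟨⟨w + a, ⟨?_, ha0⟩, fun y hy => ?_⟩, fun x hx h3 => ?_, fun x hx hx0 => ?_⟩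
  · rw [Metric.mem_ball, dist_eq_norm, add_sub_cancel_left]
    exact ha
  · obtain ⟨hy1, hy2⟩ := hy
    rw [Metric.mem_ball, dist_eq_norm] at hy1
    have := hauniq (y - w) hy1.le (by rw [add_sub_cancel]; exact hy2)
    rw [← this]
    ring
  · have h4 := hn1 x (Metric.ball_subset_closedBall hx)
    rw [dist_eq_norm, Function.comp_apply, h3, sub_zero] at h4
    exact absurd (show ‖deriv g x1‖ ≤ ‖deriv g x‖ from hmin1 (Metric.ball_subset_closedBall hx))
      (not_le.2 h4)
  · rw [Metric.mem_closedBall, dist_eq_norm] at hx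
    have := hauniq (x - w) hx (by rw [add_sub_cancel]; exact hx0)
    rw [Metric.mem_ball, dist_eq_norm, this]
    exact ha

end SokalIn
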