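import Pool.Agent.Lib_MP_af4de1_in.Defs
import Pool.Agent.Lib_MP_af4de1_hd.DN
import Pool.Agent.Lib_MP_af4de1_in.Enum

/-!
# Existence of the first `k + 1` zeros (F4)

* `div_zeros`: division of an entire function by finitely many distinct zeros;
* `exists_first`: for `0 < |q| ≤ 1`, `q ≠ 1` and `Dist q` the zeros of `F(·;q)` can be enumerated by
  increasing modulus (for each `k`);
* `exists_first_all`: the same with one sequence for all `k`.
-/

set_option autoImplicit false

open Complex Set Filter Topology SokalF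

namespace SokalIn

/-- Division of an entire function by finitely many distinct zeros. -/
theorem div_zeros {f : ℂ → ℂ} (hf : Differentiable ℂ f) (n : ℕ) (z : ℕ → ℂ)
    (hz : ∀ j < n, z j ≠ 0) (hinj : ∀ i < n, ∀ j < n, z i = z j → i = j)
    (hzero : ∀ j < n, f (z j) = 0) :
    ∃ g : ℂ → ℂ, Differentiable ℂ g ∧ ∀ u, f u = (∏ j ∈ Finset.range n, (1 - u / z j)) * g u := by
  induction n with
  | zero => exact ⟨f, hf, fun u => by simp⟩
  | succ n ih =>
    obtain ⟨g, hg, hfg⟩ := ih (fun j hj => hz j (by omega))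
      (fun i hi j hj h => hinj i (by omega) j (by omega) h) (fun j hj => hzero j (by omega))
    have hzn := hz n (by omega)
    have hgn : g (z n) = 0 := by
      have h1 := hfg (z n)
      rw [hzero n (by omega)] at h1
      rcases mul_eq_zero.1 h1.symm with h2 | h2
      · exfalso
        obtain ⟨j, hj, hj0⟩ := Finset.prod_eq_zero_iff.1 h2
        rw [Finset.mem_range] at hj
        have h3 : z n / z j = 1 := (sub_eq_zero.1 hj0).symm
        rw [div_eq_one_iff_eq (hz j (by omega))] at h3
        have := hinj n (by omega) j (by omega) h3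
        omega
      · exact h2
    have hds : Differentiable ℂ (dslope g (z n)) := by
      rw [← differentiableOn_univ] at hg ⊢
      exact (differentiableOn_dslope univ_mem).mpr hg
    refine ⟨fun u => -z n * dslope g (z n) u, hds.const_mul _, fun u => ?_⟩
    rw [hfg u, Finset.prod_range_succ, mul_assoc]
    congr 1
    have h4 : g u = (u - z n) * dslope g (z n) u := by
      by_cases hu : u = z n
      · rw [hu, hgn, sub_self, zero_mul]
      · rw [dslope_of_ne _ hu, slope_def_field, hgn, sub_zero]
        have : u - z n ≠ 0 := sub_ne_zero.2 hu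
        field_simp
    rw [h4]
    have h5 : (1 - u / z n) * (-z n) = u - z n := by
      field_simp
      ring
    rw [← mul_assoc, h5]

/-- The quotient does not vanish at a simple zero. -/
theorem quot_ne_zero {q : ℂ} (hq : ‖q‖ ≤ 1) {n : ℕ} {z : ℕ → ℂ} {g : ℂ → ℂ}
    (hg : Differentiable ℂ g)
    (hfg : ∀ u, F q u = (∏ j ∈ Finset.range n, (1 - u / z j)) * g u) {i : ℕ} (hi : i < n)
    (hzi : z i ≠ 0) (hs : F q (q * z i) ≠ 0) : g (z i) ≠ 0 := by
  intro h0
  have hP : Differentiable ℂ fun u : ℂ => ∏ j ∈ Finset.range n, (1 - u / z j) := by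
    refine Differentiable.fun_finsetProd fun j _ => ?_
    exact (differentiable_const _).sub (differentiable_id.div_const _)
  have hP0 : ∏ j ∈ Finset.range n, (1 - z i / z j) = 0 :=
    Finset.prod_eq_zero (Finset.mem_range.2 hi) (by rw [div_self hzi, sub_self])
  have h1 := ((hP (z i)).hasDerivAt.mul (hg (z i)).hasDerivAt)
  have h2 : HasDerivAt (F q) (F q (q * z i)) (z i) := hasDerivAt_F hq _
  have h3 : F q = fun u => (∏ j ∈ Finset.range n, (1 - u / z j)) * g u := funext hfg
  rw [h3] at h2
  have h4 := h2.unique h1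
  rw [hP0, h0, mul_zero, zero_mul, add_zero] at h4
  exact hs ((hfg _).trans h4)

/-- `n` zeros of the smallest moduli -/
private theorem exists_n {q : ℂ} (hq0 : q ≠ 0) (hq : ‖q‖ ≤ 1) (hq1 : q ≠ 1) (hD : Dist q) (n : ℕ) :
    ∃ z : ℕ → ℂ, (∀ i < n, F q (z i) = 0) ∧ (∀ i, i + 1 < n → ‖z i‖ < ‖z (i + 1)‖) ∧
      ∀ w, F q w = 0 → (∃ i < n, w = z i) ∨ ∀ i < n, ‖z i‖ < ‖w‖ := by
  have hne : ∀ w, F q w = 0 → w ≠ 0 := by
    rintro w hw rfl
    rw [F_zero] at hw
    exact one_ne_zero hw
  induction n with
  | zero => exact ⟨fun _ => 0, by simp, by simp, fun w _ => Or.inr (by simp)⟩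
  | succ n ih =>
    obtain ⟨z, h1, h2, h3⟩ := ih
    -- moduli are strictly increasing
    have hlt : ∀ i j, i < j → j < n → ‖z i‖ < ‖z j‖ := by
      intro i j hij
      induction j with
      | zero => omega
      | succ j ihj =>
        intro hj
        rcases Nat.lt_succ_iff_lt_or_eq.1 hij with h | h
        · exact (ihj h (by omega)).trans (h2 j hj)
        · rw [h]
          exact h2 j hj
    have hinj : ∀ i < n, ∀ j < n, z i = z j → i = j := by
      intro i hi j hj h
      rcases lt_trichotomy i j with h4 | h4 | h4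
      · exact absurd (congrArg norm h) (hlt i j h4 hj).ne
      · exact h4
      · exact absurd (congrArg norm h) (hlt j i h4 hi).ne'
    have hdF : Differentiable ℂ (F q) := fun u => (hasDerivAt_F hq u).differentiableAt
    obtain ⟨g, hg, hfg⟩ := div_zeros hdF n z (fun j hj => hne _ (h1 j hj)) hinj h1
    obtain ⟨u, hu⟩ := SokalHD.exists_zero hq0 hq hq1 (fun j hj => hne _ (h1 j hj)) hg hfg
    -- the zero of `g` of least modulus
    have hcomp : IsCompact ({w | g w = 0} ∩ Metric.closedBall (0 : ℂ) ‖u‖) := by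
      refine (isCompact_closedBall (0 : ℂ) ‖u‖).inter_left ?_
      exact isClosed_eq hg.continuous continuous_const
    obtain ⟨v, hv, hvmin⟩ := hcomp.exists_isMinOn ⟨u, hu, by simp⟩ continuous_norm.continuousOn
    have hv0 : g v = 0 := hv.1
    have hmin : ∀ w, g w = 0 → ‖v‖ ≤ ‖w‖ := by
      intro w hw
      by_cases hwu : ‖w‖ ≤ ‖u‖
      · exact hvmin ⟨hw, by rwa [mem_closedBall_zero_iff]⟩
      · push Not at hwu
        have : ‖v‖ ≤ ‖u‖ := by
          have := hv.2
          rwa [mem_closedBall_zero_iff] at this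
        exact this.trans hwu.le
    have hFv : F q v = 0 := by rw [hfg, hv0, mul_zero]
    have hvne : ∀ i < n, v ≠ z i := by
      rintro i hi rfl
      exact quot_ne_zero hq hg hfg hi (hne _ (h1 i hi)) (hD.1 _ (h1 i hi)) hv0
    have hgw : ∀ w, F q w = 0 → (∀ i < n, w ≠ z i) → g w = 0 := by
      intro w hw hwn
      have h4 := hfg w
      rw [hw] at h4
      rcases mul_eq_zero.1 h4.symm with h5 | h5
      · exfalso
        obtain ⟨j, hj, hj0⟩ := Finset.prod_eq_zero_iff.1 h5
        rw [Finset.mem_range] at hj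
        have h6 : w / z j = 1 := (sub_eq_zero.1 hj0).symm
        rw [div_eq_one_iff_eq (hne _ (h1 j hj))] at h6
        exact hwn j hj h6
      · exact h5
    have hvlt : ∀ i < n, ‖z i‖ < ‖v‖ := by
      rcases h3 v hFv with ⟨i, hi, h⟩ | h
      · exact absurd h (hvne i hi)
      · exact h
    refine ⟨fun i => if i < n then z i else v, ?_, ?_, ?_⟩
    · intro i hi
      by_cases h : i < n
      · simp only [h, if_true]
        exact h1 i h
      · simp only [h, if_false]
        exact hFv
    · intro i hi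
      have h4 : i < n := by omega
      by_cases h : i + 1 < n
      · simp only [h4, h, if_true]
        exact h2 i h
      · simp only [h4, h, if_true, if_false]
        exact hvlt i h4
    · intro w hw
      by_cases hwz : ∃ i < n, w = z i
      · obtain ⟨i, hi, h⟩ := hwz
        exact Or.inl ⟨i, by omega, by simp only [hi, if_true]; exact h⟩
      · push Not at hwz
        have h4 := hgw w hw hwz
        rcases eq_or_ne w v with h5 | h5
        · exact Or.inl ⟨n, by omega, by simp only [lt_irrefl, if_false]; exact h5⟩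
        · right
          intro i hi
          by_cases h : i < n
          · simp only [h, if_true]
            rcases h3 w hw with ⟨j, hj, h6⟩ | h6
            · exact absurd h6 (hwz j hj)
            · exact h6 i h
          · simp only [h, if_false]
            refine lt_of_le_of_ne (hmin w h4) fun h6 => h5 (hD.2 w v hw hFv h6.symm)

/-- For `0 < |q| ≤ 1`, `q ≠ 1` and `Dist q` the zeros of `F(·;q)` can be enumerated by increasing
modulus. -/
theorem exists_first' {q : ℂ} (hq0 : q ≠ 0) (hq : ‖q‖ ≤ 1) (hq1 : q ≠ 1) (hD : Dist q) (k : ℕ) :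
    ∃ z : ℕ → ℂ, First q k z := by
  obtain ⟨z, h1, h2, h3⟩ := exists_n hq0 hq hq1 hD (k + 1)
  refine ⟨z, fun i hi => h1 i (by omega), fun i hi => hD.1 _ (h1 i (by omega)),
    fun i hi => h2 i (by omega), fun w hw hwk => ?_⟩
  rcases h3 w hw with ⟨i, hi, h⟩ | h
  · exact ⟨i, by omega, h⟩
  · exact absurd hwk (not_le.2 (h k (by omega)))

/-- The same on the unit circle. -/
theorem exists_first {q : ℂ} (hq : ‖q‖ = 1) (hq1 : q ≠ 1) (hD : Dist q) (k : ℕ) :
    ∃ z : ℕ → ℂ, First q k z :=
  exists_first' (norm_ne_zero_iff.1 (by rw [hq]; exact one_ne_zero)) hq.le hq1 hD k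

/-- Finitely many zeros in every closed ball. -/
theorem zeros_finite {q : ℂ} (hq : ‖q‖ ≤ 1) (R : ℝ) :
    ({w | F q w = 0} ∩ Metric.closedBall 0 R).Finite := by
  have hdF : Differentiable ℂ (F q) := fun u => (hasDerivAt_F hq u).differentiableAt
  have han : AnalyticOnNhd ℂ (F q) univ := hdF.differentiableOn.analyticOnNhd isOpen_univ
  have h0 : ∀ x ∈ Metric.closedBall (0 : ℂ) R, ∀ᶠ w in 𝓝[≠] x, F q w ≠ 0 := by
    intro x _
    rcases (han x (mem_univ x)).eventually_eq_zero_or_eventually_ne_zero with h | h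
    · have h1 := han.eqOn_zero_of_preconnected_of_eventuallyEq_zero isPreconnected_univ
        (mem_univ x) h
      have h2 : F q 0 = 0 := h1 (mem_univ 0)
      rw [F_zero] at h2
      exact absurd h2 one_ne_zero
    · exact h
  by_contra hinf
  obtain ⟨x, hx, hacc⟩ := Set.Infinite.exists_accPt_of_subset_isCompact hinf
    (isCompact_closedBall (0 : ℂ) R) inter_subset_right
  have h1 := accPt_iff_frequently.1 hacc
  refine h1 ?_
  have h2 := eventually_nhdsWithin_iff.1 (h0 x hx)
  filter_upwards [h2] with y hy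
  rintro ⟨hyx, hyZ, _⟩
  exact hy hyx hyZ

/-- For `0 < |q| ≤ 1`, `q ≠ 1` and `Dist q`: one enumeration of all the zeros. -/
theorem exists_first_all' {q : ℂ} (hq0 : q ≠ 0) (hq : ‖q‖ ≤ 1) (hq1 : q ≠ 1) (hD : Dist q) :
    ∃ z : ℕ → ℂ, (∀ k, First q k z) ∧ StrictMono (fun i => ‖z i‖) ∧
      (∀ w, F q w = 0 → ∃ i, w = z i) ∧ Tendsto (fun i => ‖z i‖) atTop atTop := by
  have hinf : ({w | F q w = 0} : Set ℂ).Infinite := by
    intro hfin
    obtain ⟨y, hy⟩ := exists_first' hq0 hq hq1 hD hfin.toFinset.card
    have hlt : ∀ i j, i < j → j ≤ hfin.toFinset.card → ‖y i‖ < ‖y j‖ := by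
      intro i j hij
      induction j with
      | zero => omega
      | succ j ihj =>
        intro hj
        rcases Nat.lt_succ_iff_lt_or_eq.1 hij with h | h
        · exact (ihj h (by omega)).trans (hy.mono j (by omega))
        · rw [h]
          exact hy.mono j (by omega)
    have h1 : (Finset.range (hfin.toFinset.card + 1)).card ≤ hfin.toFinset.card := by
      refine Finset.card_le_card_of_injOn y ?_ ?_
      · intro i hi
        rw [Finset.mem_coe, Finset.mem_range] at hi
        rw [Finset.mem_coe, Set.Finite.mem_toFinset]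
        exact hy.zero i (by omega)
      · intro i hi j hj h
        rw [Finset.mem_coe, Finset.mem_range] at hi hj
        rcases lt_trichotomy i j with h4 | h4 | h4
        · exact absurd (congrArg norm h) (hlt i j h4 (by omega)).ne
        · exact h4
        · exact absurd (congrArg norm h) (hlt j i h4 (by omega)).ne'
    rw [Finset.card_range] at h1
    omega
  obtain ⟨z, h1, h2, h3, h4⟩ := exists_enum (zeros_finite hq)
    (fun z hz w hw h => hD.2 z w hz hw h) hinf
  refine ⟨z, fun k => ⟨fun i _ => h1 i, fun i _ => hD.1 _ (h1 i), fun i _ => h2 (Nat.lt_succ_self i),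
    fun w hw hwk => ?_⟩, h2, fun w hw => h3 w hw, h4⟩
  obtain ⟨i, hi⟩ := h3 w hw
  refine ⟨i, ?_, hi⟩
  rw [hi] at hwk
  exact h2.le_iff_le.1 hwk

/-- The same on the unit circle. -/
theorem exists_first_all {q : ℂ} (hq : ‖q‖ = 1) (hq1 : q ≠ 1) (hD : Dist q) :
    ∃ z : ℕ → ℂ, ∀ k, First q k z :=
  (exists_first_all' (norm_ne_zero_iff.1 (by rw [hq]; exact one_ne_zero)) hq.le hq1 hD).imp
    fun _ h => h.1

end SokalIn
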