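import Pool.Agent.Lib_MP_af4de1_in.Local

/-!
# The first zeros from circles with exactly `j` zeros inside, `j ≤ k + 1`
-/

set_option autoImplicit false

open Complex Set Filter Topology SokalF

namespace SokalIn

/-- one more zero between two circles -/
theorem step_of_fac {G : ℂ → ℂ} (hG : Differentiable ℂ G) {r r' : ℝ} (hr : 0 < r) (hr' : 0 < r')
    {j : ℕ} (h : Fac univ G r j) (h' : Fac univ G r' (j + 1)) :
    r < r' ∧ ∃ a, r < ‖a‖ ∧ ‖a‖ < r' ∧ G a = 0 ∧ deriv G a ≠ 0 ∧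
      ∀ w, ‖w‖ ≤ r' → G w = 0 → ‖w‖ ≤ r ∨ w = a := by
  have hlt : r < r' := by
    by_contra hcon
    push Not at hcon
    obtain ⟨a, K', ha, hK', hK0', hG'⟩ := h'
    obtain ⟨m, hm⟩ := fac_exists isOpen_univ isPreconnected_univ hr (subset_univ _) hK'
      (fun u hu h1 => h.ne_zero hu (by rw [hG' u (mem_univ u), h1, mul_zero]))
    have h2 := Fac.append a (fun i => (ha i).trans_le hcon) (fun z => hG' z (mem_univ z)) hm
    have := fac_uniq hr h h2
    omega
  refine ⟨hlt, ?_⟩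
  obtain ⟨b, K, hb, hK, hK0, hGK⟩ := h
  have hKd : Differentiable ℂ K := differentiableOn_univ.1 hK
  obtain ⟨m, hm⟩ := fac_exists isOpen_univ isPreconnected_univ hr' (subset_univ _) hK
    (fun u hu h1 => h'.ne_zero hu (by rw [hGK u (mem_univ u), h1, mul_zero]))
  have h2 := Fac.append b (fun i => (hb i).trans hlt) (fun z => hGK z (mem_univ z)) hm
  have h3 := fac_uniq hr' h' h2
  have hm1 : m = 1 := by omega
  rw [hm1] at hm
  obtain ⟨a, ha, ha0, had, hauniq⟩ := hm.one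
  have hra : r < ‖a‖ := by
    by_contra h4
    exact hK0 a (not_lt.1 h4) ha0
  have hprod : ∏ i, (a - b i) ≠ 0 := by
    refine Finset.prod_ne_zero_iff.2 fun i _ h5 => ?_
    have := hb i
    rw [← sub_eq_zero.1 h5] at this
    linarith
  refine ⟨a, hra, ha, by rw [hGK a (mem_univ a), ha0, mul_zero], ?_, fun w hw hw0 => ?_⟩
  · have h5 : G = fun u => (∏ i, (u - b i)) * K u := funext fun u => hGK u (mem_univ u)
    have h6 : DifferentiableAt ℂ (fun u : ℂ => ∏ i, (u - b i)) a := by fun_prop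
    have h7 : HasDerivAt (fun u => (∏ i, (u - b i)) * K u) ((∏ i, (a - b i)) * deriv K a) a :=
      (h6.hasDerivAt.mul (hKd a).hasDerivAt).congr_deriv (by rw [ha0, mul_zero, zero_add])
    rw [h5, h7.deriv]
    exact mul_ne_zero hprod had
  · have h5 := hGK w (mem_univ w)
    rw [hw0] at h5
    rcases mul_eq_zero.1 h5.symm with h6 | h6
    · left
      obtain ⟨i, -, h7⟩ := Finset.prod_eq_zero_iff.1 h6
      rw [sub_eq_zero.1 h7]
      exact (hb i).le
    · exact Or.inr (hauniq w hw h6)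

/-- the first `k + 1` zeros -/
theorem first_of_fac {q : ℂ} (hq : ‖q‖ ≤ 1) {k : ℕ}
    (h : ∀ j ≤ k + 1, ∃ r, 0 < r ∧ Fac univ (F q) r j) : ∃ z, First q k z := by
  choose! r hr0 hr using h
  have hd := SokalRay.differentiable_F hq
  have hstep : ∀ j ≤ k, r j < r (j + 1) ∧ ∃ a, r j < ‖a‖ ∧ ‖a‖ < r (j + 1) ∧ F q a = 0 ∧
      deriv (F q) a ≠ 0 ∧ ∀ w, ‖w‖ ≤ r (j + 1) → F q w = 0 → ‖w‖ ≤ r j ∨ w = a := fun j hj =>
    step_of_fac hd (hr0 j (by omega)) (hr0 (j + 1) (by omega)) (hr j (by omega))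
      (hr (j + 1) (by omega))
  have hstep2 : ∀ j, ∃ a, j ≤ k → r j < ‖a‖ ∧ ‖a‖ < r (j + 1) ∧ F q a = 0 ∧
      deriv (F q) a ≠ 0 ∧ ∀ w, ‖w‖ ≤ r (j + 1) → F q w = 0 → ‖w‖ ≤ r j ∨ w = a := by
    intro j
    by_cases hj : j ≤ k
    · obtain ⟨a, ha⟩ := (hstep j hj).2
      exact ⟨a, fun _ => ha⟩
    · exact ⟨0, fun h => absurd h hj⟩
  choose z hz using hstep2
  have hall : ∀ j, j ≤ k + 1 → ∀ w, ‖w‖ ≤ r j → F q w = 0 → ∃ i < j, w = z i := by
    intro j
    induction j with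
    | zero =>
      intro _ w hw hw0
      obtain ⟨a, K, -, -, hK0, hG⟩ := hr 0 (by omega)
      exfalso
      refine hK0 w hw ?_
      have := hG w (mem_univ w)
      rw [hw0] at this
      simpa using this.symm
    | succ j ih =>
      intro hj w hw hw0
      rcases (hz j (by omega)).2.2.2.2 w hw hw0 with h1 | h1
      · obtain ⟨i, hi, h2⟩ := ih (by omega) w h1 hw0
        exact ⟨i, by omega, h2⟩
      · exact ⟨j, by omega, h1⟩
  refine ⟨z, fun i hi => (hz i hi).2.2.1, fun i hi => ?_, fun i hi => ?_, fun w hw hwk => ?_⟩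
  · rw [← deriv_F hq]
    exact (hz i hi).2.2.2.1
  · exact (hz i (by omega)).2.1.trans (hz (i + 1) (by omega)).1
  · obtain ⟨i, hi, h1⟩ := hall (k + 1) le_rfl w (hwk.trans (hz k le_rfl).2.1.le) hw
    exact ⟨i, by omega, h1⟩

end SokalIn
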