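import Pool.Agent.Lib_MP_af4de1_in.T8Asm
import Pool.Agent.Lib_MP_af4de1_in.Local

/-!
# The corner `q = 1` [IN-T9]

By contradiction: `q n → 1`, `‖q n‖ ≤ 1`, `q n ≠ 1`, without such `z`.  Replacing `q n` by its conjugate
we may assume `0 ≤ Im (q n)`; `t n = -log (q n)`: `Re ≥ 0`, `Im ≤ 0`, `t n → 0`, `t n ≠ 0`; a subsequence with `‖t n‖/t n → u0`
(compactness of the unit circle); `seq_first`.
-/

namespace SokalIn

open Complex Filter Topology SokalF

/-- `q` is fine at the corner -/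
def TipOK (k : ℕ) (q : ℂ) : Prop :=
  ∃ z : ℕ → ℂ, First q k z ∧ ∀ i < k, ‖z i‖ < ‖q‖ * ‖z (i + 1)‖

theorem TipOK.conj {k : ℕ} {q : ℂ} (h : TipOK k q) : TipOK k ((starRingEnd ℂ) q) := by
  obtain ⟨z, h1, h2⟩ := h
  refine ⟨_, h1.conj, fun i hi => ?_⟩
  simp only [Complex.norm_conj]
  exact h2 i hi

private theorem tp_upper (k : ℕ) : ∃ ε > 0, ∀ q : ℂ, ‖q‖ ≤ 1 → q ≠ 1 → 0 ≤ q.im → ‖q - 1‖ < ε →
    TipOK k q := by
  by_contra hcon
  push Not at hcon
  have h1 : ∀ n : ℕ, ∃ q : ℂ, ‖q‖ ≤ 1 ∧ q ≠ 1 ∧ 0 ≤ q.im ∧ ‖q - 1‖ < 1 / ((n : ℝ) + 2) ∧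
      ¬ TipOK k q := by
    intro n
    obtain ⟨q, a, b, c, d, e⟩ := hcon (1 / ((n : ℝ) + 2)) (by positivity)
    exact ⟨q, a, b, c, d, e⟩
  choose q hq1 hq2 hq3 hq4 hq5 using h1
  have hlim : Tendsto q atTop (𝓝 1) := by
    rw [tendsto_iff_norm_sub_tendsto_zero]
    refine squeeze_zero (fun n => norm_nonneg _) (fun n => (hq4 n).le) ?_
    have := (tendsto_const_div_atTop_nhds_zero_nat (1 : ℝ)).comp (tendsto_add_atTop_nat 2)
    refine this.congr fun n => ?_
    simp
  have hq0 : ∀ n, q n ≠ 0 := by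
    intro n h0
    have := hq4 n
    rw [h0, zero_sub, norm_neg, norm_one] at this
    have h2 : 1 / ((n : ℝ) + 2) ≤ 1 / 2 := by
      apply div_le_div_of_nonneg_left _ _ _ <;> norm_num
    linarith
  set t : ℕ → ℂ := fun n => -Complex.log (q n) with ht
  have hexp : ∀ n, cexp (-t n) = q n := fun n => by
    rw [ht]
    simp only [neg_neg]
    exact Complex.exp_log (hq0 n)
  have htlim : Tendsto t atTop (𝓝 0) := by
    have h1 : ContinuousAt Complex.log 1 := continuousAt_clog (by simp)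
    have := (h1.tendsto.comp hlim).neg
    simpa using this
  have htne : ∀ n, t n ≠ 0 := by
    intro n h0
    have := hexp n
    rw [h0, neg_zero, Complex.exp_zero] at this
    exact hq2 n this.symm
  have htre : ∀ n, 0 ≤ (t n).re := by
    intro n
    rw [ht]
    simp only [Complex.neg_re, Complex.log_re]
    rw [neg_nonneg]
    exact Real.log_nonpos (norm_nonneg _) (hq1 n)
  have htim : ∀ n, (t n).im ≤ 0 := by
    intro n
    rw [ht]
    simp only [Complex.neg_im, Complex.log_im]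
    rw [neg_nonpos]
    exact Complex.arg_nonneg_iff.2 (hq3 n)
  -- a convergent subsequence of the directions
  set y : ℕ → ℂ := fun n => (‖t n‖ : ℂ) / t n with hy
  have hyb : ∀ n, y n ∈ Metric.closedBall (0 : ℂ) 1 := by
    intro n
    rw [mem_closedBall_zero_iff, hy]
    simp only [norm_div, norm_real, norm_norm]
    exact div_self_le_one _
  obtain ⟨u0, _, φ, hφ, hlim'⟩ := tendsto_subseq_of_bounded
    (Metric.isBounded_closedBall (x := (0 : ℂ)) (r := 1)) hyb
  have hev := SokalV.seq_first (t := t ∘ φ) (u0 := u0) (fun n => htne _) (fun n => htre _)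
    (fun n => htim _) (htlim.comp hφ.tendsto_atTop) hlim' k
  obtain ⟨n, z, h1, h2⟩ := hev.exists
  refine hq5 (φ n) ⟨z, ?_, ?_⟩
  · have := h1
    rw [Function.comp_apply, hexp] at this
    exact this
  · intro i hi
    have := h2 i hi
    rwa [Function.comp_apply, hexp] at this

theorem tip (k : ℕ) : TIP k := by
  obtain ⟨ε, hε, h⟩ := tp_upper k
  refine ⟨ε, hε, fun q h1 h2 h3 => ?_⟩
  rcases le_total 0 q.im with h4 | h4
  · exact h q h1 h2 h4 h3
  · have := h ((starRingEnd ℂ) q) (by rwa [Complex.norm_conj]) (fun h5 => ?_) (by simpa using h4) ?_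
    · have h6 := this.conj
      rwa [Complex.conj_conj] at h6
    · apply h2
      have h6 := congrArg (starRingEnd ℂ) h5
      simpa using h6
    · have h6 : (starRingEnd ℂ) q - 1 = (starRingEnd ℂ) (q - 1) := by simp
      rwa [h6, Complex.norm_conj]

end SokalIn
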