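import Pool.Agent.Lib_MP_af4de1_in.Inf
import Pool.Agent.Lib_MP_af4de1_in.T9Tip
import Pool.Agent.Lib_MP_af4de1_in.Final
import Pool.Agent.Lib_MP_af4de1_in.Glue
import Pool.Agent.Lib_MP_af4de1_hd.DDisc

/-!
# The interior of the disc

If for all `|q| = 1`, `q ≠ 1`, the zeros of `F(·;q)` are simple and have distinct moduli, then this
is true for all `0 < |q| < 1`.  The same for the first `k + 1` zeros.
-/

set_option autoImplicit false

open Complex Set Filter Topology SokalF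

namespace SokalIn

/-- **Level `k`**: if the first `k + 1` zeros are simple and of increasing moduli on the circle, then
also inside. -/
theorem interior_level (k : ℕ) (hk : ∀ q : ℂ, ‖q‖ = 1 → q ≠ 1 → ∃ z, First q k z) {q : ℂ}
    (hq0 : 0 < ‖q‖) (hq1 : ‖q‖ < 1) : ∃ z, First q k z := by
  obtain ⟨ρ, h1, h2, h3, z, hz⟩ := exists_circ' hk (tip k) hq1
  obtain ⟨z', hz'⟩ := SokalHD.good_of_circ h2 h3 hz (norm_pos_iff.1 hq0) h1.le
  obtain ⟨g1, g2, g3⟩ := hz'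
  refine ⟨z', fun i hi => (g1 i (by omega)).1, fun i hi => (g1 i (by omega)).2,
    fun i hi => g2 i (i + 1) (by omega) (by omega), fun w hw hwk => ?_⟩
  rcases g3 w hw with ⟨i, hi, h⟩ | h
  · exact ⟨i, by omega, h⟩
  · exact absurd (h k (by omega)) (not_lt.2 hwk)

/-- **The interior.** -/
theorem interior_dist (H : ∀ q : ℂ, ‖q‖ = 1 → q ≠ 1 → Dist q) {q : ℂ} (hq0 : 0 < ‖q‖)
    (hq1 : ‖q‖ < 1) : Dist q := by
  obtain ⟨g1, g2⟩ := SokalHD.good_disc (fun p hp hp1 k => exists_first hp hp1 (H p hp hp1) k) tip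
    (norm_pos_iff.1 hq0) hq1
  refine ⟨fun z hz => ?_, g2⟩
  rw [← deriv_F hq1.le]
  exact g1 z hz

/-- the closed disc without `q = 0, 1` -/
theorem closed_dist (H : ∀ q : ℂ, ‖q‖ = 1 → q ≠ 1 → Dist q) {q : ℂ} (hq0 : 0 < ‖q‖)
    (hq1 : ‖q‖ ≤ 1) (hne : q ≠ 1) : Dist q := by
  rcases hq1.lt_or_eq with h | h
  · exact interior_dist H hq0 h
  · exact H q h hne

theorem F_one (z : ℂ) : F 1 z = cexp z := by
  unfold F
  rw [Complex.exp_eq_exp_ℂ, NormedSpace.exp_eq_tsum_div]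
  refine tsum_congr fun k => ?_
  rw [one_pow, one_mul]

/-- all zeros are simple -/
theorem interior (H : ∀ q : ℂ, ‖q‖ = 1 → q ≠ 1 → Dist q) (q : ℂ) (hq0 : 0 < ‖q‖)
    (hq1 : ‖q‖ ≤ 1) (z : ℂ) (hz : F q z = 0) : F q (q * z) ≠ 0 := by
  by_cases h : q = 1
  · rw [h, F_one] at hz
    exact absurd hz (Complex.exp_ne_zero _)
  · exact (closed_dist H hq0 hq1 h).1 z hz

/-- **The frozen statement from the upper arc.** -/
theorem frozen_of_arc (h : ∀ α : ℝ, 0 < α → α ≤ Real.pi → Dist (cexp (α * I))) (q : ℂ)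
    (hq0 : 0 < ‖q‖) (hq1 : ‖q‖ ≤ 1) (z : ℂ)
    (hz : (∑' k : ℕ, q ^ (k * (k - 1) / 2) * z ^ k / (Nat.factorial k : ℂ)) = 0) :
    deriv (fun w : ℂ => ∑' k : ℕ, q ^ (k * (k - 1) / 2) * w ^ k / (Nat.factorial k : ℂ)) z ≠ 0 :=
  frozen_of hq1 (fun z hz => interior (circle_of_arc h) q hq0 hq1 z hz) z hz

/-- **The frozen statement from single circles** `(α, r)`. -/
theorem frozen_of_fu (h : ∀ α : ℝ, 0 < α → α ≤ Real.pi → ∀ r : ℝ, 0 < r → SokalFU.Dist α r)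
    (q : ℂ) (hq0 : 0 < ‖q‖) (hq1 : ‖q‖ ≤ 1) (z : ℂ)
    (hz : (∑' k : ℕ, q ^ (k * (k - 1) / 2) * z ^ k / (Nat.factorial k : ℂ)) = 0) :
    deriv (fun w : ℂ => ∑' k : ℕ, q ^ (k * (k - 1) / 2) * w ^ k / (Nat.factorial k : ℂ)) z ≠ 0 :=
  frozen_of_arc (fun α h1 h2 => dist_of_fu (h α h1 h2)) q hq0 hq1 z hz

end SokalIn
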