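import Mathlib

/-!
# Division by a zero depending continuously on a parameter

If `f θ` is entire and `f θ w` is jointly continuous, so are `deriv (f θ) w` and
`dslope (f θ) (a θ) w`.
-/

set_option autoImplicit false

namespace SokalIn

open Filter Topology Complex

variable {X : Type*} [TopologicalSpace X]

theorem continuous_deriv_par {f : X → ℂ → ℂ} (hc : Continuous (Function.uncurry f))
    (hd : ∀ x, Differentiable ℂ (f x)) :
    Continuous (Function.uncurry fun x w => deriv (f x) w) := by
  have h1 : ∀ p : X × ℂ, Function.uncurry (fun x w => deriv (f x) w) p =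
      ∫ t in (0 : ℝ)..(2 * Real.pi), (2 * Real.pi : ℂ)⁻¹ *
        (f p.1 (p.2 + cexp (t * I)) * cexp (-(t * I))) := by
    rintro ⟨x, w⟩
    have h2 := (hd x).diffContOnCl.deriv_eq_smul_circleIntegral (c := w) (R := 1) one_pos
    simp only [Function.uncurry_apply_pair]
    have hpi : (Real.pi : ℂ) ≠ 0 := by exact_mod_cast Real.pi_ne_zero
    have h20 : (2 * Real.pi * I : ℂ) ≠ 0 := by simp [hpi, I_ne_zero]
    rw [smul_eq_mul] at h2
    have h21 : deriv (f x) w = (2 * Real.pi * I : ℂ)⁻¹ *
        ∮ z in C(w, 1), (1 / (z - w) ^ 2) • f x z := by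
      rw [h2]
      field_simp
    rw [h21, circleIntegral, ← intervalIntegral.integral_const_mul]
    refine intervalIntegral.integral_congr fun t _ => ?_
    have h3 : cexp (t * I) ≠ 0 := exp_ne_zero _
    simp only [deriv_circleMap, circleMap, ofReal_one, one_mul, smul_eq_mul, zero_add,
      add_sub_cancel_left]
    rw [exp_neg]
    field_simp
  have h5 : Function.uncurry (fun x w => deriv (f x) w) = fun p : X × ℂ =>
      ∫ t in (0 : ℝ)..(2 * Real.pi), (2 * Real.pi : ℂ)⁻¹ *
        (f p.1 (p.2 + cexp (t * I)) * cexp (-(t * I))) := funext h1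
  rw [h5]
  refine intervalIntegral.continuous_parametric_intervalIntegral_of_continuous' ?_ _ _
  have h6 : Continuous fun y : (X × ℂ) × ℝ => (y.1.1, y.1.2 + cexp (y.2 * I)) := by fun_prop
  have h7 := hc.comp h6
  have h8 : Continuous fun y : (X × ℂ) × ℝ => cexp (-((y.2 : ℂ) * I)) := by fun_prop
  exact continuous_const.mul (h7.mul h8)

theorem dslope_eq_integral {f : ℂ → ℂ} (hf : Differentiable ℂ f) (a w : ℂ) :
    dslope f a w = ∫ s in (0 : ℝ)..1, deriv f (a + s * (w - a)) := by
  have hdf : Continuous (deriv f) := hf.contDiff (n := 1) |>.continuous_deriv le_rfl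
  by_cases hw : w = a
  · subst hw
    rw [dslope_same]
    simp
  · rw [dslope_of_ne _ hw, slope_def_field]
    have hwa : w - a ≠ 0 := sub_ne_zero.2 hw
    have h1 : ∀ s : ℝ, HasDerivAt (fun s : ℝ => f (a + s * (w - a)))
        (deriv f (a + s * (w - a)) * (w - a)) s := by
      intro s
      have h2 : HasDerivAt (fun s : ℝ => a + (s : ℂ) * (w - a)) (w - a) s := by
        have h3 := (Complex.ofRealCLM.hasDerivAt (x := s)).mul_const (w - a)
        simpa using h3.const_add a
      exact (hf _).hasDerivAt.comp_of_eq s h2 rfl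
    have h3 : Continuous fun s : ℝ => deriv f (a + s * (w - a)) * (w - a) := by fun_prop
    have h4 := intervalIntegral.integral_eq_sub_of_hasDerivAt (a := 0) (b := 1)
      (fun s _ => h1 s) (h3.intervalIntegrable _ _)
    rw [intervalIntegral.integral_mul_const] at h4
    rw [div_eq_iff hwa, h4]
    simp

theorem continuous_dslope_par {f : X → ℂ → ℂ} (hc : Continuous (Function.uncurry f))
    (hd : ∀ x, Differentiable ℂ (f x)) {a : X → ℂ} (ha : Continuous a) :
    Continuous (Function.uncurry fun x w => dslope (f x) (a x) w) := by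
  have h5 : Function.uncurry (fun x w => dslope (f x) (a x) w) = fun p : X × ℂ =>
      ∫ s in (0 : ℝ)..1, deriv (f p.1) (a p.1 + s * (p.2 - a p.1)) := by
    funext p
    exact dslope_eq_integral (hd p.1) _ _
  rw [h5]
  refine intervalIntegral.continuous_parametric_intervalIntegral_of_continuous' ?_ _ _
  have h6 : Continuous fun y : (X × ℂ) × ℝ => (y.1.1, a y.1.1 + y.2 * (y.1.2 - a y.1.1)) := by
    fun_prop
  exact (continuous_deriv_par hc hd).comp h6

theorem differentiable_dslope {f : ℂ → ℂ} (hf : Differentiable ℂ f) (a : ℂ) :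
    Differentiable ℂ (dslope f a) := by
  have := (Complex.differentiableOn_dslope (s := Set.univ) (f := f) (c := a) Filter.univ_mem).2
    hf.differentiableOn
  exact differentiableOn_univ.1 this

end SokalIn
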