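import Pool.Agent.Lib_MP_af4de1_in.SepK

/-!
# The separating circle (note 2384 (2))

If on the circle `|q| = ρ < 1` the first `k + 1` zeros are simple with increasing moduli, continuous, periodic, and
`-z_i q^i` (`i < k`) has a continuous periodic logarithm, then for all `0 < |q| ≤ ρ` some circle about `0` has exactly `k`
zeros of `F(.;q)` inside and none on it.
-/

set_option autoImplicit false

namespace SokalIn

open Complex Set Filter Topology SokalF Metric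

theorem qq_eq {ρ : ℝ} (hρ : 0 < ρ) (θ : ℝ) : qq ρ θ 1 = cp ρ θ := by
  unfold qq cp
  rw [Complex.ofReal_one, one_mul, Complex.exp_add, ← Complex.ofReal_exp, Real.exp_log hρ]

private theorem diffF {q : ℂ} (hq : ‖q‖ ≤ 1) : Differentiable ℂ (F q) := fun z =>
  (hasDerivAt_F hq z).differentiableAt

private theorem First.lt {q : ℂ} {k : ℕ} {z : ℕ → ℂ} (h : First q k z) {i i' : ℕ} (hi : i < i')
    (hi' : i' ≤ k) : ‖z i‖ < ‖z i'‖ := by
  induction i' with
  | zero => omega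
  | succ n ih =>
    have h1 := h.mono n (by omega)
    rcases Nat.lt_succ_iff_lt_or_eq.1 hi with h2 | h2
    · exact (ih h2 (by omega)).trans h1
    · rw [h2]; exact h1

private theorem First.ne {q : ℂ} {k : ℕ} {z : ℕ → ℂ} (h : First q k z) {i : ℕ} (hi : i ≤ k) :
    z i ≠ 0 := by
  intro h0
  have h1 := h.zero i hi
  rw [h0, F_zero] at h1
  exact one_ne_zero h1

private theorem First.inj {q : ℂ} {k : ℕ} {z : ℕ → ℂ} (h : First q k z) {i i' : ℕ} (hi : i ≤ k)
    (hi' : i' ≤ k) (he : z i = z i') : i = i' := by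
  rcases lt_trichotomy i i' with h1 | h1 | h1
  · have := h.lt h1 hi'
    rw [he] at this
    exact absurd this (lt_irrefl _)
  · exact h1
  · have := h.lt h1 hi
    rw [he] at this
    exact absurd this (lt_irrefl _)

/-- the quotient has no zero before the next zero -/
private theorem quot_ne {q : ℂ} (hq : ‖q‖ ≤ 1) {j : ℕ} {z : ℕ → ℂ} (h : First q (j + 1) z) {g : ℂ → ℂ}
    (hg : Differentiable ℂ g) (hfg : ∀ u, F q u = (∏ i ∈ Finset.range (j + 1), (u - z i)) * g u)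
    {u : ℂ} (hu : ‖u‖ < ‖z (j + 1)‖) : g u ≠ 0 := by
  intro h0
  have h1 : F q u = 0 := by rw [hfg, h0, mul_zero]
  obtain ⟨i, hi, hui⟩ := h.complete u h1 hu.le
  have hi' : i < j + 1 := by
    rcases Nat.lt_or_ge i (j + 1) with h2 | h2
    · exact h2
    · have h3 : i = j + 1 := le_antisymm hi h2
      rw [hui, h3] at hu
      exact absurd hu (lt_irrefl _)
  have hA : ∏ i ∈ Finset.range (j + 1), (u - z i) = 0 :=
    Finset.prod_eq_zero (Finset.mem_range.2 hi') (by rw [hui, sub_self])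
  have hAd : Differentiable ℂ fun u => ∏ i ∈ Finset.range (j + 1), (u - z i) := by fun_prop
  have hder : HasDerivAt (F q) 0 u := by
    have h4 : F q = fun u => (∏ i ∈ Finset.range (j + 1), (u - z i)) * g u := funext hfg
    have h3 : HasDerivAt (fun u => (∏ i ∈ Finset.range (j + 1), (u - z i)) * g u)
        (deriv (fun u => ∏ i ∈ Finset.range (j + 1), (u - z i)) u * g u +
          (∏ i ∈ Finset.range (j + 1), (u - z i)) * deriv g u) u :=
      (hAd u).hasDerivAt.mul (hg u).hasDerivAt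
    rw [h0, hA, mul_zero, zero_mul, add_zero] at h3
    rw [h4]
    exact h3
  have h5 := (hasDerivAt_F hq u).unique hder
  rw [hui] at h5
  exact h.simple i hi h5

private theorem w0_kernel {j : ℕ} {ρ : ℝ} (hρ0 : 0 < ρ) (hρ1 : ρ < 1) {z : ℝ → ℕ → ℂ}
    (first : ∀ θ, First (cp ρ θ) (j + 1) (z θ))
    (cont : ∀ i ≤ j + 1, Continuous fun θ => z θ i)
    (per : ∀ i ≤ j + 1, ∀ θ, z (θ + 2 * Real.pi) i = z θ i)
    (hW : ∀ i < j + 1, W0 fun θ => -z θ i * (cp ρ θ) ^ i)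
    {g : ℝ → ℂ → ℂ} (hg : ∀ θ, Differentiable ℂ (g θ))
    (hfg : ∀ θ u, F (cp ρ θ) u = (∏ i ∈ Finset.range (j + 1), (u - z θ i)) * g θ u)
    (P : Polynomial ℂ) {ε : ℂ} (hε : ‖ε‖ = 1)
    (hv1 : ∀ θ, ‖z θ j‖ < Real.exp (P.eval (cp ρ θ)).re / ρ ^ j)
    (hv2 : ∀ θ, Real.exp (P.eval (cp ρ θ)).re / ρ ^ j < ‖z θ (j + 1)‖) :
    W0 fun θ => K j (cp ρ θ) (ε * cexp (P.eval (cp ρ θ))) := by
  have hnc : ∀ θ, ‖cp ρ θ‖ = ρ := norm_cp hρ0.le
  have hc0 : ∀ θ, cp ρ θ ≠ 0 := fun θ => by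
    rw [← norm_pos_iff, hnc]; exact hρ0
  have hε0 : ε ≠ 0 := by rw [← norm_pos_iff, hε]; exact one_pos
  have hcc : Continuous (cp ρ) := continuous_cp ρ
  have hpc : Continuous fun θ => P.eval (cp ρ θ) := P.continuous.comp hcc
  set v : ℝ → ℂ := fun θ => ε * cexp (P.eval (cp ρ θ)) / (cp ρ θ) ^ j with hv
  have hvn : ∀ θ, ‖v θ‖ = Real.exp (P.eval (cp ρ θ)).re / ρ ^ j := by
    intro θ
    rw [hv]
    simp only
    rw [norm_div, norm_mul, hε, one_mul, norm_pow, hnc, Complex.norm_exp]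
  have hv0 : ∀ θ, v θ ≠ 0 := fun θ => by
    rw [← norm_pos_iff, hvn]; exact (norm_nonneg _).trans_lt (hv1 θ)
  have hvc : Continuous v := by
    refine Continuous.div ?_ (hcc.pow j) fun θ => pow_ne_zero _ (hc0 θ)
    exact continuous_const.mul hpc.cexp
  have hvp : ∀ θ, v (θ + 2 * Real.pi) = v θ := by
    intro θ
    simp only [hv, cp_period]
  have hzc : ∀ i ∈ Finset.range (j + 1), Continuous fun θ => z θ i := fun i hi =>
    cont i (by rw [Finset.mem_range] at hi; omega)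
  have hzp : ∀ i ∈ Finset.range (j + 1), ∀ θ, z (θ + 2 * Real.pi) i = z θ i := fun i hi =>
    per i (by rw [Finset.mem_range] at hi; omega)
  have hzn : ∀ i ∈ Finset.range (j + 1), ∀ θ, z θ i ≠ 0 := fun i hi θ =>
    (first θ).ne (by rw [Finset.mem_range] at hi; omega)
  have hzj : ∀ i ∈ Finset.range (j + 1), ∀ θ, ‖z θ i‖ ≤ ‖z θ j‖ := by
    intro i hi θ
    rw [Finset.mem_range] at hi
    rcases Nat.lt_or_ge i j with h | h
    · exact ((first θ).lt h (by omega)).le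
    · rw [show i = j by omega]
  -- periodicity of `g`
  have hgp : ∀ θ, g (θ + 2 * Real.pi) = g θ := by
    intro θ
    refine div_unique (k := j + 1) (a := z θ) (hg _).continuous (hg _).continuous fun u => ?_
    rw [← hfg θ u, ← cp_period ρ θ, hfg (θ + 2 * Real.pi) u]
    congr 1
    exact Finset.prod_congr rfl fun i hi => by rw [hzp i hi θ]
  -- joint continuity of `g`
  have hFc : Continuous fun p : ℝ × ℂ => F (cp ρ p.1) p.2 := by
    refine continuousOn_F.comp_continuous (f := fun p : ℝ × ℂ => (cp ρ p.1, p.2)) (by fun_prop) ?_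
    intro p
    show ‖cp ρ p.1‖ ≤ 1
    rw [hnc]
    exact hρ1.le
  have hgc : Continuous fun p : ℝ × ℂ => g p.1 p.2 := by
    refine joint_cont hg fun θ₀ R₀ => ⟨max R₀ ‖z θ₀ j‖ + 1, ?_, ?_, fun u hu => ?_⟩
    · exact (le_max_left _ _).trans_lt (lt_add_one _)
    · have := (norm_nonneg (z θ₀ j)).trans (le_max_right R₀ ‖z θ₀ j‖)
      linarith
    · have hAc : Continuous fun p : ℝ × ℂ => ∏ i ∈ Finset.range (j + 1), (p.2 - z p.1 i) :=
        continuous_finsetProd _ fun i hi => continuous_snd.sub ((hzc i hi).comp continuous_fst)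
      have hA0 : ∏ i ∈ Finset.range (j + 1), (u - z θ₀ i) ≠ 0 := by
        refine Finset.prod_ne_zero_iff.2 fun i hi h => ?_
        have h1 := hzj i hi θ₀
        rw [← sub_eq_zero.1 h, hu] at h1
        linarith [le_max_right R₀ ‖z θ₀ j‖]
      have hev : (fun p : ℝ × ℂ => g p.1 p.2) =ᶠ[𝓝 (θ₀, u)] fun p =>
          F (cp ρ p.1) p.2 / ∏ i ∈ Finset.range (j + 1), (p.2 - z p.1 i) := by
        have h1 : ∀ᶠ p : ℝ × ℂ in 𝓝 (θ₀, u), ∏ i ∈ Finset.range (j + 1), (p.2 - z p.1 i) ≠ 0 :=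
          hAc.continuousAt.eventually_ne hA0
        filter_upwards [h1] with p hp
        rw [eq_div_iff hp, hfg, mul_comm]
      exact (hFc.continuousAt.div hAc.continuousAt hA0).congr hev.symm
  -- the four factors
  have hA : W0 fun θ => (∏ i ∈ Finset.range (j + 1), (-z θ i)) * g θ (v θ) := by
    have h1 := W0.homotopy01 (H := fun p : ℝ × ℝ =>
      (∏ i ∈ Finset.range (j + 1), (-z p.1 i)) * g p.1 (p.2 * v p.1)) ?_ ?_ ?_ ?_
    · simpa using h1
    · refine Continuous.continuousOn (Continuous.mul ?_ ?_)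
      · exact continuous_finsetProd _ fun i hi => ((hzc i hi).comp continuous_fst).neg
      · exact hgc.comp (Continuous.prodMk continuous_fst ((Complex.continuous_ofReal.comp
          continuous_snd).mul (hvc.comp continuous_fst)))
    · intro θ s hs
      refine mul_ne_zero (Finset.prod_ne_zero_iff.2 fun i hi => neg_ne_zero.2 (hzn i hi θ)) ?_
      refine quot_ne (by rw [hnc]; exact hρ1.le) (first θ) (hg θ) (hfg θ) ?_
      show ‖(s : ℂ) * v θ‖ < _
      rw [norm_mul, Complex.norm_real, Real.norm_of_nonneg hs.1, hvn]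
      refine lt_of_le_of_lt ?_ (hv2 θ)
      exact mul_le_of_le_one_left (by positivity) hs.2
    · intro θ s _
      show (∏ i ∈ Finset.range (j + 1), (-z (θ + 2 * Real.pi) i)) *
        g (θ + 2 * Real.pi) (s * v (θ + 2 * Real.pi)) = _
      rw [hgp, hvp]
      congr 1
      exact Finset.prod_congr rfl fun i hi => by rw [hzp i hi θ]
    · refine (W0.const (one_ne_zero)).congr fun θ => ?_
      show (∏ i ∈ Finset.range (j + 1), (-z θ i)) * g θ ((0 : ℝ) * v θ) = 1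
      rw [Complex.ofReal_zero, zero_mul]
      have h2 := hfg θ 0
      rw [F_zero] at h2
      simp only [zero_sub] at h2
      exact h2.symm
  have hB : W0 fun θ => ∏ i ∈ Finset.range (j + 1), (1 - z θ i / v θ) := by
    refine W0.prod _ fun i hi => ?_
    have h1 := W0.homotopy01 (H := fun p : ℝ × ℝ => 1 - p.2 * (z p.1 i / v p.1)) ?_ ?_ ?_ ?_
    · simpa using h1
    · refine Continuous.continuousOn ?_
      refine continuous_const.sub ((Complex.continuous_ofReal.comp continuous_snd).mul ?_)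
      exact ((hzc i hi).comp continuous_fst).div (hvc.comp continuous_fst) fun p => hv0 p.1
    · intro θ s hs h
      have h2 : (s : ℂ) * (z θ i / v θ) = 1 := (sub_eq_zero.1 h).symm
      have h3 : ‖(s : ℂ) * (z θ i / v θ)‖ < 1 := by
        rw [norm_mul, Complex.norm_real, Real.norm_of_nonneg hs.1, norm_div]
        have h4 : ‖z θ i‖ / ‖v θ‖ < 1 := by
          rw [div_lt_one (norm_pos_iff.2 (hv0 θ)), hvn]
          exact (hzj i hi θ).trans_lt (hv1 θ)
        have h5 : 0 ≤ ‖z θ i‖ / ‖v θ‖ := by positivity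
        nlinarith [hs.1, hs.2]
      rw [h2, norm_one] at h3
      exact lt_irrefl _ h3
    · intro θ s _
      show 1 - s * (z (θ + 2 * Real.pi) i / v (θ + 2 * Real.pi)) = _
      rw [hvp, hzp i hi θ]
    · refine (W0.const (one_ne_zero)).congr fun θ => ?_
      simp
  have hC : W0 fun θ => (ε * cexp (P.eval (cp ρ θ))) ^ (j + 1) := by
    have h1 : W0 fun θ => cexp (((j + 1 : ℕ) : ℂ) * (Complex.log ε + P.eval (cp ρ θ))) := by
      refine W0.of_exp ?_ ?_
      · exact continuous_const.mul (continuous_const.add hpc)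
      · intro θ
        rw [cp_period]
    refine h1.congr fun θ => ?_
    rw [Complex.exp_nat_mul, Complex.exp_add, Complex.exp_log hε0]
  have hD : W0 fun θ => (∏ i ∈ Finset.range (j + 1), (-z θ i * (cp ρ θ) ^ i))⁻¹ :=
    (W0.prod _ fun i hi => hW i (Finset.mem_range.1 hi)).inv
  refine (((hC.mul hD).mul hB).mul hA).congr fun θ => ?_
  rw [K_eq j (hc0 θ)]
  have hwv : ε * cexp (P.eval (cp ρ θ)) / (cp ρ θ) ^ j = v θ := rfl
  have hw : ε * cexp (P.eval (cp ρ θ)) = v θ * (cp ρ θ) ^ j := by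
    rw [← hwv, div_mul_cancel₀ _ (pow_ne_zero _ (hc0 θ))]
  rw [hwv, hfg θ (v θ), hw]
  have h1 : ∏ i ∈ Finset.range (j + 1), (1 - z θ i / v θ) =
      (∏ i ∈ Finset.range (j + 1), (v θ - z θ i)) / v θ ^ (j + 1) := by
    have h2 : ∏ i ∈ Finset.range (j + 1), (1 - z θ i / v θ) =
        ∏ i ∈ Finset.range (j + 1), ((v θ - z θ i) / v θ) :=
      Finset.prod_congr rfl fun i _ => by
        have := hv0 θ
        field_simp
    rw [h2, Finset.prod_div_distrib, Finset.prod_const, Finset.card_range]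
  have h2 : ∏ i ∈ Finset.range (j + 1), (-z θ i * (cp ρ θ) ^ i) =
      (∏ i ∈ Finset.range (j + 1), (-z θ i)) * (cp ρ θ) ^ (j * (j + 1) / 2) := by
    rw [Finset.prod_mul_distrib, Finset.prod_pow_eq_pow_sum, Finset.sum_range_id,
      Nat.add_sub_cancel, mul_comm (j + 1) j]
  have h3 : ∏ i ∈ Finset.range (j + 1), (-z θ i) ≠ 0 :=
    Finset.prod_ne_zero_iff.2 fun i hi => neg_ne_zero.2 (hzn i hi θ)
  have h4 : j * (j + 1) / 2 + j * (j + 1) / 2 = j * (j + 1) := by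
    have h5 : 2 ∣ j * (j + 1) := (Nat.even_mul_succ_self j).two_dvd
    omega
  have h5 : ((cp ρ θ) ^ j) ^ (j + 1) = (cp ρ θ) ^ (j * (j + 1) / 2) * (cp ρ θ) ^ (j * (j + 1) / 2) := by
    rw [← pow_mul, ← pow_add, h4]
  have h6 : (cp ρ θ) ^ (j * (j + 1) / 2) ≠ 0 := pow_ne_zero _ (hc0 θ)
  have h7 : v θ ^ (j + 1) ≠ 0 := pow_ne_zero _ (hv0 θ)
  rw [h1, h2, mul_pow, h5]
  field_simp

/-- the kernel has no zeros, so no circle `|u| = |R(q)|` meets a zero -/
private theorem circle_free {j : ℕ} {ρ : ℝ} (hρ0 : 0 < ρ) (hρ1 : ρ < 1) (P : Polynomial ℂ)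
    (hW : ∀ ε : ℂ, ‖ε‖ = 1 → W0 fun θ => K j (cp ρ θ) (ε * cexp (P.eval (cp ρ θ)))) {q u : ℂ}
    (hq0 : 0 < ‖q‖) (hq1 : ‖q‖ ≤ ρ) (hu : ‖u‖ = Real.exp (P.eval q).re / ‖q‖ ^ j) : F q u ≠ 0 := by
  have hq : q ≠ 0 := norm_pos_iff.1 hq0
  set ε := u * q ^ j / cexp (P.eval q) with hε
  have hqj : 0 < ‖q‖ ^ j := pow_pos hq0 j
  have hε1 : ‖ε‖ = 1 := by
    rw [hε, norm_div, norm_mul, norm_pow, hu, Complex.norm_exp]
    field_simp
  have h1 := ne_zero_of_w0 (U := ball (0 : ℂ) 1) isOpen_ball (convex_ball _ _).isPreconnected hρ0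
    (closedBall_subset_ball hρ1) (G := fun q => K j q (ε * cexp (P.eval q)))
    (K_diff j P.differentiable ε) (hW ε hε1) q hq1
  intro h0
  refine h1 ?_
  show K j q (ε * cexp (P.eval q)) = 0
  rw [K_eq j hq]
  have h2 : ε * cexp (P.eval q) / q ^ j = u := by
    rw [hε, div_mul_cancel₀ _ (Complex.exp_ne_zero _), mul_div_assoc,
      div_self (pow_ne_zero _ hq), mul_one]
  rw [h2, h0, mul_zero]

private theorem fac_zero {q : ℂ} (hq : ‖q‖ ≤ 1) : ∃ r, 0 < r ∧ Fac univ (F q) r 0 := by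
  have hc : ContinuousAt (F q) 0 := (diffF hq).continuous.continuousAt
  have h1 : ∀ᶠ u in 𝓝 (0 : ℂ), F q u ≠ 0 := hc.eventually_ne (by rw [F_zero]; exact one_ne_zero)
  obtain ⟨r, hr, hr'⟩ := Metric.eventually_nhds_iff.1 h1
  refine ⟨r / 2, by linarith, fun i => i.elim0, F q, fun i => i.elim0,
    (diffF hq).differentiableOn, fun u hu => hr' ?_, fun u _ => by simp⟩
  rw [dist_zero_right]
  linarith

private theorem contF {s : Set (ℝ × ℝ)} {a b : ℝ × ℝ → ℂ} (ha : ContinuousOn a s)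
    (hb : ContinuousOn b s) (h1 : ∀ p ∈ s, ‖a p‖ ≤ 1) : ContinuousOn (fun p => F (a p) (b p)) s := by
  have h2 : ContinuousOn (fun p => (a p, b p)) s := ha.prodMk hb
  have h3 : MapsTo (fun p => (a p, b p)) s {p : ℂ × ℂ | ‖p.1‖ ≤ 1} := by
    intro p hp
    show ‖a p‖ ≤ 1
    exact h1 p hp
  have h4 := ContinuousOn.comp continuousOn_F h2 h3
  have h5 : ((fun p : ℂ × ℂ => F p.1 p.2) ∘ fun p => (a p, b p)) = fun p => F (a p) (b p) := by
    funext p
    rw [Function.comp_apply]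
  rw [← h5]
  exact h4

theorem sep {k : ℕ} {ρ : ℝ} (hρ0 : 0 < ρ) (hρ1 : ρ < 1) {z : ℝ → ℕ → ℂ}
    (first : ∀ θ, First (qq ρ θ 1) k (z θ)) (cont : ∀ i ≤ k, Continuous fun θ => z θ i)
    (per : ∀ i ≤ k, ∀ θ, z (θ + 2 * Real.pi) i = z θ i)
    (hW : ∀ i < k, W0 fun θ => -z θ i * (qq ρ θ 1) ^ i) {q : ℂ} (hq0 : 0 < ‖q‖) (hq1 : ‖q‖ ≤ ρ) :
    ∃ r, 0 < r ∧ Fac univ (F q) r k := by
  rcases k with - | j
  · exact fac_zero (hq1.trans hρ1.le)
  simp only [qq_eq hρ0] at first hW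
  have hnc : ∀ θ, ‖cp ρ θ‖ = ρ := norm_cp hρ0.le
  have hcc : Continuous (cp ρ) := continuous_cp ρ
  -- the quotients
  have hex : ∀ θ, ∃ g : ℂ → ℂ, Differentiable ℂ g ∧
      ∀ u, F (cp ρ θ) u = (∏ i ∈ Finset.range (j + 1), (u - z θ i)) * g u := by
    intro θ
    refine exists_div (diffF (by rw [hnc]; exact hρ1.le)) (j + 1) (z θ)
      (fun i hi => (first θ).zero i hi.le) fun i hi i' hi' h => (first θ).inj hi.le hi'.le h
  choose g hg hfg using hex
  -- the polynomial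
  obtain ⟨s, hs⟩ : ∃ s : ℕ → ℝ → ℝ, s = fun i θ => Real.log ‖z θ i‖ + j * Real.log ρ := ⟨_, rfl⟩
  have hsc : ∀ i ≤ j + 1, Continuous (s i) := by
    intro i hi
    rw [hs]
    refine Continuous.add (Continuous.log (cont i hi).norm fun θ => ?_) continuous_const
    exact norm_ne_zero_iff.2 ((first θ).ne hi)
  have hsp : ∀ i ≤ j + 1, ∀ θ, s i (θ + 2 * Real.pi) = s i θ := by
    intro i hi θ
    simp only [hs, per i hi θ]
  have hsub : sphere (0 : ℂ) ρ ⊆ {q | q ≠ 0} := by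
    intro q hq h
    rw [mem_sphere_zero_iff_norm, h, norm_zero] at hq
    linarith
  obtain ⟨P, hP⟩ := poly_between hρ0 (a := fun q => s j q.arg) (b := fun q => s (j + 1) q.arg)
    ((continuousOn_arg (hsc j (by omega)) (hsp j (by omega))).mono hsub)
    ((continuousOn_arg (hsc (j + 1) le_rfl) (hsp (j + 1) le_rfl)).mono hsub) (by
      intro q hq
      have h1 := (first q.arg).lt (Nat.lt_succ_self j) le_rfl
      have h2 : 0 < ‖z q.arg j‖ := norm_pos_iff.2 ((first q.arg).ne (by omega))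
      simp only [hs]
      linarith [Real.log_lt_log h2 h1])
  have hargs : ∀ i ≤ j + 1, ∀ θ, s i (cp ρ θ).arg = s i θ := by
    intro i hi θ
    refine periodic_arg (hsp i hi) ?_
    have h0 : cp ρ θ ≠ 0 := by rw [← norm_pos_iff, hnc]; exact hρ0
    rw [exp_arg h0, hnc]
    unfold cp
    rw [mul_div_assoc, mul_comm, div_mul_cancel₀]
    exact_mod_cast hρ0.ne'
  have hρj : ∀ θ, Real.exp (P.eval (cp ρ θ)).re / ρ ^ j =
      Real.exp ((P.eval (cp ρ θ)).re - j * Real.log ρ) := by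
    intro θ
    rw [Real.exp_sub, Real.exp_nat_mul, Real.exp_log hρ0]
  have hv1 : ∀ θ, ‖z θ j‖ < Real.exp (P.eval (cp ρ θ)).re / ρ ^ j := by
    intro θ
    have h1 := (hP (cp ρ θ) (hnc θ)).1
    rw [hargs j (by omega)] at h1
    have h2 : 0 < ‖z θ j‖ := norm_pos_iff.2 ((first θ).ne (by omega))
    rw [hρj, ← Real.exp_log h2, Real.exp_lt_exp]
    simp only [hs] at h1
    linarith
  have hv2 : ∀ θ, Real.exp (P.eval (cp ρ θ)).re / ρ ^ j < ‖z θ (j + 1)‖ := by
    intro θ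
    have h1 := (hP (cp ρ θ) (hnc θ)).2
    rw [hargs (j + 1) le_rfl] at h1
    have h2 : 0 < ‖z θ (j + 1)‖ := norm_pos_iff.2 ((first θ).ne le_rfl)
    rw [hρj, ← Real.exp_log h2, Real.exp_lt_exp]
    simp only [hs] at h1
    linarith
  have hW0 : ∀ ε : ℂ, ‖ε‖ = 1 → W0 fun θ => K j (cp ρ θ) (ε * cexp (P.eval (cp ρ θ))) :=
    fun ε hε => w0_kernel hρ0 hρ1 first cont per hW hg hfg P hε hv1 hv2
  -- the path from the circle to `q`
  obtain ⟨R, hR⟩ : ∃ R : ℂ → ℝ, R = fun q => Real.exp (P.eval q).re / ‖q‖ ^ j := ⟨_, rfl⟩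
  obtain ⟨c, hc⟩ : ∃ c : ℝ → ℝ, c = fun s => 1 + (1 - s) * (ρ / ‖q‖ - 1) := ⟨_, rfl⟩
  obtain ⟨Q, hQ⟩ : ∃ Q : ℝ → ℂ, Q = fun s => q * (c s : ℂ) := ⟨_, rfl⟩
  have hc1 : 1 ≤ ρ / ‖q‖ := by rwa [one_le_div hq0]
  have hcpos : ∀ s ∈ Icc (0 : ℝ) 1, 1 ≤ c s := by
    intro s hs
    simp only [hc]
    nlinarith [hs.1, hs.2]
  have hcle : ∀ s ∈ Icc (0 : ℝ) 1, c s ≤ ρ / ‖q‖ := by
    intro s hs
    simp only [hc]
    nlinarith [hs.1, hs.2]
  have hQn : ∀ s ∈ Icc (0 : ℝ) 1, ‖Q s‖ = ‖q‖ * c s := by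
    intro s hs
    simp only [hQ]
    rw [norm_mul, Complex.norm_real, Real.norm_of_nonneg (by linarith [hcpos s hs])]
  have hQ0 : ∀ s ∈ Icc (0 : ℝ) 1, 0 < ‖Q s‖ := by
    intro s hs
    rw [hQn s hs]
    exact mul_pos hq0 (by linarith [hcpos s hs])
  have hQ1 : ∀ s ∈ Icc (0 : ℝ) 1, ‖Q s‖ ≤ ρ := by
    intro s hs
    rw [hQn s hs]
    have := hcle s hs
    rwa [le_div_iff₀' hq0] at this
  have hQc : Continuous Q := by
    simp only [hQ, hc]
    fun_prop
  have hQ_0 : Q 0 = cp ρ q.arg := by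
    have h1 := exp_arg (norm_pos_iff.1 hq0)
    simp only [hQ, hc]
    unfold cp
    rw [h1]
    have h2 : (‖q‖ : ℂ) ≠ 0 := by exact_mod_cast hq0.ne'
    push_cast
    field_simp
    ring
  have hQ_1 : Q 1 = q := by
    simp only [hQ, hc]
    push_cast
    ring
  have h0mem : (0 : ℝ) ∈ Icc (0 : ℝ) 1 := ⟨le_rfl, zero_le_one⟩
  have hRpos : ∀ s ∈ Icc (0 : ℝ) 1, 0 < R (Q s) := fun s hs => by
    simp only [hR]
    have := hQ0 s hs
    positivity
  -- start
  have hfac0 : Fac univ (F (Q 0)) (R (Q 0)) (j + 1) := by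
    rw [hQ_0]
    have hR0 : R (cp ρ q.arg) = Real.exp (P.eval (cp ρ q.arg)).re / ρ ^ j := by
      simp only [hR, hnc]
    refine ⟨fun i => z q.arg i, g q.arg, fun i => ?_, (hg _).differentiableOn, fun u hu => ?_,
      fun u _ => ?_⟩
    · rw [hR0]
      refine lt_of_le_of_lt ?_ (hv1 q.arg)
      show ‖z q.arg i.1‖ ≤ ‖z q.arg j‖
      rcases Nat.lt_or_ge i.1 j with h | h
      · exact ((first q.arg).lt h (by omega)).le
      · rw [show (i : ℕ) = j by omega]
    · refine quot_ne (by rw [hnc]; exact hρ1.le) (first q.arg) (hg _) (hfg _) ?_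
      rw [hR0] at hu
      exact hu.trans_lt (hv2 _)
    · rw [hfg q.arg u, Finset.prod_range]
  have hw0 := hfac0.w0 (hRpos 0 h0mem) (subset_univ _)
  -- homotopy
  have hcpc : Continuous fun p : ℝ × ℝ => cp p.2 p.1 := by
    unfold cp
    fun_prop
  have hcontQ : ContinuousOn (fun p : ℝ × ℝ => R (Q p.2)) (univ ×ˢ Icc 0 1) := by
    simp only [hR]
    refine ContinuousOn.div ?_ ?_ fun p hp => (pow_pos (hQ0 p.2 hp.2) j).ne'
    · exact (Real.continuous_exp.comp (Complex.continuous_re.comp (P.continuous.comp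
        (hQc.comp continuous_snd)))).continuousOn
    · exact ((hQc.comp continuous_snd).norm.pow j).continuousOn
  obtain ⟨H, hH⟩ : ∃ H : ℝ × ℝ → ℂ, H = fun p : ℝ × ℝ => F (Q p.2) (cp (R (Q p.2)) p.1) *
    cexp (-(((j + 1 : ℕ) : ℂ) * p.1 * I)) := ⟨_, rfl⟩
  have hHc : ContinuousOn H (univ ×ˢ Icc 0 1) := by
    rw [hH]
    refine ContinuousOn.mul ?_ (Continuous.continuousOn (by fun_prop))
    refine contF (a := fun p : ℝ × ℝ => Q p.2) (b := fun p : ℝ × ℝ => cp (R (Q p.2)) p.1)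
      (hQc.comp continuous_snd).continuousOn ?_ fun p hp => ?_
    · exact hcpc.comp_continuousOn (continuousOn_fst.prodMk hcontQ)
    · exact (hQ1 p.2 hp.2).trans hρ1.le
  have hH0 : ∀ t, ∀ s ∈ Icc (0 : ℝ) 1, H (t, s) ≠ 0 := by
    intro t s hs
    rw [hH]
    refine mul_ne_zero ?_ (Complex.exp_ne_zero _)
    refine circle_free hρ0 hρ1 P hW0 (hQ0 s hs) (hQ1 s hs) ?_
    show ‖cp (R (Q s)) t‖ = _
    rw [norm_cp (hRpos s hs).le, hR]
  have hHp : ∀ t, ∀ s ∈ Icc (0 : ℝ) 1, H (t + 2 * Real.pi, s) = H (t, s) := by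
    intro t s _
    rw [hH]
    show F (Q s) (cp (R (Q s)) (t + 2 * Real.pi)) * cexp (-(((j + 1 : ℕ) : ℂ) *
      ((t + 2 * Real.pi : ℝ) : ℂ) * I)) = F (Q s) (cp (R (Q s)) t) * cexp (-(((j + 1 : ℕ) : ℂ) * t * I))
    rw [cp_period]
    congr 1
    rw [Complex.exp_eq_exp_iff_exists_int]
    refine ⟨-((j + 1 : ℕ) : ℤ), ?_⟩
    push_cast
    ring
  have hHs : W0 fun t => H (t, 0) := hw0.congr fun t => by rw [hH]
  have h1 : W0 fun t => H (t, 1) := W0.homotopy01 hHc hH0 hHp hHs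
  have h2 : W0 fun t => F q (cp (R q) t) * cexp (-(((j + 1 : ℕ) : ℂ) * t * I)) :=
    h1.congr fun t => by rw [hH]; simp only [hQ_1]
  have hRq : 0 < R q := by
    have := hRpos 1 ⟨zero_le_one, le_rfl⟩
    rwa [hQ_1] at this
  exact ⟨R q, hRq, fac_of_w0 isOpen_univ isPreconnected_univ hRq (subset_univ _)
    (diffF (hq1.trans hρ1.le)).differentiableOn h2⟩

end SokalIn
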