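import Pool.Agent.Lib_MP_af4de1_in.Defs
import Pool.Agent.Lib_MP_af4de1_in.ArgP
import Pool.Agent.Lib_MP_af4de1_in.Fac

/-!
# Separation: the kernel `K j q w = q^(j(j+1)/2) F(q, w/q^j)`, division by simple zeros, joint continuity
-/

set_option autoImplicit false

namespace SokalIn

open Complex Set Filter Topology SokalF Metric

/-! ### the kernel -/

def ee (j n : ℕ) : ℕ := n * (n - 1) / 2 + j * (j + 1) / 2 - j * n

theorem ee_add (j n : ℕ) : ee j n + j * n = n * (n - 1) / 2 + j * (j + 1) / 2 := by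
  have h : j * n ≤ n * (n - 1) / 2 + j * (j + 1) / 2 := by
    have h1 : 2 ∣ n * (n - 1) := (Nat.even_mul_pred_self n).two_dvd
    have h2 : 2 ∣ j * (j + 1) := (Nat.even_mul_succ_self j).two_dvd
    obtain ⟨a, ha⟩ := h1
    obtain ⟨b, hb⟩ := h2
    rw [ha, hb, Nat.mul_div_cancel_left _ two_pos, Nat.mul_div_cancel_left _ two_pos]
    rcases Nat.eq_zero_or_pos n with hn | hn
    · subst hn; simp
    obtain ⟨m, rfl⟩ : ∃ m, n = m + 1 := ⟨n - 1, by omega⟩
    rw [Nat.add_sub_cancel] at ha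
    have h3 : 2 * (j * (m + 1)) ≤ 2 * (a + b) := by
      rw [mul_add 2 a b, ← ha, ← hb]
      rcases le_total j m with h | h
      · obtain ⟨d, rfl⟩ := Nat.exists_eq_add_of_le h
        nlinarith
      · obtain ⟨d, rfl⟩ := Nat.exists_eq_add_of_le h
        have hd : d ≤ d * d := Nat.le_mul_self d
        nlinarith
    omega
  unfold ee
  omega

noncomputable def K (j : ℕ) (q w : ℂ) : ℂ := ∑' n : ℕ, q ^ ee j n * w ^ n / (Nat.factorial n : ℂ)

theorem K_eq (j : ℕ) {q : ℂ} (hq : q ≠ 0) (w : ℂ) :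
    K j q w = q ^ (j * (j + 1) / 2) * F q (w / q ^ j) := by
  unfold K F
  rw [← tsum_mul_left]
  refine tsum_congr fun n => ?_
  have h1 : q ^ ee j n * q ^ (j * n) = q ^ (n * (n - 1) / 2) * q ^ (j * (j + 1) / 2) := by
    rw [← pow_add, ← pow_add, ee_add]
  have h2 : q ^ (j * n) ≠ 0 := pow_ne_zero _ hq
  have h3 : (Nat.factorial n : ℂ) ≠ 0 := by exact_mod_cast Nat.factorial_ne_zero n
  rw [div_pow, ← pow_mul]
  field_simp
  linear_combination w ^ n * h1

theorem K_diff (j : ℕ) {P : ℂ → ℂ} (hP : Differentiable ℂ P) (c : ℂ) :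
    DifferentiableOn ℂ (fun q => K j q (c * exp (P q))) (ball 0 1) := by
  obtain ⟨M, hM⟩ := (isCompact_closedBall (0 : ℂ) 1).exists_bound_of_continuousOn
    (f := fun q => c * exp (P q)) (continuous_const.mul hP.continuous.cexp).continuousOn
  unfold K
  refine differentiableOn_tsum_of_summable_norm (u := fun n => M ^ n / (Nat.factorial n : ℝ))
    (Real.summable_pow_div_factorial M) (fun n => ?_) isOpen_ball fun n q hq => ?_
  · refine DifferentiableOn.div_const (DifferentiableOn.mul ?_ ?_) _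
    · exact (differentiable_id.pow _).differentiableOn
    · exact (((hP.cexp).const_mul c).pow _).differentiableOn
  · have hq1 : ‖q‖ ≤ 1 := (mem_ball_zero_iff.1 hq).le
    have hw := hM q (mem_closedBall_zero_iff.2 hq1)
    rw [norm_div, norm_mul, norm_pow, norm_pow, Complex.norm_natCast]
    refine div_le_div_of_nonneg_right ?_ (by positivity)
    calc ‖q‖ ^ ee j n * ‖c * exp (P q)‖ ^ n ≤ 1 * M ^ n := by
          refine mul_le_mul (pow_le_one₀ (norm_nonneg _) hq1)
            (pow_le_pow_left₀ (norm_nonneg _) hw _) (by positivity) zero_le_one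
      _ = M ^ n := one_mul _

/-! ### division -/

theorem exists_div {f : ℂ → ℂ} (hf : Differentiable ℂ f) (k : ℕ) (a : ℕ → ℂ)
    (ha : ∀ i < k, f (a i) = 0) (hinj : ∀ i < k, ∀ j < k, a i = a j → i = j) :
    ∃ g : ℂ → ℂ, Differentiable ℂ g ∧ ∀ u, f u = (∏ i ∈ Finset.range k, (u - a i)) * g u := by
  induction k with
  | zero => exact ⟨f, hf, by simp⟩
  | succ k ih =>
    obtain ⟨g, hg, hfg⟩ := ih (fun i hi => ha i (by omega))
      (fun i hi j hj h => hinj i (by omega) j (by omega) h)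
    have h0 : g (a k) = 0 := by
      have h1 := hfg (a k)
      rw [ha k (by omega)] at h1
      refine (mul_eq_zero.1 h1.symm).resolve_left (Finset.prod_ne_zero_iff.2 fun i hi => ?_)
      rw [Finset.mem_range] at hi
      intro h
      have := hinj k (by omega) i (by omega) (sub_eq_zero.1 h)
      omega
    have hGH : ∀ z, g z = (z - a k) * dslope g (a k) z := by
      intro z
      have := sub_smul_dslope g (a k) z
      rw [h0, sub_zero, smul_eq_mul] at this
      exact this.symm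
    have hH : Differentiable ℂ (dslope g (a k)) := by
      have := (Complex.differentiableOn_dslope (s := Set.univ) (f := g) (c := a k)
        Filter.univ_mem).2 hg.differentiableOn
      exact differentiableOn_univ.1 this
    refine ⟨dslope g (a k), hH, fun u => ?_⟩
    rw [hfg u, hGH u, Finset.prod_range_succ, mul_assoc]

/-- uniqueness of the quotient -/
theorem div_unique {k : ℕ} {a : ℕ → ℂ} {g g' : ℂ → ℂ} (hg : Continuous g) (hg' : Continuous g')
    (h : ∀ u, (∏ i ∈ Finset.range k, (u - a i)) * g u =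
      (∏ i ∈ Finset.range k, (u - a i)) * g' u) : g = g' := by
  have hfin : (a '' {i | i < k}).Finite := (Set.finite_lt_nat k).image a
  have hd : Dense (a '' {i | i < k})ᶜ := hfin.countable.dense_compl ℝ
  refine Continuous.ext_on hd hg hg' fun u hu => ?_
  refine mul_left_cancel₀ (Finset.prod_ne_zero_iff.2 fun i hi => ?_) (h u)
  intro h0
  exact hu ⟨i, Finset.mem_range.1 hi, (sub_eq_zero.1 h0).symm⟩

/-! ### joint continuity -/

theorem joint_cont {G : ℝ → ℂ → ℂ} (hG : ∀ θ, Differentiable ℂ (G θ))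
    (h : ∀ θ₀ : ℝ, ∀ R₀ : ℝ, ∃ R, R₀ < R ∧ 0 < R ∧ ∀ u, ‖u‖ = R →
      ContinuousAt (fun p : ℝ × ℂ => G p.1 p.2) (θ₀, u)) :
    Continuous fun p : ℝ × ℂ => G p.1 p.2 := by
  rw [continuous_iff_continuousAt]
  rintro ⟨θ₀, u₀⟩
  obtain ⟨R, hR, hR0, hRc⟩ := h θ₀ ‖u₀‖
  rw [Metric.continuousAt_iff']
  intro ε hε
  have h1 : ∀ᶠ θ in 𝓝 θ₀, ∀ u ∈ sphere (0 : ℂ) R, ‖G θ u - G θ₀ u‖ < ε / 2 := by
    refine (isCompact_sphere (0 : ℂ) R).eventually_forall_of_forall_eventually fun u hu => ?_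
    have hc : ContinuousAt (fun p : ℝ × ℂ => ‖G p.1 p.2 - G θ₀ p.2‖) (θ₀, u) := by
      refine ((hRc u (mem_sphere_zero_iff_norm.1 hu)).sub ?_).norm
      exact ((hG θ₀).continuous.comp continuous_snd).continuousAt
    have h2 : Tendsto (fun p : ℝ × ℂ => ‖G p.1 p.2 - G θ₀ p.2‖) (𝓝 (θ₀, u)) (𝓝 0) := by
      have := hc.tendsto
      simpa using this
    exact h2.eventually_lt_const (by linarith)
  have h3 : ∀ᶠ θ in 𝓝 θ₀, ∀ v : ℂ, ‖v‖ < R → ‖G θ v - G θ₀ v‖ ≤ ε / 2 := by
    filter_upwards [h1] with θ hθ v hv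
    refine Complex.norm_le_of_forall_mem_frontier_norm_le (U := ball (0 : ℂ) R)
      (f := fun v => G θ v - G θ₀ v) isBounded_ball ?_ ?_ ?_
    · exact ((hG θ).sub (hG θ₀)).diffContOnCl
    · intro w hw
      rw [frontier_ball (0 : ℂ) hR0.ne'] at hw
      exact (hθ w hw).le
    · exact subset_closure (mem_ball_zero_iff.2 hv)
  have h4 : ∀ᶠ v in 𝓝 u₀, ‖G θ₀ v - G θ₀ u₀‖ < ε / 2 := by
    have hc : Tendsto (fun v => ‖G θ₀ v - G θ₀ u₀‖) (𝓝 u₀) (𝓝 ‖G θ₀ u₀ - G θ₀ u₀‖) :=
      (((hG θ₀).continuous.sub continuous_const).norm).tendsto u₀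
    rw [sub_self, norm_zero] at hc
    exact hc.eventually_lt_const (by linarith)
  have h5 : ∀ᶠ v in 𝓝 u₀, ‖v‖ < R :=
    (isOpen_lt continuous_norm continuous_const).eventually_mem hR
  rw [nhds_prod_eq]
  have h6 := h3.prod_mk (h4.and h5)
  filter_upwards [h6] with p hp
  rw [dist_eq_norm]
  calc ‖G p.1 p.2 - G θ₀ u₀‖ = ‖(G p.1 p.2 - G θ₀ p.2) + (G θ₀ p.2 - G θ₀ u₀)‖ := by ring_nf
    _ ≤ ‖G p.1 p.2 - G θ₀ p.2‖ + ‖G θ₀ p.2 - G θ₀ u₀‖ := norm_add_le _ _
    _ < ε := by linarith [hp.1 p.2 hp.2.2, hp.2.1]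

/-! ### periodic functions as functions of the argument -/

theorem periodic_arg {s : ℝ → ℝ} (hp : ∀ θ, s (θ + 2 * Real.pi) = s θ) {x y : ℝ}
    (h : cexp (x * I) = cexp (y * I)) : s x = s y := by
  obtain ⟨n, hn⟩ := Complex.exp_eq_exp_iff_exists_int.1 h
  have h1 : x = y + n * (2 * Real.pi) := by
    have h2 : ((x : ℂ) * I) = ((y + n * (2 * Real.pi) : ℝ) : ℂ) * I := by
      rw [hn]; push_cast; ring
    exact_mod_cast mul_right_cancel₀ I_ne_zero h2
  have hper : Function.Periodic s (2 * Real.pi) := hp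
  rw [h1]
  exact hper.int_mul n y

theorem exp_arg {q : ℂ} (hq : q ≠ 0) : cexp (q.arg * I) = q / ‖q‖ := by
  have h := Complex.norm_mul_exp_arg_mul_I q
  rw [eq_div_iff (by exact_mod_cast norm_ne_zero_iff.2 hq), mul_comm]
  exact h

theorem continuousOn_arg {s : ℝ → ℝ} (hs : Continuous s) (hp : ∀ θ, s (θ + 2 * Real.pi) = s θ) :
    ContinuousOn (fun q : ℂ => s q.arg) {q | q ≠ 0} := by
  intro q hq
  refine ContinuousAt.continuousWithinAt ?_
  have hq' : q ≠ 0 := hq
  by_cases h : q ∈ slitPlane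
  · exact hs.continuousAt.comp (continuousAt_arg h)
  · have h' : -q ∈ slitPlane := by
      rw [mem_slitPlane_iff] at h ⊢
      push Not at h
      left
      rw [neg_re]
      have h1 : q.re ≠ 0 := fun h1 => hq' (Complex.ext h1 h.2)
      have h2 := lt_of_le_of_ne h.1 h1
      linarith
    have heq : (fun q : ℂ => s q.arg) =ᶠ[𝓝 q] fun q => s ((-q).arg + Real.pi) := by
      filter_upwards [isOpen_ne.mem_nhds hq'] with w hw
      refine periodic_arg hp ?_
      have hw' : -w ≠ 0 := neg_ne_zero.2 hw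
      push_cast
      rw [add_mul, Complex.exp_add, exp_arg hw, exp_arg hw', Complex.exp_pi_mul_I, norm_neg]
      ring
    refine ContinuousAt.congr ?_ heq.symm
    refine hs.continuousAt.comp ?_
    have : ContinuousAt (fun q : ℂ => (-q).arg) q :=
      ContinuousAt.comp (g := arg) (continuousAt_arg h') continuous_neg.continuousAt
    exact this.add continuousAt_const

end SokalIn
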