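import Pool.Agent.Lib_MP_af4de1_v.Val1

/-!
# Two saddle points, precise form [IN-T1]

Model: `val_one_lim` (`Lib_MP_af4de1_v/Val1.lean`) and `val_two` (`Val.lean`): the contour between the tails
(`t1_va_main`), the chain `[S, S']` unfolded, `J n = P(S + v) - P(S - v)`, `J' n = P(S' + v') - P(S' - v')`.
-/

namespace SokalV

open Complex Filter Topology

/-- `K √τ exp(δ/τ) ≥ 1` for small `τ`. -/
private theorem t1_ev_sqrt {τ : ℕ → ℝ} (hτ : ∀ n, 0 < τ n) (hτ0 : Tendsto τ atTop (𝓝 0)) {K δ : ℝ}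
    (hK : 0 < K) (hδ : 0 < δ) : ∀ᶠ n in atTop, 1 ≤ K * √(τ n) * Real.exp (δ / τ n) := by
  have h1 : Tendsto (fun n => √(τ n)) atTop (𝓝 0) := by
    have := (Real.continuous_sqrt.tendsto 0).comp hτ0
    simpa [Function.comp_def] using this
  have h2 : ∀ᶠ n in atTop, √(τ n) < K * δ := h1.eventually_lt_const (by positivity)
  filter_upwards [h2] with n hn
  have hs : 0 < √(τ n) := Real.sqrt_pos.2 (hτ n)
  have hsq : √(τ n) * √(τ n) = τ n := Real.mul_self_sqrt (hτ n).le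
  have h3 : δ / τ n ≤ Real.exp (δ / τ n) := by
    have := Real.add_one_le_exp (δ / τ n)
    linarith
  calc (1 : ℝ) ≤ K * δ / √(τ n) := by rw [one_le_div hs]; exact hn.le
    _ = K * √(τ n) * (δ / τ n) := by
        rw [div_eq_iff hs.ne']
        calc K * δ = K * δ * (√(τ n) * √(τ n)) / τ n := by
              rw [hsq, mul_div_assoc, div_self (hτ n).ne', mul_one]
          _ = _ := by ring
    _ ≤ K * √(τ n) * Real.exp (δ / τ n) := by
        apply mul_le_mul_of_nonneg_left h3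
        positivity

/-- `C ≤ η exp(δ/τ)` for small `τ`. -/
private theorem t1_ev_exp {τ : ℕ → ℝ} (hτ : ∀ n, 0 < τ n) (hτ0 : Tendsto τ atTop (𝓝 0)) {C η δ : ℝ}
    (hη : 0 < η) (hδ : 0 < δ) : ∀ᶠ n in atTop, C ≤ η * Real.exp (δ / τ n) := by
  have h2 : ∀ᶠ n in atTop, τ n < η * δ / (|C| + 1) := hτ0.eventually_lt_const (by positivity)
  filter_upwards [h2] with n hn
  have h3 : δ / τ n ≤ Real.exp (δ / τ n) := by
    have := Real.add_one_le_exp (δ / τ n)
    linarith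
  have h4 : τ n * (|C| + 1) < η * δ := by
    rwa [lt_div_iff₀ (by positivity)] at hn
  calc C ≤ |C| + 1 := by linarith [le_abs_self C]
    _ ≤ η * (δ / τ n) := by
        rw [← mul_div_assoc, le_div_iff₀ (hτ n)]
        linarith
    _ ≤ η * Real.exp (δ / τ n) := mul_le_mul_of_nonneg_left h3 hη.le

private theorem t1_small_big {τ : ℕ → ℝ} (hτ : ∀ n, 0 < τ n) (hτ0 : Tendsto τ atTop (𝓝 0))
    {c c' : ℝ} (hc : c' < c) {J R : ℕ → ℂ} (hJ : Big τ c J) (hR : Small τ c' R) {η : ℝ}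
    (hη : 0 < η) : ∀ᶠ n in atTop, ‖R n‖ ≤ η * ‖J n‖ := by
  obtain ⟨C, hC⟩ := hR
  have hδ : 0 < (c - c') / 2 := by linarith
  filter_upwards [hC, hJ _ hδ, t1_ev_exp (C := C) hτ hτ0 hη hδ] with n h1 h2 h3
  have h4 : Real.exp ((c - (c - c') / 2) / τ n) =
      Real.exp (((c - c') / 2) / τ n) * Real.exp (c' / τ n) := by
    rw [← Real.exp_add]
    congr 1
    ring
  calc ‖R n‖ ≤ C * Real.exp (c' / τ n) := h1
    _ ≤ (η * Real.exp (((c - c') / 2) / τ n)) * Real.exp (c' / τ n) :=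
        mul_le_mul_of_nonneg_right h3 (Real.exp_pos _).le
    _ = η * Real.exp ((c - (c - c') / 2) / τ n) := by rw [h4]; ring
    _ ≤ η * ‖J n‖ := mul_le_mul_of_nonneg_left h2 hη.le

private theorem t1_small_add {τ : ℕ → ℝ} {c : ℝ} {R R' : ℕ → ℂ} (h : Small τ c R)
    (h' : Small τ c R') : Small τ c (fun n => R n + R' n) := by
  obtain ⟨C, hC⟩ := h
  obtain ⟨C', hC'⟩ := h'
  refine ⟨C + C', ?_⟩
  filter_upwards [hC, hC'] with n h1 h2
  calc ‖R n + R' n‖ ≤ ‖R n‖ + ‖R' n‖ := norm_add_le _ _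
    _ ≤ (C + C') * Real.exp (c / τ n) := by rw [add_mul]; exact add_le_add h1 h2

private theorem t1_conn_small (F : Fam) {c : ℝ} {A B : ℂ}
    (h : Conn (fun H => (F.u0 * F.Ψ0 H).re) c A B) :
    Small F.τ c (fun n => F.P n B - F.P n A) ∧ Small F.τ c (fun n => F.Q n B - F.Q n A) := by
  obtain ⟨C, hC⟩ := F.rel h
  exact ⟨⟨C, hC.mono fun n hn => hn.1⟩, ⟨C, hC.mono fun n hn => hn.2⟩⟩

private theorem t1_saddle_big (F : Fam) {c : ℝ} {S v : ℂ} (h : Sad F.u0 F.Ψ0 c S v) :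
    Big F.τ c (fun n => F.P n (S + v) - F.P n (S - v)) ∧
    (∀ ε : ℝ, 0 < ε → ∀ᶠ n in atTop,
      ‖F.Q n (S + v) - F.Q n (S - v) - F.w0 S * (F.P n (S + v) - F.P n (S - v))‖ ≤
        ε * ‖F.P n (S + v) - F.P n (S - v)‖) ∧
    ∃ (Sn : ℕ → ℂ) (c0 : ℂ), c0 ≠ 0 ∧ Tendsto Sn atTop (𝓝 S) ∧
      (∀ᶠ n in atTop, deriv (F.Ψ n) (Sn n) = 0) ∧
      Tendsto (fun n => (F.P n (S + v) - F.P n (S - v)) /
        (√(F.τ n) * cexp (F.u n * F.Ψ n (Sn n) / F.τ n))) atTop (𝓝 c0) := by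
  obtain ⟨Sn, c0, hc0, hSn, hcr, hl1, hl2⟩ := F.saddle h
  have hc0' : 0 < ‖c0‖ := norm_pos_iff.2 hc0
  have hD : ∀ n, 0 < ‖(√(F.τ n) : ℂ) * cexp (F.u n * F.Ψ n (Sn n) / F.τ n)‖ := by
    intro n
    rw [norm_pos_iff]
    refine mul_ne_zero ?_ (Complex.exp_ne_zero _)
    have : √(F.τ n) ≠ 0 := (Real.sqrt_pos.2 (F.hτ n)).ne'
    exact_mod_cast this
  have hDn : ∀ n, ‖(√(F.τ n) : ℂ) * cexp (F.u n * F.Ψ n (Sn n) / F.τ n)‖ =
      √(F.τ n) * Real.exp ((F.u n * F.Ψ n (Sn n)).re / F.τ n) := by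
    intro n
    rw [norm_mul, Complex.norm_exp, Complex.div_ofReal_re, Complex.norm_real, Real.norm_eq_abs,
      abs_of_nonneg (Real.sqrt_nonneg _)]
  have hJ : ∀ᶠ n in atTop, ‖c0‖ / 2 * ‖(√(F.τ n) : ℂ) * cexp (F.u n * F.Ψ n (Sn n) / F.τ n)‖ ≤
      ‖F.P n (S + v) - F.P n (S - v)‖ := by
    have h1 : ∀ᶠ n in atTop, ‖c0‖ / 2 < ‖(F.P n (S + v) - F.P n (S - v)) /
        (√(F.τ n) * cexp (F.u n * F.Ψ n (Sn n) / F.τ n))‖ :=
      hl1.norm.eventually_const_lt (by linarith)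
    filter_upwards [h1] with n hn
    rw [norm_div, lt_div_iff₀ (hD n)] at hn
    exact hn.le
  refine ⟨?_, ?_, Sn, c0, hc0, hSn, hcr, hl1⟩
  · intro ε hε
    have hcont : Continuous F.Ψ0 :=
      F.hΨlim.continuous (Eventually.of_forall fun n => (F.hΨ n).continuous).frequently
    have hlim : Tendsto (fun n => (F.u n * F.Ψ n (Sn n)).re) atTop (𝓝 c) := by
      have h1 : Tendsto (fun n => F.Ψ n (Sn n)) atTop (𝓝 (F.Ψ0 S)) :=
        F.hΨlim.tendsto_comp hcont.continuousAt hSn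
      have h2 := (Complex.continuous_re.tendsto _).comp (F.hulim.mul h1)
      rw [h.height] at h2
      exact h2
    have hre : ∀ᶠ n in atTop, c - ε / 2 < (F.u n * F.Ψ n (Sn n)).re :=
      hlim.eventually_const_lt (by linarith)
    filter_upwards [hJ, hre, t1_ev_sqrt F.hτ F.hτlim (K := ‖c0‖ / 2) (δ := ε / 2) (by positivity)
      (by positivity)] with n h1 h2 h3
    rw [hDn n] at h1
    refine le_trans ?_ h1
    have h4 : Real.exp ((c - ε / 2) / F.τ n) ≤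
        Real.exp ((F.u n * F.Ψ n (Sn n)).re / F.τ n) :=
      Real.exp_le_exp.2 (div_le_div_of_nonneg_right h2.le (F.hτ n).le)
    have h5 : Real.exp ((c - ε / 2) / F.τ n) =
        Real.exp (ε / 2 / F.τ n) * Real.exp ((c - ε) / F.τ n) := by
      rw [← Real.exp_add]
      congr 1
      ring
    calc Real.exp ((c - ε) / F.τ n) = 1 * Real.exp ((c - ε) / F.τ n) := (one_mul _).symm
      _ ≤ (‖c0‖ / 2 * √(F.τ n) * Real.exp (ε / 2 / F.τ n)) * Real.exp ((c - ε) / F.τ n) :=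
          mul_le_mul_of_nonneg_right h3 (Real.exp_pos _).le
      _ = ‖c0‖ / 2 * √(F.τ n) * Real.exp ((c - ε / 2) / F.τ n) := by rw [h5]; ring
      _ ≤ ‖c0‖ / 2 * √(F.τ n) * Real.exp ((F.u n * F.Ψ n (Sn n)).re / F.τ n) :=
          mul_le_mul_of_nonneg_left h4 (by positivity)
      _ = _ := by ring
  · intro ε hε
    have h1 : ∀ᶠ n in atTop, ‖(F.Q n (S + v) - F.Q n (S - v) -
        F.w0 S * (F.P n (S + v) - F.P n (S - v))) /
        (√(F.τ n) * cexp (F.u n * F.Ψ n (Sn n) / F.τ n))‖ < ε * (‖c0‖ / 2) := by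
      refine hl2.norm.eventually_lt_const ?_
      rw [norm_zero]
      positivity
    filter_upwards [h1, hJ] with n h2 h3
    rw [norm_div, div_lt_iff₀ (hD n)] at h2
    calc _ ≤ ε * (‖c0‖ / 2) * ‖(√(F.τ n) : ℂ) * cexp (F.u n * F.Ψ n (Sn n) / F.τ n)‖ := h2.le
      _ = ε * (‖c0‖ / 2 * ‖(√(F.τ n) : ℂ) * cexp (F.u n * F.Ψ n (Sn n) / F.τ n)‖) := by ring
      _ ≤ _ := mul_le_mul_of_nonneg_left h3 hε.le

/-- The contour integral up to the tails. -/
private theorem t1_va_main {t ζ : ℕ → ℂ} {ζ0 u0 : ℂ} (h : Par t ζ ζ0 u0) {c : ℝ} {L : List ℂ}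
    (hg : Good u0 ζ0 c L) : ∃ (F : Fam) (c' R : ℝ), F.w0 = (fun H => ζ0 * cexp H) ∧
      (∀ n, F.τ n = ‖t n‖) ∧ (∀ n, F.Ψ n = Ph (ζ n)) ∧
      (∀ n H, F.u n * F.Ψ n H / F.τ n = Ph (ζ n) H / t n) ∧ c' < c ∧
      Chain F.u0 F.Ψ0 c c' (-1 - R * I) L (1 + R * I) ∧
      Small (fun n => ‖t n‖) c' (fun n => Ev (t n) (ζ n) -
        (F.P n (1 + R * I) - F.P n (-1 - R * I))) ∧
      Small (fun n => ‖t n‖) c' (fun n => Dv (t n) (ζ n) -
        (F.Q n (1 + R * I) - F.Q n (-1 - R * I))) := by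
  obtain ⟨F, hΨ0, hw0, hu0, hτ, hu, hΨ, hw⟩ := exists_fam h
  obtain ⟨c', hc', R0, hR0⟩ := hg
  obtain ⟨R, hR1, hR2, hR3⟩ : ∃ R : ℝ, R0 ≤ R ∧ 1 ≤ R ∧ 2 * (1 / 2 + 3 * (‖ζ0‖ + 1) - c') ≤ R :=
    ⟨max (max R0 1) (2 * (1 / 2 + 3 * (‖ζ0‖ + 1) - c')), (le_max_left _ _).trans (le_max_left _ _),
      (le_max_right _ _).trans (le_max_left _ _), le_max_right _ _⟩
  have hch := hR0 R hR1
  rw [← hu0, ← hΨ0] at hch
  have hphase : ∀ n H, F.u n * F.Ψ n H / F.τ n = Ph (ζ n) H / t n := by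
    intro n H
    rw [hu, hΨ, hτ]
    have e1 : (‖t n‖ : ℂ) ≠ 0 := by exact_mod_cast norm_ne_zero_iff.2 (h.ne n)
    have e2 := h.ne n
    field_simp
  have hζ : ∀ᶠ n in atTop, ‖ζ n‖ ≤ ‖ζ0‖ + 1 := by
    have := h.zet.norm.eventually_lt_const (u := ‖ζ0‖ + 1) (by linarith)
    exact this.mono fun n hn => hn.le
  have ht1 : ∀ᶠ n in atTop, ‖t n‖ ≤ 1 := by
    have h5 := h.lim.norm
    rw [norm_zero] at h5
    exact (h5.eventually_lt_const (u := 1) one_pos).mono fun n hn => hn.le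
  have hexp : ∀ n, ‖ζ n‖ ≤ ‖ζ0‖ + 1 → Real.exp ((1 / 2 + 3 * ‖ζ n‖ - R / 2) / ‖t n‖) ≤
      Real.exp (c' / ‖t n‖) := by
    intro n k1
    apply Real.exp_le_exp.2
    apply div_le_div_of_nonneg_right _ (norm_nonneg _)
    linarith
  refine ⟨F, c', R, hw0, hτ, hΨ, hphase, hc', hch, ?_, ?_⟩
  · refine ⟨4, ?_⟩
    filter_upwards [hζ, ht1] with n k1 k2
    have hP : ∀ H, HasDerivAt (F.P n) (cexp (Ph (ζ n) H / t n)) H := by
      intro H
      have := F.hP n H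
      rwa [hphase] at this
    have hrep := rep_E (h.ne n) (h.re n) (h.im n) R hP
    have tp := (tail_pos (ζ := ζ n) (h.ne n) (h.re n) (h.im n) hR2).1
    have tn := (tail_neg (ζ := ζ n) (h.ne n) (h.re n) (h.im n) hR2).1
    have hb : 2 * ‖t n‖ * Real.exp ((1 / 2 + 3 * ‖ζ n‖ - R / 2) / ‖t n‖) ≤
        2 * Real.exp (c' / ‖t n‖) := by
      calc _ ≤ 2 * 1 * Real.exp (c' / ‖t n‖) := by
            have := hexp n k1
            gcongr
        _ = _ := by ring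
    have e : Ev (t n) (ζ n) - (F.P n (1 + R * I) - F.P n (-1 - R * I)) =
        (∫ s in Set.Ioi R, cexp (Ph (ζ n) (1 + s * I) / t n)) * I +
        (∫ s in Set.Iio (-R), cexp (Ph (ζ n) (-1 + s * I) / t n)) * I := by
      unfold Ev
      rw [hrep]; ring
    change ‖Ev (t n) (ζ n) - (F.P n (1 + R * I) - F.P n (-1 - R * I))‖ ≤ _
    rw [e]
    refine (norm_add_le _ _).trans ?_
    rw [norm_mul, norm_mul, norm_I, mul_one, mul_one]
    linarith
  · refine ⟨12 * (‖ζ0‖ + 1), ?_⟩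
    filter_upwards [hζ, ht1] with n k1 k2
    have hQ : ∀ H, HasDerivAt (F.Q n) (ζ n * cexp H * cexp (Ph (ζ n) H / t n)) H := by
      intro H
      have := F.hQ n H
      rw [hphase, hw] at this
      exact this
    have hrep := rep_DE (h.ne n) (h.re n) (h.im n) R hQ
    have tp := (tail_pos (ζ := ζ n) (h.ne n) (h.re n) (h.im n) hR2).2
    have tn := (tail_neg (ζ := ζ n) (h.ne n) (h.re n) (h.im n) hR2).2
    have hb : 6 * ‖ζ n‖ * ‖t n‖ * Real.exp ((1 / 2 + 3 * ‖ζ n‖ - R / 2) / ‖t n‖) ≤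
        6 * (‖ζ0‖ + 1) * Real.exp (c' / ‖t n‖) := by
      calc _ ≤ 6 * (‖ζ0‖ + 1) * 1 * Real.exp (c' / ‖t n‖) := by
            have := hexp n k1
            gcongr
        _ = _ := by ring
    have e : Dv (t n) (ζ n) - (F.Q n (1 + R * I) - F.Q n (-1 - R * I)) =
        (∫ s in Set.Ioi R, ζ n * cexp (1 + s * I) * cexp (Ph (ζ n) (1 + s * I) / t n)) * I +
        (∫ s in Set.Iio (-R), ζ n * cexp (-1 + s * I) * cexp (Ph (ζ n) (-1 + s * I) / t n)) * I := by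
      unfold Dv
      rw [hrep]; ring
    change ‖Dv (t n) (ζ n) - (F.Q n (1 + R * I) - F.Q n (-1 - R * I))‖ ≤ _
    rw [e]
    refine (norm_add_le _ _).trans ?_
    rw [norm_mul, norm_mul, norm_I, mul_one, mul_one]
    linarith

theorem val_two_lim {t ζ : ℕ → ℂ} {ζ0 u0 : ℂ} (h : Par t ζ ζ0 u0) {c : ℝ} {S S' : ℂ}
    (hg : Good u0 ζ0 c [S, S']) : ∃ (Sn Sn' J J' : ℕ → ℂ) (c' : ℝ) (c0 c0' : ℂ),
      c' < c ∧ c0 ≠ 0 ∧ c0' ≠ 0 ∧ Tendsto Sn atTop (𝓝 S) ∧ Tendsto Sn' atTop (𝓝 S') ∧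
      (∀ᶠ n in atTop, Sn n + ζ n * cexp (Sn n) = 0) ∧
      (∀ᶠ n in atTop, Sn' n + ζ n * cexp (Sn' n) = 0) ∧
      Big (fun n => ‖t n‖) c J ∧ Big (fun n => ‖t n‖) c J' ∧
      Tendsto (fun n => J n / (√‖t n‖ * cexp (Ph (ζ n) (Sn n) / t n))) atTop (𝓝 c0) ∧
      Tendsto (fun n => J' n / (√‖t n‖ * cexp (Ph (ζ n) (Sn' n) / t n))) atTop (𝓝 c0') ∧
      Small (fun n => ‖t n‖) c' (fun n => Ev (t n) (ζ n) - J n - J' n) ∧
      ∀ ε : ℝ, 0 < ε → ∀ᶠ n in atTop,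
        ‖Dv (t n) (ζ n) + S * J n + S' * J' n‖ ≤ ε * (‖J n‖ + ‖J' n‖) := by
  have hS := good_crit hg (S := S) (by simp)
  have hS' := good_crit hg (S := S') (by simp)
  obtain ⟨F, c', R, hw0, hτ, hΨ, hphase, hc', hch, hE, hD⟩ := t1_va_main h hg
  have hτ' : F.τ = fun n => ‖t n‖ := funext hτ
  have hw : F.w0 S = -S := by
    rw [hw0]
    linear_combination hS
  have hw' : F.w0 S' = -S' := by
    rw [hw0]
    linear_combination hS'
  rw [← hτ'] at hE hD ⊢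
  cases hch with
  | @cons _ _ _ v _ h1 h2 h3 =>
    cases h3 with
    | @cons _ _ _ v' _ h4 h5 h6 =>
      cases h6 with
      | nil h7 =>
        obtain ⟨hB, hQ, Sn, c0, hc0, hSn, hcr, hl⟩ := t1_saddle_big F h2
        obtain ⟨hB', hQ', Sn', c0', hc0', hSn', hcr', hl'⟩ := t1_saddle_big F h5
        obtain ⟨p1, q1⟩ := t1_conn_small F h1
        obtain ⟨p4, q4⟩ := t1_conn_small F h4
        obtain ⟨p7, q7⟩ := t1_conn_small F h7
        refine ⟨Sn, Sn', fun n => F.P n (S + v) - F.P n (S - v),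
          fun n => F.P n (S' + v') - F.P n (S' - v'), c', c0, c0', hc', hc0, hc0', hSn, hSn',
          hcr.mono fun n hn => ?_, hcr'.mono fun n hn => ?_, hB, hB', hl.congr fun n => ?_,
          hl'.congr fun n => ?_, ?_, fun ε hε => ?_⟩
        · rw [hΨ, deriv_Ph] at hn; exact hn
        · rw [hΨ, deriv_Ph] at hn; exact hn
        · rw [hphase, hτ]
        · rw [hphase, hτ]
        · obtain ⟨C, hC⟩ := t1_small_add (t1_small_add (t1_small_add p1 p4) p7) hE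
          refine ⟨C, ?_⟩
          filter_upwards [hC] with n hn
          refine le_trans (le_of_eq ?_) hn
          congr 1
          ring
        · filter_upwards [hQ (ε / 2) (by positivity), hQ' (ε / 2) (by positivity),
            t1_small_big F.hτ F.hτlim hc' hB (t1_small_add (t1_small_add (t1_small_add q1 q4) q7) hD)
              (η := ε / 2) (by positivity)] with n k1 k1' k2
          rw [hw] at k1
          rw [hw'] at k1'
          calc ‖Dv (t n) (ζ n) + S * (F.P n (S + v) - F.P n (S - v)) +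
                S' * (F.P n (S' + v') - F.P n (S' - v'))‖
              = ‖(F.Q n (S + v) - F.Q n (S - v) - -S * (F.P n (S + v) - F.P n (S - v))) +
                  (F.Q n (S' + v') - F.Q n (S' - v') -
                    -S' * (F.P n (S' + v') - F.P n (S' - v'))) +
                  (F.Q n (S - v) - F.Q n (-1 - R * I) + (F.Q n (S' - v') - F.Q n (S + v)) +
                    (F.Q n (1 + R * I) - F.Q n (S' + v')) +
                    (Dv (t n) (ζ n) - (F.Q n (1 + R * I) - F.Q n (-1 - R * I))))‖ := by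
                congr 1
                ring
            _ ≤ _ := norm_add₃_le
            _ ≤ _ := add_le_add (add_le_add k1 k1') k2
            _ ≤ ε * (‖F.P n (S + v) - F.P n (S - v)‖ + ‖F.P n (S' + v') - F.P n (S' - v')‖) := by
                nlinarith [norm_nonneg (F.P n (S + v) - F.P n (S - v)),
                  norm_nonneg (F.P n (S' + v') - F.P n (S' - v'))]

end SokalV
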