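import Pool.Agent.Lib_MP_af4de1_v.Val
import Pool.Agent.Lib_MP_af4de1_v.Tree

/-!
# The tree region in terms of `Ev`, `Dv`, and injectivity of `y e^y` on the disc [IN-T2]

`tree_EvDv`: `z = ζ/t e^{-t/2}`, `q = e^{-t}`: `‖1 - q‖ ≤ ‖t‖` for `Re t ≥ 0` (`1 - e^{-t} = ∫_0^1 t e^{-ts} ds`), `‖e^{-t/2}‖ ≤ 1`, so
`‖z‖‖1 - q‖ ≤ ‖ζ‖ < 1/e`: `tree`: `F(q;z) ≠ 0`, `F(q;qz) = e^y F(q;z)`, `‖y‖ < 1`; `Ev = F(z) κ`, `Dv = t z F(qz) κ`, `κ = (2πt)^{1/2} I ≠ 0`:
`‖Dv‖ = ‖t z‖ ‖e^y‖ ‖Ev‖ ≤ ‖ζ‖ e ‖Ev‖`.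
`exp_inj`: `y1 e^{y1} = y2 e^{y2}`, `‖y_i‖ ≤ 1`: `w = y2 - y1`; `y1 = y2 e^w`.
`y1 - y2 = y2 (e^w - 1) = y2 w ∫_0^1 e^{τ w} dτ`, so if `w ≠ 0` the integral of `y2 e^{τ w}` is `-1`, while `‖y2 e^{τ w}‖ ≤ 1`.
-/

namespace SokalV

open Complex Filter Topology

/-- `‖1 - e^{-t}‖ ≤ ‖t‖` for `Re t ≥ 0` -/
private theorem tr_norm {t : ℂ} (hre : 0 ≤ t.re) : ‖1 - cexp (-t)‖ ≤ ‖t‖ := by
  have h := Convex.norm_image_sub_le_of_norm_deriv_le (𝕜 := ℂ) (f := fun z : ℂ => cexp (-z))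
    (C := 1) (s := {z : ℂ | 0 ≤ z.re}) (x := t) (y := 0)
    (fun z _ => by fun_prop) (fun z hz => ?_) (convex_halfSpace_re_ge 0) hre (by simp)
  · simpa using h
  · have h1 : HasDerivAt (fun z : ℂ => cexp (-z)) (cexp (-z) * -1) z :=
      (hasDerivAt_neg z).cexp
    rw [h1.deriv, norm_mul, norm_neg, norm_one, mul_one, Complex.norm_exp, Complex.neg_re]
    exact Real.exp_le_one_iff.2 (neg_nonpos.2 hz)

theorem tree_EvDv {t ζ : ℂ} (ht : t ≠ 0) (hre : 0 ≤ t.re) (h : ‖ζ‖ < Real.exp (-1)) :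
    Ev t ζ ≠ 0 ∧ ‖Dv t ζ‖ ≤ ‖Ev t ζ‖ := by
  have ht0 : 0 < ‖t‖ := norm_pos_iff.2 ht
  have hq : ‖cexp (-t)‖ ≤ 1 := by
    rw [Complex.norm_exp, Complex.neg_re]
    exact Real.exp_le_one_iff.2 (neg_nonpos.2 hre)
  have hh : ‖cexp (-t / 2)‖ ≤ 1 := by
    rw [Complex.norm_exp]
    refine Real.exp_le_one_iff.2 ?_
    have : (-t / 2).re = -(t.re / 2) := by
      have e : -t / 2 = -((1 / 2 : ℝ) * t) := by push_cast; ring
      rw [e, Complex.neg_re, Complex.re_ofReal_mul]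
      ring
    rw [this]
    linarith
  set z : ℂ := ζ / t * cexp (-t / 2) with hz
  have htz : ‖t * z‖ ≤ ‖ζ‖ := by
    have e : t * z = ζ * cexp (-t / 2) := by
      rw [hz]
      field_simp
    rw [e, norm_mul]
    exact mul_le_of_le_one_right (norm_nonneg _) hh
  have h1 : ‖z‖ * ‖1 - cexp (-t)‖ < Real.exp (-1) := by
    refine lt_of_le_of_lt ?_ h
    calc ‖z‖ * ‖1 - cexp (-t)‖ ≤ ‖z‖ * ‖t‖ :=
          mul_le_mul_of_nonneg_left (tr_norm hre) (norm_nonneg _)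
      _ = ‖t * z‖ := by rw [norm_mul t z, mul_comm]
      _ ≤ ‖ζ‖ := htz
  obtain ⟨hne, y, hy, _, hF⟩ := tree hq h1
  have hκ : (2 * Real.pi * t) ^ (1 / 2 : ℂ) ≠ 0 := by
    rw [Ne, Complex.cpow_eq_zero_iff]
    push Not
    intro h2
    have hpi : (Real.pi : ℂ) ≠ 0 := by exact_mod_cast Real.pi_ne_zero
    exact absurd h2 (mul_ne_zero (mul_ne_zero two_ne_zero hpi) ht)
  have hE : Ev t ζ = SokalF.F (cexp (-t)) z * ((2 * Real.pi * t) ^ (1 / 2 : ℂ) * I) := by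
    unfold Ev SokalU.E
    rw [← hz]
    ring
  have hD : Dv t ζ = (t * z) * cexp y * Ev t ζ := by
    rw [hE]
    unfold Dv SokalU.DE SokalU.E
    rw [← hz, hF]
    ring
  refine ⟨?_, ?_⟩
  · rw [hE]
    exact mul_ne_zero hne (mul_ne_zero hκ Complex.I_ne_zero)
  · rw [hD, norm_mul, norm_mul]
    refine mul_le_of_le_one_left (norm_nonneg _) ?_
    have h3 : ‖cexp y‖ ≤ Real.exp 1 := by
      rw [Complex.norm_exp]
      exact Real.exp_le_exp.2 ((Complex.re_le_norm y).trans hy.le)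
    calc ‖t * z‖ * ‖cexp y‖ ≤ Real.exp (-1) * Real.exp 1 :=
          mul_le_mul (htz.trans h.le) h3 (norm_nonneg _) (Real.exp_pos _).le
      _ = 1 := by rw [← Real.exp_add]; simp

theorem exp_inj {y1 y2 : ℂ} (h1 : ‖y1‖ ≤ 1) (h2 : ‖y2‖ ≤ 1) (h : y1 * cexp y1 = y2 * cexp y2) :
    y1 = y2 := by
  by_contra hne
  -- the function `g τ = ‖y2 exp (τ w)‖`
  set w : ℂ := y2 - y1 with hw
  have hw0 : w ≠ 0 := fun h0 => hne (by rw [hw, sub_eq_zero] at h0; exact h0.symm)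
  have e1 : y1 = y2 * cexp w := by
    rw [hw, Complex.exp_sub, ← mul_div_assoc, ← h, mul_div_assoc, div_self (Complex.exp_ne_zero _),
      mul_one]
  -- the path
  have hint : ∫ τ in (0:ℝ)..1, y2 * cexp (τ * w) = -1 := by
    have hd : ∀ τ ∈ Set.uIcc (0:ℝ) 1, HasDerivAt (fun τ : ℝ => y2 * cexp (τ * w) / w)
        (y2 * cexp (τ * w)) τ := by
      intro τ _
      have h3 : HasDerivAt (fun s : ℂ => y2 * cexp (s * w) / w) (y2 * (cexp (τ * w) * w) / w) τ := by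
        have h4 : HasDerivAt (fun s : ℂ => s * w) w (τ : ℂ) := by
          simpa using (hasDerivAt_id (τ : ℂ)).mul_const w
        exact ((h4.cexp).const_mul y2).div_const w
      have h5 := h3.comp_ofReal
      have e : y2 * (cexp (τ * w) * w) / w = y2 * cexp (τ * w) := by field_simp
      rwa [e] at h5
    rw [intervalIntegral.integral_eq_sub_of_hasDerivAt hd
      ((by fun_prop : Continuous fun τ : ℝ => y2 * cexp (τ * w)).intervalIntegrable _ _)]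
    simp only [Complex.ofReal_one, one_mul, Complex.ofReal_zero, zero_mul, Complex.exp_zero, mul_one]
    rw [← e1, ← sub_div]
    have : y1 - y2 = -w := by rw [hw]; ring
    rw [this, neg_div, div_self hw0]
  -- every value has norm at most one
  have hle : ∀ τ ∈ Set.Icc (0:ℝ) 1, ‖y2 * cexp (τ * w)‖ ≤ 1 := by
    intro τ hτ
    have e2 : ‖y2 * cexp (τ * w)‖ = ‖y2‖ * Real.exp (τ * w.re) := by
      rw [norm_mul, Complex.norm_exp, Complex.re_ofReal_mul]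
    have e3 : ‖y1‖ = ‖y2‖ * Real.exp w.re := by
      rw [e1, norm_mul, Complex.norm_exp]
    rw [e2]
    rcases le_total 0 w.re with hc | hc
    · calc ‖y2‖ * Real.exp (τ * w.re) ≤ ‖y2‖ * Real.exp w.re := by
            refine mul_le_mul_of_nonneg_left (Real.exp_le_exp.2 ?_) (norm_nonneg _)
            nlinarith [hτ.2]
        _ ≤ 1 := by rw [← e3]; exact h1
    · calc ‖y2‖ * Real.exp (τ * w.re) ≤ ‖y2‖ * 1 := by
            refine mul_le_mul_of_nonneg_left (Real.exp_le_one_iff.2 ?_) (norm_nonneg _)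
            exact mul_nonpos_of_nonneg_of_nonpos hτ.1 hc
        _ ≤ 1 := by rw [mul_one]; exact h2
  -- real parts
  have hre : ∫ τ in (0:ℝ)..1, (1 + (y2 * cexp (τ * w)).re) = 0 := by
    have hc : Continuous fun τ : ℝ => y2 * cexp (τ * w) := by fun_prop
    have h3 : (∫ τ in (0:ℝ)..1, (y2 * cexp (τ * w)).re) = -1 := by
      have h4 := Complex.reCLM.intervalIntegral_comp_comm (μ := MeasureTheory.volume)
        (hc.intervalIntegrable 0 1)
      rw [hint] at h4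
      simpa using h4
    have hc2 : Continuous fun τ : ℝ => (y2 * cexp (τ * w)).re := by fun_prop
    rw [intervalIntegral.integral_add (continuous_const.intervalIntegrable _ _)
      (hc2.intervalIntegrable _ _), h3]
    simp
  have hcre : Continuous fun τ : ℝ => 1 + (y2 * cexp (τ * w)).re := by fun_prop
  have hnn : ∀ τ ∈ Set.Icc (0:ℝ) 1, 0 ≤ 1 + (y2 * cexp (τ * w)).re := by
    intro τ hτ
    have := Complex.abs_re_le_norm (y2 * cexp (τ * w))
    have h3 := hle τ hτ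
    linarith [(abs_le.1 this).1]
  have hz : ∀ τ ∈ Set.Icc (0:ℝ) 1, 1 + (y2 * cexp (τ * w)).re = 0 := by
    intro τ hτ
    by_contra hcon
    have hpos : 0 < 1 + (y2 * cexp (τ * w)).re := lt_of_le_of_ne (hnn τ hτ) (Ne.symm hcon)
    have := intervalIntegral.integral_pos (a := 0) (b := 1) one_pos hcre.continuousOn
      (fun x hx => hnn x ⟨hx.1.le, hx.2⟩) ⟨τ, hτ, hpos⟩
    linarith
  have hval : ∀ τ ∈ Set.Icc (0:ℝ) 1, y2 * cexp (τ * w) = -1 := by
    intro τ hτ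
    have h3 := hz τ hτ
    have h4 := hle τ hτ
    have h5 : (y2 * cexp (τ * w)).re = -1 := by linarith
    have h6 : (y2 * cexp (τ * w)).im = 0 := by
      have h7 := Complex.sq_norm (y2 * cexp (τ * w))
      rw [Complex.normSq_apply] at h7
      nlinarith [norm_nonneg (y2 * cexp (τ * w))]
    exact Complex.ext (by simpa using h5) (by simpa using h6)
  have v0 := hval 0 ⟨le_rfl, zero_le_one⟩
  have v1 := hval 1 ⟨zero_le_one, le_rfl⟩
  simp only [Complex.ofReal_zero, zero_mul, Complex.exp_zero, mul_one] at v0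
  simp only [Complex.ofReal_one, one_mul] at v1
  rw [← e1] at v1
  exact hne (v1.trans v0.symm)

end SokalV
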