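import Pool.Agent.Lib_MP_af4de1_in.T1Lim
import Pool.Agent.Lib_MP_af4de1_in.T2Tree

/-!
# Domination inside the tree region [IN-T3]

`‖ζ0‖ = 1/e`.  `dom_one`: `t n = conj u/(n+1)`, `ζ n = ζ0 (1 - 1/(n+2))`: `Par t ζ ζ0 u` (`‖t n‖/t n = u`); `val_one`: `‖Dv + S J‖ = o(‖J‖)`, `Ev - J = o(‖J‖)` (`Big`,
`Small`, as in `v1_small`), and `‖Dv‖ ≤ ‖Ev‖` (`tree_EvDv`): `‖S‖ ≤ 1`.
`dom_two`: `w = u (S' - S) ≠ 0` not a positive real, `η = conj w/‖w‖ - 1`: `Re η < 0`, `Re (w η) = ‖w‖ - Re w > 0`.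
`t n = conj u/(n+1)`, `ζ n = ζ0 exp(η/√(n+1))`, so `‖ζ n‖ < 1/e`.  `val_two_lim`.  `Ph (ζ n) (Sn n) = Sn²/2 - Sn` (critical equation), the same for `S'`.
With `y = -S ≠ 0`, `y ≠ -1` (`S ≠ 1`: `good_ne_one`), `y_n = -Sn n`: `y_n e^{y_n} = ζ n`, so `y_n - y + log(y_n/y) = η/√(n+1)` for large `n` (both sides are
small and have the same exponential); so `(y_n - y)/(η/√(n+1)) → y/(1+y)` and `(Ph(ζ n)(Sn n) - Ph ζ0 S)/(η/√(n+1)) → y = -S` (`= (y_n-y)(y_n+y+2)/2`).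
`Re (u Ph ζ0 S) = c = Re (u Ph ζ0 S')` (`Sad.height` in the chain).  `1/t n = u (n+1)` (`‖u‖ = 1`): `Re (Ph(ζ n)(Sn n)/t n - Ph(ζ n)(Sn' n)/t n)
= √(n+1) (Re (u(S' - S) η) + o(1)) → ∞`, so `‖J' n‖/‖J n‖ → 0` (`c0, c0' ≠ 0`); `Ev - J - J' = o(‖J‖)`, `Dv + S J + S' J' = o(‖J‖ + ‖J'‖)`, `‖Dv‖ ≤ ‖Ev‖`: `‖S‖ ≤ 1`.
`good_ne_one`: a saddle point in a good list is not `1` (`Sad.desc` with `deriv_deriv_Ph`: `1 + ζ e^S = 1 - S`).
`good_height`: both heights are `c`.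
-/

namespace SokalV

open Complex Filter Topology

private theorem t3_sad {u ζ : ℂ} {c c' : ℝ} {A B : ℂ} {L : List ℂ}
    (h : Chain u (Ph ζ) c c' A L B) {S : ℂ} (hS : S ∈ L) : ∃ v : ℂ, Sad u (Ph ζ) c S v := by
  induction h with
  | nil _ => exact absurd hS List.not_mem_nil
  | @cons _ _ _ v _ _ h2 _ ih =>
    rcases List.mem_cons.1 hS with h3 | h3
    · rw [h3]
      exact ⟨v, h2⟩
    · exact ih h3

private theorem t3_good_sad {u ζ : ℂ} {c : ℝ} {L : List ℂ} (hg : Good u ζ c L) {S : ℂ}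
    (hS : S ∈ L) : ∃ v : ℂ, Sad u (Ph ζ) c S v := by
  obtain ⟨c', _, R0, hR0⟩ := hg
  exact t3_sad (hR0 R0 le_rfl) hS

theorem good_ne_one {u ζ : ℂ} {c : ℝ} {L : List ℂ} (hg : Good u ζ c L) {S : ℂ} (hS : S ∈ L) :
    S ≠ 1 := by
  rintro rfl
  obtain ⟨v, hv⟩ := t3_good_sad hg hS
  have h1 := good_crit hg hS
  have h2 := hv.desc
  rw [deriv_deriv_Ph] at h2
  have h3 : 1 + ζ * cexp 1 = 0 := h1
  rw [h3] at h2
  simp at h2

theorem good_height {u ζ : ℂ} {c : ℝ} {L : List ℂ} (hg : Good u ζ c L) {S : ℂ} (hS : S ∈ L) :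
    (u * Ph ζ S).re = c := by
  obtain ⟨v, hv⟩ := t3_good_sad hg hS
  exact hv.height

private theorem t3_exp {τ : ℕ → ℝ} (hτ : ∀ n, 0 < τ n) (hτ0 : Tendsto τ atTop (𝓝 0))
    {C η δ : ℝ} (hη : 0 < η) (hδ : 0 < δ) : ∀ᶠ n in atTop, C ≤ η * Real.exp (δ / τ n) := by
  have h2 : ∀ᶠ n in atTop, τ n < η * δ / (|C| + 1) := hτ0.eventually_lt_const (by positivity)
  filter_upwards [h2] with n hn
  have h3 : δ / τ n ≤ Real.exp (δ / τ n) := by
    have := Real.add_one_le_exp (δ / τ n)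
    linarith
  have h4 : τ n * (|C| + 1) < η * δ := by
    rwa [lt_div_iff₀ (by positivity)] at hn
  calc C ≤ |C| + 1 := by linarith [le_abs_self C]
    _ ≤ η * (δ / τ n) := by
        rw [← mul_div_assoc, le_div_iff₀ (hτ n)]
        linarith
    _ ≤ η * Real.exp (δ / τ n) := mul_le_mul_of_nonneg_left h3 hη.le

private theorem t3_small {τ : ℕ → ℝ} (hτ : ∀ n, 0 < τ n) (hτ0 : Tendsto τ atTop (𝓝 0))
    {c c' : ℝ} (hc : c' < c) {J R : ℕ → ℂ} (hJ : Big τ c J) (hR : Small τ c' R) {η : ℝ}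
    (hη : 0 < η) : ∀ᶠ n in atTop, ‖R n‖ ≤ η * ‖J n‖ := by
  obtain ⟨C, hC⟩ := hR
  have hδ : 0 < (c - c') / 2 := by linarith
  filter_upwards [hC, hJ _ hδ, t3_exp (C := C) hτ hτ0 hη hδ] with n h1 h2 h3
  have h4 : Real.exp ((c - (c - c') / 2) / τ n) =
      Real.exp (((c - c') / 2) / τ n) * Real.exp (c' / τ n) := by
    rw [← Real.exp_add]
    congr 1
    ring
  calc ‖R n‖ ≤ C * Real.exp (c' / τ n) := h1
    _ ≤ (η * Real.exp (((c - c') / 2) / τ n)) * Real.exp (c' / τ n) :=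
        mul_le_mul_of_nonneg_right h3 (Real.exp_pos _).le
    _ = η * Real.exp ((c - (c - c') / 2) / τ n) := by rw [h4]; ring
    _ ≤ η * ‖J n‖ := mul_le_mul_of_nonneg_left h2 hη.le

/-- the parameters `conj u/(n+1)` -/
private noncomputable def t3t (u : ℂ) (n : ℕ) : ℂ := (starRingEnd ℂ) u / ((n : ℂ) + 1)

private theorem t3_uu {u : ℂ} (hu : ‖u‖ = 1) : u * (starRingEnd ℂ) u = 1 := by
  rw [Complex.mul_conj, Complex.normSq_eq_norm_sq, hu]
  simp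

private theorem t3_inv {u : ℂ} (hu : ‖u‖ = 1) (n : ℕ) (X : ℂ) :
    X / t3t u n = u * ((n : ℂ) + 1) * X := by
  have h1 := t3_uu hu
  have h2 : (starRingEnd ℂ) u ≠ 0 := right_ne_zero_of_mul (by rw [h1]; exact one_ne_zero)
  have h3 : (n : ℂ) + 1 ≠ 0 := by exact_mod_cast Nat.succ_ne_zero n
  unfold t3t
  rw [div_div_eq_mul_div, div_eq_iff h2]
  linear_combination (-(X * ((n : ℂ) + 1))) * h1

private theorem t3_norm {u : ℂ} (hu : ‖u‖ = 1) (n : ℕ) : ‖t3t u n‖ = 1 / ((n : ℝ) + 1) := by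
  unfold t3t
  rw [norm_div, RCLike.norm_conj, hu]
  congr 1
  have : ((n : ℂ) + 1) = (((n : ℝ) + 1 : ℝ) : ℂ) := by push_cast; ring
  rw [this, Complex.norm_real, Real.norm_of_nonneg (by positivity)]

private theorem t3_par {u ζ0 : ℂ} (hu : ‖u‖ = 1) (hre : 0 ≤ u.re) (him : 0 ≤ u.im) {ζ : ℕ → ℂ}
    (hζ : Tendsto ζ atTop (𝓝 ζ0)) : Par (t3t u) ζ ζ0 u := by
  have hcast : ∀ n : ℕ, ((n : ℂ) + 1) = (((n : ℝ) + 1 : ℝ) : ℂ) := fun n => by push_cast; ring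
  have hpos : ∀ n : ℕ, 0 < (n : ℝ) + 1 := fun n => by positivity
  have hne : ∀ n, t3t u n ≠ 0 := by
    intro n h0
    have := t3_norm hu n
    rw [h0, norm_zero] at this
    have h1 : 0 < 1 / ((n : ℝ) + 1) := by positivity
    linarith
  refine ⟨hne, fun n => ?_, fun n => ?_, ?_, ?_, hζ⟩
  · unfold t3t
    rw [hcast, Complex.div_ofReal_re, Complex.conj_re]
    exact div_nonneg hre (hpos n).le
  · unfold t3t
    rw [hcast, Complex.div_ofReal_im, Complex.conj_im]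
    exact div_nonpos_of_nonpos_of_nonneg (by linarith) (hpos n).le
  · rw [tendsto_zero_iff_norm_tendsto_zero]
    refine Tendsto.congr (fun n => (t3_norm hu n).symm) ?_
    exact tendsto_one_div_add_atTop_nhds_zero_nat
  · refine tendsto_const_nhds.congr fun n => ?_
    rw [t3_inv hu, t3_norm hu]
    have h3 : (n : ℂ) + 1 ≠ 0 := by exact_mod_cast Nat.succ_ne_zero n
    push_cast
    field_simp

theorem dom_one {u ζ0 : ℂ} {c : ℝ} {S : ℂ} (hu : ‖u‖ = 1) (hre : 0 ≤ u.re) (him : 0 ≤ u.im)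
    (h0 : ‖ζ0‖ = Real.exp (-1)) (hg : Good u ζ0 c [S]) : ‖S‖ ≤ 1 := by
  set ζ : ℕ → ℂ := fun n => ζ0 * ((1 - 1 / ((n : ℝ) + 2) : ℝ) : ℂ) with hζ
  have h2 : ∀ n : ℕ, 0 < 1 / ((n : ℝ) + 2) ∧ 1 / ((n : ℝ) + 2) ≤ 1 := by
    intro n
    have h3 : (0 : ℝ) < (n : ℝ) + 2 := by positivity
    refine ⟨by positivity, ?_⟩
    rw [div_le_one h3]
    have : (0 : ℝ) ≤ n := Nat.cast_nonneg n
    linarith
  have hζn : ∀ n, ‖ζ n‖ < Real.exp (-1) := by
    intro n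
    rw [hζ]
    simp only
    rw [norm_mul, Complex.norm_real, h0, Real.norm_of_nonneg (by linarith [(h2 n).2])]
    have := Real.exp_pos (-1)
    nlinarith [(h2 n).1]
  have hlim : Tendsto ζ atTop (𝓝 ζ0) := by
    have h3 : Tendsto (fun n : ℕ => (1 - 1 / ((n : ℝ) + 2) : ℝ)) atTop (𝓝 (1 - 0)) := by
      refine tendsto_const_nhds.sub ?_
      refine tendsto_const_nhds.div_atTop ?_
      exact tendsto_atTop_add_const_right _ _ tendsto_natCast_atTop_atTop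
    have h4 := (Complex.continuous_ofReal.tendsto _).comp h3
    have h5 := h4.const_mul ζ0
    rw [sub_zero, Complex.ofReal_one, mul_one] at h5
    exact h5
  have hP := t3_par hu hre him hlim
  obtain ⟨c', hc', J, hJ, hE, hD⟩ := val_one hP hg
  have hτ : ∀ n, 0 < ‖t3t u n‖ := fun n => norm_pos_iff.2 (hP.ne n)
  have hτ0 : Tendsto (fun n => ‖t3t u n‖) atTop (𝓝 0) := by
    have := hP.lim.norm
    rwa [norm_zero] at this
  refine le_of_forall_pos_le_add fun ε hε => ?_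
  obtain ⟨n, k1, k2, k3⟩ := ((t3_small hτ hτ0 hc' hJ hE (η := ε / 2) (by positivity)).and
    ((hD (ε / 2) (by positivity)).and (hJ 1 one_pos))).exists
  have k4 := (tree_EvDv (hP.ne n) (hP.re n) (hζn n)).2
  have hJp : 0 < ‖J n‖ := (Real.exp_pos _).trans_le k3
  have k5 : ‖S‖ * ‖J n‖ ≤ ‖Dv (t3t u n) (ζ n) + S * J n‖ + ‖Dv (t3t u n) (ζ n)‖ := by
    rw [← norm_mul]
    calc ‖S * J n‖ = ‖(Dv (t3t u n) (ζ n) + S * J n) - Dv (t3t u n) (ζ n)‖ := by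
          congr 1; ring
      _ ≤ _ := norm_sub_le _ _
  have k6 : ‖Ev (t3t u n) (ζ n)‖ ≤ ‖Ev (t3t u n) (ζ n) - J n‖ + ‖J n‖ := by
    calc ‖Ev (t3t u n) (ζ n)‖ = ‖(Ev (t3t u n) (ζ n) - J n) + J n‖ := by congr 1; ring
      _ ≤ _ := norm_add_le _ _
  have k7 : ‖S‖ * ‖J n‖ ≤ (1 + ε) * ‖J n‖ := by linarith
  exact le_of_mul_le_mul_right k7 hJp

/-- The critical value as a function of `ζ`. -/
private theorem t3_crit {ζ0 S : ℂ} (hS : S + ζ0 * cexp S = 0) (h1 : S ≠ 1) :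
    ∃ p : ℂ → ℂ, HasDerivAt p (cexp S) ζ0 ∧ ∀ ζ Sn : ℕ → ℂ, Tendsto Sn atTop (𝓝 S) →
      (∀ᶠ n in atTop, Sn n + ζ n * cexp (Sn n) = 0) →
      ∀ᶠ n in atTop, Ph (ζ n) (Sn n) = p (ζ n) := by
  have hf : HasStrictDerivAt (fun s : ℂ => -s * cexp (-s)) (-(1 - S) * cexp (-S)) S := by
    have e1 : HasStrictDerivAt (fun s : ℂ => -s) (-1) S := (hasStrictDerivAt_id S).neg
    have e2 := e1.cexp
    refine (e1.mul e2).congr_deriv ?_
    ring
  have hne : -(1 - S) * cexp (-S) ≠ 0 :=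
    mul_ne_zero (neg_ne_zero.2 (sub_ne_zero.2 h1.symm)) (exp_ne_zero _)
  have hfS : -S * cexp (-S) = ζ0 := by
    have : cexp S * cexp (-S) = 1 := by rw [← Complex.exp_add]; simp
    linear_combination (-cexp (-S)) * hS + ζ0 * this
  set g := hf.localInverse _ _ _ hne with hg
  have hg1 : HasStrictDerivAt g (-(1 - S) * cexp (-S))⁻¹ ζ0 := by
    have := hf.to_localInverse hne
    rw [hfS] at this
    exact this
  have hinv : ∀ᶠ s in 𝓝 S, g (-s * cexp (-s)) = s :=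
    HasStrictFDerivAt.eventually_left_inverse (hf.hasStrictFDerivAt_equiv hne)
  have hgζ : g ζ0 = S := by
    have := hinv.self_of_nhds
    rwa [hfS] at this
  refine ⟨fun ζ => g ζ ^ 2 / 2 - g ζ, ?_, ?_⟩
  · have e1 := ((hg1.pow 2).div_const 2).sub hg1
    refine (e1.congr_deriv ?_).hasDerivAt
    rw [hgζ]
    have h2 : (1 - S) ≠ 0 := sub_ne_zero.2 h1.symm
    rw [mul_inv, Complex.exp_neg, inv_inv, neg_sub, inv_eq_one_div (S - 1)]
    have h3 : S - 1 ≠ 0 := sub_ne_zero.2 h1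
    push_cast
    field_simp
  · intro ζ Sn hSn hc
    filter_upwards [hSn.eventually hinv, hc] with n k1 k2
    have k3 : -Sn n * cexp (-Sn n) = ζ n := by
      have : cexp (Sn n) * cexp (-Sn n) = 1 := by rw [← Complex.exp_add]; simp
      linear_combination (-cexp (-Sn n)) * k2 + ζ n * this
    rw [k3] at k1
    simp only [k1]
    unfold Ph
    linear_combination k2

/-- symmetric form of `val_two_lim` -/
private def T3Two (t ζ : ℕ → ℂ) (S S' : ℂ) : Prop :=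
  ∃ (Sn Sn' J J' : ℕ → ℂ) (c0 c0' : ℂ), c0 ≠ 0 ∧ c0' ≠ 0 ∧ Tendsto Sn atTop (𝓝 S) ∧
    Tendsto Sn' atTop (𝓝 S') ∧
    (∀ᶠ n in atTop, Sn n + ζ n * cexp (Sn n) = 0) ∧
    (∀ᶠ n in atTop, Sn' n + ζ n * cexp (Sn' n) = 0) ∧
    Tendsto (fun n => J n / (√‖t n‖ * cexp (Ph (ζ n) (Sn n) / t n))) atTop (𝓝 c0) ∧
    Tendsto (fun n => J' n / (√‖t n‖ * cexp (Ph (ζ n) (Sn' n) / t n))) atTop (𝓝 c0') ∧
    (∀ ε : ℝ, 0 < ε → ∀ᶠ n in atTop, ‖Ev (t n) (ζ n) - J n - J' n‖ ≤ ε * ‖J n‖) ∧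
    (∀ ε : ℝ, 0 < ε → ∀ᶠ n in atTop, ‖Ev (t n) (ζ n) - J n - J' n‖ ≤ ε * ‖J' n‖) ∧
    ∀ ε : ℝ, 0 < ε → ∀ᶠ n in atTop,
      ‖Dv (t n) (ζ n) + S * J n + S' * J' n‖ ≤ ε * (‖J n‖ + ‖J' n‖)

private theorem T3Two.symm {t ζ : ℕ → ℂ} {S S' : ℂ} (h : T3Two t ζ S S') : T3Two t ζ S' S := by
  obtain ⟨Sn, Sn', J, J', c0, c0', h1, h2, h3, h4, h5, h6, h7, h8, h9, h10, h11⟩ := h
  refine ⟨Sn', Sn, J', J, c0', c0, h2, h1, h4, h3, h6, h5, h8, h7, fun ε hε => ?_,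
    fun ε hε => ?_, fun ε hε => ?_⟩
  · filter_upwards [h10 ε hε] with n hn
    rwa [sub_right_comm]
  · filter_upwards [h9 ε hε] with n hn
    rwa [sub_right_comm]
  · filter_upwards [h11 ε hε] with n hn
    rw [add_right_comm, add_comm ‖J' n‖]
    exact hn

private theorem t3_two {t ζ : ℕ → ℂ} {ζ0 u0 : ℂ} (h : Par t ζ ζ0 u0) {c : ℝ} {S S' : ℂ}
    (hg : Good u0 ζ0 c [S, S']) : T3Two t ζ S S' := by
  obtain ⟨Sn, Sn', J, J', c', c0, c0', hc', h1, h2, h3, h4, h5, h6, h7, h8, h9, h10, h11, h12⟩ :=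
    val_two_lim h hg
  have hτ : ∀ n, 0 < ‖t n‖ := fun n => norm_pos_iff.2 (h.ne n)
  have hτ0 : Tendsto (fun n => ‖t n‖) atTop (𝓝 0) := by
    have := h.lim.norm
    rwa [norm_zero] at this
  exact ⟨Sn, Sn', J, J', c0, c0', h1, h2, h3, h4, h5, h6, h9, h10,
    fun ε hε => t3_small hτ hτ0 hc' h7 h11 hε, fun ε hε => t3_small hτ hτ0 hc' h8 h11 hε, h12⟩

private theorem t3_core {u ζ0 S S' : ℂ} (hu : ‖u‖ = 1) (hre : 0 ≤ u.re) (him : 0 ≤ u.im)
    (h0 : ‖ζ0‖ = Real.exp (-1)) (hS : S + ζ0 * cexp S = 0) (hS' : S' + ζ0 * cexp S' = 0)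
    (h1 : S ≠ 1) (h1' : S' ≠ 1) (hht : (u * Ph ζ0 S).re = (u * Ph ζ0 S').re) (hne : S ≠ S')
    (h : ¬ ∃ l : ℝ, 0 < l ∧ u * (S' - S) = l)
    (hT : ∀ ζ : ℕ → ℂ, Tendsto ζ atTop (𝓝 ζ0) → T3Two (t3t u) ζ S S') : ‖S‖ ≤ 1 := by
  set w : ℂ := u * (S' - S) with hw
  have hu0 : u ≠ 0 := by
    rintro rfl
    simp at hu
  have hw0 : w ≠ 0 := mul_ne_zero hu0 (sub_ne_zero.2 hne.symm)
  have hwn : 0 < ‖w‖ := norm_pos_iff.2 hw0
  have hwre : w.re < ‖w‖ := by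
    refine lt_of_le_of_ne (Complex.re_le_norm w) fun h2 => h ⟨‖w‖, hwn, ?_⟩
    have h3 : w.im = 0 := by
      have h4 := Complex.sq_norm w
      rw [Complex.normSq_apply, ← h2] at h4
      nlinarith
    apply Complex.ext
    · simp [h2]
    · simp [h3]
  set η : ℂ := (starRingEnd ℂ) w / (‖w‖ : ℂ) - 1 with hη
  have hηre : η.re < 0 := by
    rw [hη, Complex.sub_re, Complex.div_ofReal_re, Complex.conj_re, Complex.one_re]
    have : w.re / ‖w‖ < 1 := by rw [div_lt_one hwn]; exact hwre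
    linarith
  have hwη : 0 < (w * η).re := by
    have e : w * η = (‖w‖ : ℂ) - w := by
      rw [hη, mul_sub, mul_one, mul_div_assoc', Complex.mul_conj, Complex.normSq_eq_norm_sq]
      have : (‖w‖ : ℂ) ≠ 0 := by exact_mod_cast hwn.ne'
      push_cast
      field_simp
    rw [e, Complex.sub_re, Complex.ofReal_re]
    linarith
  -- the step
  set κ : ℕ → ℝ := fun n => 1 / √((n : ℝ) + 1) with hκ
  have hκp : ∀ n, 0 < κ n := fun n => by
    rw [hκ]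
    simp only
    positivity
  have hκ0 : Tendsto κ atTop (𝓝 0) := by
    refine tendsto_const_nhds.div_atTop ?_
    exact Real.tendsto_sqrt_atTop.comp
      (tendsto_atTop_add_const_right _ _ tendsto_natCast_atTop_atTop)
  have hκi : Tendsto (fun n => (κ n)⁻¹) atTop atTop := by
    refine (Real.tendsto_sqrt_atTop.comp
      (tendsto_atTop_add_const_right _ (1 : ℝ) tendsto_natCast_atTop_atTop)).congr fun n => ?_
    simp [hκ]
  have hκ2 : ∀ n : ℕ, (n : ℝ) + 1 = (κ n)⁻¹ * (κ n)⁻¹ := by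
    intro n
    have h3 : (0 : ℝ) ≤ (n : ℝ) + 1 := by positivity
    rw [hκ]
    simp only [one_div, inv_inv]
    exact (Real.mul_self_sqrt h3).symm
  set ζ : ℕ → ℂ := fun n => ζ0 * cexp (η * (κ n : ℂ)) with hζ
  have hζn : ∀ n, ‖ζ n‖ < Real.exp (-1) := by
    intro n
    rw [hζ]
    simp only
    rw [norm_mul, h0, Complex.norm_exp, Complex.re_mul_ofReal]
    have h3 : Real.exp (η.re * κ n) < 1 := by
      rw [Real.exp_lt_one_iff]
      exact mul_neg_of_neg_of_pos hηre (hκp n)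
    have := Real.exp_pos (-1)
    nlinarith
  have hκc : Tendsto (fun n => (κ n : ℂ)) atTop (𝓝 0) := by
    have := (Complex.continuous_ofReal.tendsto 0).comp hκ0
    rw [Complex.ofReal_zero] at this
    exact this
  have hlim : Tendsto ζ atTop (𝓝 ζ0) := by
    have h3 := ((hκc.const_mul η).cexp).const_mul ζ0
    simpa using h3
  obtain ⟨Sn, Sn', J, J', c0, c0', hc0, hc0', hSn, hSn', hcr, hcr', hJ, hJ', hE, -, hD⟩ := hT ζ hlim
  have hP := t3_par hu hre him hlim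
  -- the critical values
  obtain ⟨p, hp, hpc⟩ := t3_crit hS h1
  obtain ⟨p', hp', hpc'⟩ := t3_crit hS' h1'
  have hp0 : Ph ζ0 S = p ζ0 := by
    have := hpc (fun _ => ζ0) (fun _ => S) tendsto_const_nhds (Eventually.of_forall fun _ => hS)
    exact this.exists.choose_spec
  have hp0' : Ph ζ0 S' = p' ζ0 := by
    have := hpc' (fun _ => ζ0) (fun _ => S') tendsto_const_nhds (Eventually.of_forall fun _ => hS')
    exact this.exists.choose_spec
  have hslope : ∀ (r : ℂ → ℂ) (r0 : ℂ), HasDerivAt r r0 ζ0 →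
      Tendsto (fun n => (r (ζ n) - r ζ0) / (κ n : ℂ)) atTop (𝓝 (r0 * (ζ0 * η))) := by
    intro r r0 hr
    have e1 : HasDerivAt (fun s : ℂ => ζ0 * cexp (η * s)) (ζ0 * η) 0 := by
      have e2 : HasDerivAt (fun s : ℂ => η * s) η 0 := by
        simpa using (hasDerivAt_id (0 : ℂ)).const_mul η
      have e3 := (e2.cexp).const_mul ζ0
      refine e3.congr_deriv ?_
      simp
    have e4 : HasDerivAt (fun s : ℂ => r (ζ0 * cexp (η * s))) (r0 * (ζ0 * η)) 0 := by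
      have e5 : HasDerivAt r r0 ((fun s : ℂ => ζ0 * cexp (η * s)) 0) := by simpa using hr
      exact e5.comp 0 e1
    have e6 := e4.tendsto_slope_zero
    have e7 : Tendsto (fun n => (κ n : ℂ)) atTop (𝓝[≠] 0) :=
      tendsto_nhdsWithin_iff.2 ⟨hκc, Eventually.of_forall fun n => by
        have := (hκp n).ne'
        simpa using this⟩
    refine (e6.comp e7).congr fun n => ?_
    simp only [Function.comp, hζ, zero_add, mul_zero, Complex.exp_zero, mul_one, smul_eq_mul]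
    rw [div_eq_inv_mul]
  have hs := hslope p _ hp
  have hs' := hslope p' _ hp'
  have eS : cexp S * (ζ0 * η) = -S * η := by linear_combination η * hS
  have eS' : cexp S' * (ζ0 * η) = -S' * η := by linear_combination η * hS'
  rw [eS] at hs
  rw [eS'] at hs'
  -- difference of the exponents
  set X : ℕ → ℂ := fun n => Ph (ζ n) (Sn n) / t3t u n - Ph (ζ n) (Sn' n) / t3t u n with hX
  have hXlim : Tendsto (fun n => (X n).re) atTop atTop := by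
    have e1 : Tendsto (fun n => (u * ((p (ζ n) - p ζ0) / (κ n : ℂ) -
        (p' (ζ n) - p' ζ0) / (κ n : ℂ))).re) atTop (𝓝 (w * η).re) := by
      have e2 := (Complex.continuous_re.tendsto _).comp ((hs.sub hs').const_mul u)
      have e3 : u * (-S * η - -S' * η) = w * η := by rw [hw]; ring
      rw [e3] at e2
      exact e2
    have e4 := hκi.atTop_mul_pos hwη e1
    refine e4.congr' ?_
    filter_upwards [hpc ζ Sn hSn hcr, hpc' ζ Sn' hSn' hcr'] with n k1 k2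
    have k3 : X n = ((κ n)⁻¹ * (κ n)⁻¹ : ℝ) * (u * (p (ζ n) - p' (ζ n))) := by
      rw [hX]
      simp only
      rw [t3_inv hu, t3_inv hu, k1, k2]
      have : (n : ℂ) + 1 = (((n : ℝ) + 1 : ℝ) : ℂ) := by push_cast; ring
      rw [this, hκ2 n]
      ring
    rw [k3, Complex.re_ofReal_mul]
    have k4 : (u * (p ζ0 - p' ζ0)).re = 0 := by
      rw [mul_sub, Complex.sub_re, ← hp0, ← hp0', hht, sub_self]
    have k5 : u * ((p (ζ n) - p ζ0) / (κ n : ℂ) - (p' (ζ n) - p' ζ0) / (κ n : ℂ)) =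
        ((κ n)⁻¹ : ℝ) * (u * (p (ζ n) - p' (ζ n)) - u * (p ζ0 - p' ζ0)) := by
      push_cast
      ring
    rw [k5, Complex.re_ofReal_mul, Complex.sub_re, k4, sub_zero]
    ring
  -- `J'/J → 0`
  have hDne : ∀ (T : ℕ → ℂ) (n : ℕ),
      ((√‖t3t u n‖ : ℝ) : ℂ) * cexp (Ph (ζ n) (T n) / t3t u n) ≠ 0 := by
    intro T n
    refine mul_ne_zero ?_ (exp_ne_zero _)
    have : √‖t3t u n‖ ≠ 0 := (Real.sqrt_pos.2 (norm_pos_iff.2 (hP.ne n))).ne'
    exact_mod_cast this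
  have hq : Tendsto (fun n => J' n / J n) atTop (𝓝 0) := by
    have e1 := hJ'.div hJ hc0
    have e2 : Tendsto (fun n => cexp (-X n)) atTop (𝓝 0) := by
      rw [tendsto_zero_iff_norm_tendsto_zero]
      refine (Real.tendsto_exp_neg_atTop_nhds_zero.comp hXlim).congr fun n => ?_
      rw [Complex.norm_exp, Complex.neg_re]
      rfl
    have e3 := e1.mul e2
    rw [mul_zero] at e3
    refine e3.congr fun n => ?_
    have e4 : cexp (-X n) = cexp (Ph (ζ n) (Sn' n) / t3t u n) / cexp (Ph (ζ n) (Sn n) / t3t u n) := by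
      rw [← Complex.exp_sub]
      congr 1
      rw [hX]
      simp only
      ring
    rw [e4]
    have e5 : cexp (Ph (ζ n) (Sn' n) / t3t u n) ≠ 0 := exp_ne_zero _
    have e6 : cexp (Ph (ζ n) (Sn n) / t3t u n) ≠ 0 := exp_ne_zero _
    have e7 : ((√‖t3t u n‖ : ℝ) : ℂ) ≠ 0 := left_ne_zero_of_mul (hDne Sn n)
    have key : ∀ a b r E E' : ℂ, r ≠ 0 → E ≠ 0 → E' ≠ 0 →
        a / (r * E') / (b / (r * E)) * (E' / E) = a / b := by
      intro a b r E E' hr hE hE'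
      rcases eq_or_ne b 0 with rfl | hb
      · simp
      · field_simp
    exact key _ _ _ _ _ e7 e6 e5
  have hJne : ∀ᶠ n in atTop, J n ≠ 0 := by
    filter_upwards [hJ.eventually_ne hc0] with n hn h3
    exact hn (by rw [h3, zero_div])
  -- conclusion
  refine le_of_forall_pos_le_add fun ε hε => ?_
  obtain ⟨δ, hδ, hδ1, hδ2⟩ : ∃ δ : ℝ, 0 < δ ∧ δ ≤ 1 ∧ δ * (5 + ‖S'‖) ≤ ε := by
    refine ⟨min 1 (ε / (5 + ‖S'‖)), lt_min one_pos (by positivity), min_le_left _ _, ?_⟩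
    rw [← le_div_iff₀ (by positivity)]
    exact min_le_right _ _
  have hqn := hq.norm
  rw [norm_zero] at hqn
  obtain ⟨n, k1, k2, k3, k4⟩ := ((hE δ hδ).and ((hD δ hδ).and
    ((hqn.eventually_lt_const hδ).and hJne))).exists
  have hJp : 0 < ‖J n‖ := norm_pos_iff.2 k4
  rw [norm_div, div_lt_iff₀ hJp] at k3
  have k5 := (tree_EvDv (hP.ne n) (hP.re n) (hζn n)).2
  have k6 : ‖S‖ * ‖J n‖ ≤ ‖Dv (t3t u n) (ζ n) + S * J n + S' * J' n‖ + ‖Dv (t3t u n) (ζ n)‖ +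
      ‖S'‖ * ‖J' n‖ := by
    rw [← norm_mul, ← norm_mul]
    calc ‖S * J n‖ = ‖(Dv (t3t u n) (ζ n) + S * J n + S' * J' n) + -Dv (t3t u n) (ζ n) +
          -(S' * J' n)‖ := by
          congr 1; ring
      _ ≤ _ := norm_add₃_le
      _ = _ := by rw [norm_neg, norm_neg]
  have k7 : ‖Ev (t3t u n) (ζ n)‖ ≤ ‖Ev (t3t u n) (ζ n) - J n - J' n‖ + ‖J n‖ + ‖J' n‖ := by
    calc ‖Ev (t3t u n) (ζ n)‖ = ‖(Ev (t3t u n) (ζ n) - J n - J' n) + J n + J' n‖ := by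
          congr 1; ring
      _ ≤ _ := norm_add₃_le
  have k8 : ‖S'‖ * ‖J' n‖ ≤ ‖S'‖ * (δ * ‖J n‖) := mul_le_mul_of_nonneg_left k3.le (norm_nonneg _)
  have k9 : δ * ‖J' n‖ ≤ δ * ‖J n‖ := by
    have : δ * ‖J n‖ ≤ 1 * ‖J n‖ := mul_le_mul_of_nonneg_right hδ1 hJp.le
    exact mul_le_mul_of_nonneg_left (by linarith) hδ.le
  have k10 : ‖S‖ * ‖J n‖ ≤ (1 + ε) * ‖J n‖ := by
    have : δ * (5 + ‖S'‖) * ‖J n‖ ≤ ε * ‖J n‖ := mul_le_mul_of_nonneg_right hδ2 hJp.le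
    nlinarith
  exact le_of_mul_le_mul_right k10 hJp

theorem dom_two {u ζ0 : ℂ} {c : ℝ} {S S' : ℂ} (hu : ‖u‖ = 1) (hre : 0 ≤ u.re) (him : 0 ≤ u.im)
    (h0 : ‖ζ0‖ = Real.exp (-1)) (hg : Good u ζ0 c [S, S']) (hne : S ≠ S')
    (h : ¬ ∃ l : ℝ, 0 < l ∧ u * (S' - S) = l) : ‖S‖ ≤ 1 := by
  have m1 : S ∈ [S, S'] := by simp
  have m2 : S' ∈ [S, S'] := by simp
  exact t3_core hu hre him h0 (good_crit hg m1) (good_crit hg m2) (good_ne_one hg m1)
    (good_ne_one hg m2) ((good_height hg m1).trans (good_height hg m2).symm) hne h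
    fun ζ hζ => t3_two (t3_par hu hre him hζ) hg

/-- the same for the second saddle point -/
theorem dom_two' {u ζ0 : ℂ} {c : ℝ} {S S' : ℂ} (hu : ‖u‖ = 1) (hre : 0 ≤ u.re) (him : 0 ≤ u.im)
    (h0 : ‖ζ0‖ = Real.exp (-1)) (hg : Good u ζ0 c [S, S']) (hne : S ≠ S')
    (h : ¬ ∃ l : ℝ, 0 < l ∧ u * (S - S') = l) : ‖S'‖ ≤ 1 := by
  have m1 : S ∈ [S, S'] := by simp
  have m2 : S' ∈ [S, S'] := by simp
  exact t3_core hu hre him h0 (good_crit hg m2) (good_crit hg m1) (good_ne_one hg m2)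
    (good_ne_one hg m1) ((good_height hg m2).trans (good_height hg m1).symm) hne.symm h
    fun ζ hζ => (t3_two (t3_par hu hre him hζ) hg).symm

end SokalV
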