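import Pool.Agent.Lib_MP_af4de1_in.T3Dom
import Pool.Agent.Lib_MP_af4de1_v.StaticG
import Pool.Agent.Lib_MP_af4de1_v.N1
import Pool.Agent.Lib_MP_af4de1_v.N1Tip
import Pool.Agent.Lib_MP_af4de1_v.TipI
import Pool.Agent.Lib_MP_af4de1_v.Final

/-!
# No zeros at `‖ζ‖ = 1/e` off the tip, and the contour to the tip [IN-T4]

`good_edge`: `y_i = -S_i`, `y_i e^{y_i} = ζ0` (`good_crit`), `‖ζ0‖ = 1/e`.
List `[S1, S2]`, `S1 ≠ S2`: if `u (S2 - S1)` is not a positive real and `u (S1 - S2)` is not a positive real: `‖S1‖, ‖S2‖ ≤ 1` (`dom_two`, `dom_two'`),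
so `S1 = S2` by `exp_inj`.  Otherwise, by symmetry, `u (S2 - S1) = l > 0`, i.e. `y1 = y2 + l conj u`: `‖S2‖ ≤ 1` (`dom_two'`); equal heights (`good_height`,
`Ph ζ0 S = S²/2 - S = y²/2 + y`): `0 = Re (u (y1 - y2)((y1 + y2)/2 + 1)) = l (Re (y1 + y2)/2 + 1)`, so `Re y1 + Re y2 = -2`,
`Re y1 = Re y2 + l Re u ≥ Re y2`, so `Re y2 ≤ -1`, with `‖y2‖ ≤ 1`: `y2 = -1`, `S2 = 1`: `good_ne_one`.
List `[S]`: `‖S‖ ≤ 1` (`dom_one`); if `ζ0 = -1/e = (-1) e^{-1}` then `exp_inj`: `-S = -1`: `good_ne_one`.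
`static_edge`: `TopPos`: `static_G` with `N = 1` (`lift_zero`: `Final.lean`), otherwise `static_N1`; then `good_edge`.
`edge`: `static_edge`, `val_one`: `Ev = J + Small`, `J` `Big`: not zero for large `n` (`va_small`-argument, see `v1_small`).
`not_topPos_tip`: `TopPos u (-1/e)` would give by `static_G` a list of one or two points: `good_edge`.
`tipConn_all`: `SokalN.tipConn` (`Re u > 0`), `tipConn_I` (`u = I`).
-/

namespace SokalV

open Complex Filter Topology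

private theorem te_zeta {ζ0 S : ℂ} (h : S + ζ0 * cexp S = 0) : -S * cexp (-S) = ζ0 := by
  have h1 : cexp S * cexp (-S) = 1 := by rw [← Complex.exp_add, add_neg_cancel, Complex.exp_zero]
  linear_combination (-cexp (-S)) * h + ζ0 * h1

private theorem te_ph {ζ0 S : ℂ} (h : S + ζ0 * cexp S = 0) : Ph ζ0 S = S ^ 2 / 2 - S := by
  unfold Ph
  linear_combination h

/-- the positive case -/
private theorem te_pos {u ζ0 S S' : ℂ} {c l : ℝ} (hre : 0 ≤ u.re) (hu : ‖u‖ = 1)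
    (h1 : S + ζ0 * cexp S = 0) (h2 : S' + ζ0 * cexp S' = 0)
    (h3 : (u * Ph ζ0 S).re = c) (h4 : (u * Ph ζ0 S').re = c) (h5 : ‖S'‖ ≤ 1) (h6 : S' ≠ 1)
    (hl : 0 < l) (h : u * (S' - S) = l) : False := by
  rw [te_ph h1] at h3
  rw [te_ph h2] at h4
  have e1 : u * (S' ^ 2 / 2 - S') - u * (S ^ 2 / 2 - S) = l * ((S + S') / 2 - 1) := by
    rw [← h]; ring
  have e2 : (u * (S' ^ 2 / 2 - S') - u * (S ^ 2 / 2 - S)).re = 0 := by
    rw [Complex.sub_re, h3, h4, sub_self]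
  rw [e1] at e2
  have e3 : ((l : ℂ) * ((S + S') / 2 - 1)).re = l * ((S.re + S'.re) / 2 - 1) := by
    rw [Complex.re_ofReal_mul]
    congr 1
    have : (S + S') / 2 - 1 = ((1 / 2 : ℝ) : ℂ) * (S + S') - 1 := by push_cast; ring
    rw [this, Complex.sub_re, Complex.re_ofReal_mul, Complex.add_re, Complex.one_re]
    ring
  rw [e3] at e2
  have e4 : (S.re + S'.re) / 2 - 1 = 0 := (mul_eq_zero.1 e2).resolve_left hl.ne'
  have e5 : S' - S = l * (starRingEnd ℂ) u := by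
    have h7 : (starRingEnd ℂ) u * u = 1 := by
      rw [mul_comm, Complex.mul_conj, Complex.normSq_eq_norm_sq, hu]
      simp
    calc S' - S = (starRingEnd ℂ) u * u * (S' - S) := by rw [h7, one_mul]
      _ = (starRingEnd ℂ) u * (u * (S' - S)) := by ring
      _ = l * (starRingEnd ℂ) u := by rw [h]; ring
  have e6 : S'.re - S.re = l * u.re := by
    have := congrArg Complex.re e5
    rwa [Complex.sub_re, Complex.re_ofReal_mul, Complex.conj_re] at this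
  have e7 : 1 ≤ S'.re := by nlinarith [mul_nonneg hl.le hre]
  have e8 : S'.re ≤ 1 := (Complex.re_le_norm S').trans h5
  have e9 : S'.im = 0 := by
    have h7 : S'.re ^ 2 + S'.im ^ 2 ≤ 1 := by
      have := Complex.sq_norm S'
      rw [Complex.normSq_apply] at this
      nlinarith [norm_nonneg S']
    nlinarith
  exact h6 (Complex.ext (by rw [Complex.one_re]; linarith) (by rw [Complex.one_im]; exact e9))

private theorem te_two {u ζ0 : ℂ} {c : ℝ} {S1 S2 : ℂ} (hu : ‖u‖ = 1) (hre : 0 ≤ u.re)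
    (him : 0 ≤ u.im) (h0 : ‖ζ0‖ = Real.exp (-1)) (hg : Good u ζ0 c [S1, S2]) (hne : S1 ≠ S2) :
    False := by
  have m1 : S1 ∈ [S1, S2] := by simp
  have m2 : S2 ∈ [S1, S2] := by simp
  have c1 := good_crit hg m1
  have c2 := good_crit hg m2
  have p1 := good_height hg m1
  have p2 := good_height hg m2
  have n1 := good_ne_one hg m1
  have n2 := good_ne_one hg m2
  by_cases ha : ∃ l : ℝ, 0 < l ∧ u * (S2 - S1) = l
  · obtain ⟨l, hl, h⟩ := ha
    have hb : ¬ ∃ l : ℝ, 0 < l ∧ u * (S1 - S2) = l := by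
      rintro ⟨l', hl', h'⟩
      have : ((l + l' : ℝ) : ℂ) = 0 := by
        push_cast
        rw [← h, ← h']
        ring
      have : l + l' = 0 := by exact_mod_cast this
      linarith
    exact te_pos hre hu c1 c2 p1 p2 (dom_two' hu hre him h0 hg hne hb) n2 hl h
  by_cases hb : ∃ l : ℝ, 0 < l ∧ u * (S1 - S2) = l
  · obtain ⟨l, hl, h⟩ := hb
    exact te_pos hre hu c2 c1 p2 p1 (dom_two hu hre him h0 hg hne ha) n1 hl h
  have b1 := dom_two hu hre him h0 hg hne ha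
  have b2 := dom_two' hu hre him h0 hg hne hb
  have := exp_inj (y1 := -S1) (y2 := -S2) (by rwa [norm_neg]) (by rwa [norm_neg])
    ((te_zeta c1).trans (te_zeta c2).symm)
  exact hne (neg_injective this)

theorem good_edge {u ζ0 : ℂ} {c : ℝ} {L : List ℂ} (hu : ‖u‖ = 1) (hre : 0 ≤ u.re) (him : 0 ≤ u.im)
    (h0 : ‖ζ0‖ = Real.exp (-1)) (hg : Good u ζ0 c L)
    (hL : (∃ S, L = [S]) ∨ ∃ S1 S2, S1 ≠ S2 ∧ L = [S1, S2]) :
    (∃ S, L = [S]) ∧ ζ0 ≠ -cexp (-1) := by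
  rcases hL with ⟨S, rfl⟩ | ⟨S1, S2, hne, rfl⟩
  · refine ⟨⟨S, rfl⟩, fun hz => ?_⟩
    have m1 : S ∈ [S] := by simp
    have c1 := good_crit hg m1
    have n1 := good_ne_one hg m1
    have b1 := dom_one hu hre him h0 hg
    have := exp_inj (y1 := -S) (y2 := -1) (by rwa [norm_neg]) (by simp)
      ((te_zeta c1).trans (by rw [hz]; ring))
    exact n1 (neg_injective this)
  · exact (te_two hu hre him h0 hg hne).elim

private theorem te_static {u ζ : ℂ} (hu : ‖u‖ = 1) (hre : 0 ≤ u.re) (him : 0 ≤ u.im)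
    (hζ : ζ ≠ 0) (hT : TopPos u ζ) : ∃ (c : ℝ) (L : List ℂ), Good u ζ c L ∧
      ((∃ S, L = [S]) ∨ ∃ S1 S2, S1 ≠ S2 ∧ L = [S1, S2]) := by
  obtain ⟨c, L, h1, h2, h3, h4⟩ := static_G (N := 1) one_pos hu hre him hζ
    ⟨0, one_pos, by rwa [lift_zero]⟩
  rw [Finset.sum_range_one] at h3 h4
  have hg := h1 0 one_pos
  rw [lift_zero] at hg
  have hn := h2 0 one_pos
  refine ⟨c, L 0, hg, ?_⟩
  generalize L 0 = M at h3 h4 hg hn
  match M, h3, h4, hn with
  | [S], _, _, _ => exact Or.inl ⟨S, rfl⟩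
  | [S1, S2], _, _, hn =>
    refine Or.inr ⟨S1, S2, ?_, rfl⟩
    simpa using hn

private theorem te_norm : ‖-cexp (-1)‖ = Real.exp (-1) := by
  rw [norm_neg, Complex.norm_exp]
  simp

theorem not_topPos_tip {u : ℂ} (hu : ‖u‖ = 1) (hre : 0 ≤ u.re) (him : 0 ≤ u.im) :
    ¬ TopPos u (-cexp (-1)) := by
  intro hT
  obtain ⟨c, L, hg, hL⟩ := te_static hu hre him (neg_ne_zero.2 (Complex.exp_ne_zero _)) hT
  exact (good_edge hu hre him te_norm hg hL).2 rfl

theorem tipConn_all {u : ℂ} (hu : ‖u‖ = 1) (hre : 0 ≤ u.re) (him : 0 ≤ u.im) : TipConn u := by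
  rcases hre.lt_or_eq with h | h
  · exact SokalN.tipConn hu h him (not_topPos_tip hu hre him)
  · have h1 : u = I := by
      have h2 : u.re ^ 2 + u.im ^ 2 = 1 := by
        have h3 := Complex.sq_norm u
        rw [hu, Complex.normSq_apply] at h3
        nlinarith
      rw [← h] at h2
      have h4 : u.im = 1 := by nlinarith
      apply Complex.ext
      · simp [← h]
      · simp [h4]
    rw [h1]
    exact tipConn_I

theorem static_edge {u ζ0 : ℂ} (hu : ‖u‖ = 1) (hre : 0 ≤ u.re) (him : 0 ≤ u.im)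
    (h0 : ‖ζ0‖ = Real.exp (-1)) (htip : ζ0 ≠ -cexp (-1)) :
    ∃ (c : ℝ) (S : ℂ), Good u ζ0 c [S] := by
  have hz : ζ0 ≠ 0 := by
    rintro rfl
    rw [norm_zero] at h0
    exact absurd h0.symm (Real.exp_pos _).ne'
  obtain ⟨c, L, hg, hL⟩ : ∃ (c : ℝ) (L : List ℂ), Good u ζ0 c L ∧
      ((∃ S, L = [S]) ∨ ∃ S1 S2, S1 ≠ S2 ∧ L = [S1, S2]) := by
    by_cases hT : TopPos u ζ0
    · exact te_static hu hre him hz hT
    · exact static_N1 hu hre him h0.ge (by simpa using htip) hT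
  obtain ⟨S, rfl⟩ := (good_edge hu hre him h0 hg hL).1
  exact ⟨c, S, hg⟩

private theorem te_exp {τ : ℕ → ℝ} (hτ : ∀ n, 0 < τ n) (hτ0 : Tendsto τ atTop (𝓝 0))
    {C η δ : ℝ} (hη : 0 < η) (hδ : 0 < δ) : ∀ᶠ n in atTop, C ≤ η * Real.exp (δ / τ n) := by
  have h2 : ∀ᶠ n in atTop, τ n < η * δ / (|C| + 1) := hτ0.eventually_lt_const (by positivity)
  filter_upwards [h2] with n hn
  have h3 : δ / τ n ≤ Real.exp (δ / τ n) := by
    have := Real.add_one_le_exp (δ / τ n)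
    linarith
  have h4 : τ n * (|C| + 1) < η * δ := by
    rwa [lt_div_iff₀ (by positivity)] at hn
  calc C ≤ |C| + 1 := by linarith [le_abs_self C]
    _ ≤ η * (δ / τ n) := by
        rw [← mul_div_assoc, le_div_iff₀ (hτ n)]
        linarith
    _ ≤ η * Real.exp (δ / τ n) := mul_le_mul_of_nonneg_left h3 hη.le

private theorem te_small {τ : ℕ → ℝ} (hτ : ∀ n, 0 < τ n) (hτ0 : Tendsto τ atTop (𝓝 0))
    {c c' : ℝ} (hc : c' < c) {J R : ℕ → ℂ} (hJ : Big τ c J) (hR : Small τ c' R) {η : ℝ}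
    (hη : 0 < η) : ∀ᶠ n in atTop, ‖R n‖ ≤ η * ‖J n‖ := by
  obtain ⟨C, hC⟩ := hR
  have hδ : 0 < (c - c') / 2 := by linarith
  filter_upwards [hC, hJ _ hδ, te_exp (C := C) hτ hτ0 hη hδ] with n h1 h2 h3
  have h4 : Real.exp ((c - (c - c') / 2) / τ n) =
      Real.exp (((c - c') / 2) / τ n) * Real.exp (c' / τ n) := by
    rw [← Real.exp_add]
    congr 1
    ring
  calc ‖R n‖ ≤ C * Real.exp (c' / τ n) := h1
    _ ≤ (η * Real.exp (((c - c') / 2) / τ n)) * Real.exp (c' / τ n) :=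
        mul_le_mul_of_nonneg_right h3 (Real.exp_pos _).le
    _ = η * Real.exp ((c - (c - c') / 2) / τ n) := by rw [h4]; ring
    _ ≤ η * ‖J n‖ := mul_le_mul_of_nonneg_left h2 hη.le

theorem edge {t ζ : ℕ → ℂ} {ζ0 u0 : ℂ} (h : Par t ζ ζ0 u0) (h0 : ‖ζ0‖ = Real.exp (-1))
    (htip : ζ0 ≠ -cexp (-1)) : ∀ᶠ n in atTop, Ev (t n) (ζ n) ≠ 0 := by
  obtain ⟨c, S, hg⟩ := static_edge h.norm_dir h.dir_re h.dir_im h0 htip
  obtain ⟨c', hc', J, hJ, hE, -⟩ := val_one h hg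
  have hτ : ∀ n, 0 < ‖t n‖ := fun n => norm_pos_iff.2 (h.ne n)
  have hτ0 : Tendsto (fun n => ‖t n‖) atTop (𝓝 0) := by
    have := h.lim.norm
    rwa [norm_zero] at this
  filter_upwards [te_small hτ hτ0 hc' hJ hE (η := 1 / 2) (by norm_num), hJ 1 one_pos] with n k1 k2
  intro hn
  rw [hn, zero_sub, norm_neg] at k1
  have := (Real.exp_pos _).trans_le k2
  linarith

end SokalV
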