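import Pool.Agent.Lib_MP_af4de1_v.Airy
import Pool.Agent.Lib_MP_af4de1_in.Enum

/-!
# The zeros of the Airy function [IN-T5]

`airy_zero`, `airy_simple`, `hasDerivAt_Ai`, `hasDerivAt_Ad` (`Ai' = Ad`, `Ad' = x Ai`) are known.
`Ai_conj`: `Ai (conj x) = -conj (Ai x)` (the two integrals are exchanged), so `y x = Im (Ai x)` satisfies `Ai x = I y(x)` for real `x`, `y'' = x y`.
`airy_unbounded`: if `y` has no zero in `[c, c + π]`, `c + π ≤ -1`, say `y > 0` there (else `-y`); `W = y' sin(x - c) - y cos(x - c)`,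
`W' = (x + 1) y sin(x - c) ≤ 0`, so `y(c + π) = W(c + π) ≤ W(c) = -y(c) < 0`: contradiction.
`airy_enum`: `exists_enum` with `Z = {x | Ai x = 0}`: the zeros are real negative (`airy_zero`), so they have distinct moduli; finitely many in balls (isolated zeros, `Ai` entire and
not `0`: `Ai_zero_ne`); infinite: `airy_unbounded`.
-/

namespace SokalV

open Complex Filter Topology

private theorem conj_w : (starRingEnd ℂ) (cexp (2 * Real.pi * I / 3)) = cexp (-(2 * Real.pi * I / 3)) := by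
  rw [← Complex.exp_conj]
  congr 1
  simp only [map_div₀, map_mul, Complex.conj_ofReal, Complex.conj_I, map_ofNat]
  ring

private theorem conj_w' : (starRingEnd ℂ) (cexp (-(2 * Real.pi * I / 3))) = cexp (2 * Real.pi * I / 3) := by
  rw [← conj_w, Complex.conj_conj]

private theorem conj_int (c x : ℂ) :
    (starRingEnd ℂ) (∫ s in Set.Ioi (0 : ℝ), cexp (x * (c * s) - s ^ 3 / 3)) =
      ∫ s in Set.Ioi (0 : ℝ), cexp ((starRingEnd ℂ) x * ((starRingEnd ℂ) c * s) - s ^ 3 / 3) := by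
  rw [← integral_conj]
  refine MeasureTheory.integral_congr_ae (Eventually.of_forall fun s => ?_)
  show (starRingEnd ℂ) (cexp (x * (c * s) - s ^ 3 / 3)) = _
  rw [← Complex.exp_conj]
  simp only [map_sub, map_div₀, map_mul, map_pow, Complex.conj_ofReal, map_ofNat]

theorem Ai_conj (x : ℂ) : Ai ((starRingEnd ℂ) x) = -(starRingEnd ℂ) (Ai x) := by
  have h1 := conj_int (cexp (2 * Real.pi * I / 3)) x
  have h2 := conj_int (cexp (-(2 * Real.pi * I / 3))) x
  rw [conj_w] at h1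
  rw [conj_w'] at h2
  unfold Ai
  rw [map_sub, map_mul, map_mul, h1, h2, conj_w, conj_w']
  ring

private theorem Ai_re (s : ℝ) : (Ai (s : ℂ)).re = 0 := by
  have h := Ai_conj (s : ℂ)
  rw [Complex.conj_ofReal] at h
  have h1 := congrArg Complex.re h
  rw [Complex.neg_re, Complex.conj_re] at h1
  linarith

private theorem hasDerivAt_yi (s : ℝ) : HasDerivAt (fun s : ℝ => (Ai (s : ℂ)).im) (Ad (s : ℂ)).im s := by
  have h0 : HasDerivAt (fun s : ℝ => (s : ℂ)) 1 s := Complex.ofRealCLM.hasDerivAt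
  have h1 : HasDerivAt (fun s : ℝ => Ai (s : ℂ)) (Ad (s : ℂ)) s := by
    simpa [Function.comp_def] using (hasDerivAt_Ai (s : ℂ)).comp s h0
  exact Complex.imCLM.hasFDerivAt.comp_hasDerivAt s h1

private theorem hasDerivAt_zi (s : ℝ) :
    HasDerivAt (fun s : ℝ => (Ad (s : ℂ)).im) (s * (Ai (s : ℂ)).im) s := by
  have h0 : HasDerivAt (fun s : ℝ => (s : ℂ)) 1 s := Complex.ofRealCLM.hasDerivAt
  have h1 : HasDerivAt (fun s : ℝ => Ad (s : ℂ)) ((s : ℂ) * Ai (s : ℂ)) s := by
    simpa [Function.comp_def] using (hasDerivAt_Ad (s : ℂ)).comp s h0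
  have h2 : HasDerivAt (fun s : ℝ => (Ad (s : ℂ)).im) ((s : ℂ) * Ai (s : ℂ)).im s :=
    Complex.imCLM.hasFDerivAt.comp_hasDerivAt s h1
  refine h2.congr_deriv ?_
  rw [Complex.im_ofReal_mul]

private theorem pos_of_ne {f : ℝ → ℝ} (hf : Continuous f) {a b : ℝ}
    (hne : ∀ x ∈ Set.Icc a b, f x ≠ 0) (ha : 0 < f a) : ∀ x ∈ Set.Icc a b, 0 < f x := by
  intro x hx
  by_contra h
  push Not at h
  obtain ⟨z, hz, hz0⟩ := intermediate_value_Icc' hx.1 hf.continuousOn (show (0 : ℝ) ∈ Set.Icc (f x) (f a) from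
    ⟨h, ha.le⟩)
  exact hne z ⟨hz.1, hz.2.trans hx.2⟩ hz0

/-- comparison with the sine -/
private theorem sturm {f g : ℝ → ℝ} (hf : ∀ s, HasDerivAt f (g s) s)
    (hg : ∀ s, HasDerivAt g (s * f s) s) {c : ℝ} (hc : c + Real.pi ≤ -1)
    (hpos : ∀ x ∈ Set.Icc c (c + Real.pi), 0 < f x) : False := by
  have hpi := Real.pi_pos
  set W : ℝ → ℝ := fun x => g x * Real.sin (x - c) - f x * Real.cos (x - c) with hW
  have hd : ∀ x, HasDerivAt W ((x + 1) * f x * Real.sin (x - c)) x := by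
    intro x
    have h1 : HasDerivAt (fun x : ℝ => x - c) 1 x := (hasDerivAt_id x).sub_const c
    have h2 : HasDerivAt (fun x : ℝ => Real.sin (x - c)) (Real.cos (x - c) * 1) x :=
      h1.sin
    have h3 : HasDerivAt (fun x : ℝ => Real.cos (x - c)) (-Real.sin (x - c) * 1) x :=
      h1.cos
    refine (((hg x).mul h2).sub ((hf x).mul h3)).congr_deriv ?_
    ring
  have hanti : AntitoneOn W (Set.Icc c (c + Real.pi)) := by
    refine antitoneOn_of_deriv_nonpos (convex_Icc _ _) ?_ ?_ ?_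
    · exact fun x _ => (hd x).continuousAt.continuousWithinAt
    · exact fun x _ => (hd x).differentiableAt.differentiableWithinAt
    · intro x hx
      rw [interior_Icc] at hx
      rw [(hd x).deriv]
      have h4 : 0 ≤ Real.sin (x - c) :=
        Real.sin_nonneg_of_nonneg_of_le_pi (by linarith [hx.1]) (by linarith [hx.2])
      have h5 : 0 < f x := hpos x ⟨hx.1.le, hx.2.le⟩
      have h6 : x + 1 ≤ 0 := by linarith [hx.2]
      exact mul_nonpos_of_nonpos_of_nonneg (mul_nonpos_of_nonpos_of_nonneg h6 h5.le) h4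
  have h7 := hanti (Set.left_mem_Icc.2 (by linarith)) (Set.right_mem_Icc.2 (by linarith))
    (show c ≤ c + Real.pi by linarith)
  have h8 : W (c + Real.pi) = f (c + Real.pi) := by
    simp only [hW, add_sub_cancel_left, Real.sin_pi, Real.cos_pi]
    ring
  have h9 : W c = -f c := by
    simp only [hW, sub_self, Real.sin_zero, Real.cos_zero]
    ring
  rw [h8, h9] at h7
  have h10 := hpos c (Set.left_mem_Icc.2 (by linarith))
  have h11 := hpos (c + Real.pi) (Set.right_mem_Icc.2 (by linarith))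
  linarith

theorem airy_unbounded (M : ℝ) : ∃ x : ℝ, x < M ∧ Ai x = 0 := by
  by_contra hno
  push Not at hno
  have hpi := Real.pi_pos
  have hpi4 : Real.pi < 4 := Real.pi_lt_four
  set c : ℝ := min M 0 - 5 with hc
  have hM : c + Real.pi < M := by
    have := min_le_left M (0 : ℝ)
    linarith
  have h0 : c + Real.pi ≤ -1 := by
    have := min_le_right M (0 : ℝ)
    linarith
  have hne : ∀ x ∈ Set.Icc c (c + Real.pi), (Ai (x : ℂ)).im ≠ 0 := by
    intro x hx h
    exact hno x (hx.2.trans_lt hM) (Complex.ext (by simpa using Ai_re x) (by simpa using h))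
  have hcont : Continuous fun s : ℝ => (Ai (s : ℂ)).im :=
    continuous_iff_continuousAt.2 fun s => (hasDerivAt_yi s).continuousAt
  have hmem : c ∈ Set.Icc c (c + Real.pi) := Set.left_mem_Icc.2 (by linarith)
  rcases lt_or_gt_of_ne (hne c hmem) with h | h
  · have hp := pos_of_ne (f := fun s : ℝ => -(Ai (s : ℂ)).im) hcont.neg
      (fun x hx h' => hne x hx (neg_eq_zero.1 h')) (neg_pos.2 h)
    refine sturm (f := fun s : ℝ => -(Ai (s : ℂ)).im) (g := fun s : ℝ => -(Ad (s : ℂ)).im)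
      (fun s => (hasDerivAt_yi s).neg) (fun s => ((hasDerivAt_zi s).neg).congr_deriv ?_) h0 hp
    ring
  · have hp := pos_of_ne hcont hne h
    exact sturm hasDerivAt_yi hasDerivAt_zi h0 hp

private theorem Ai_diff : Differentiable ℂ Ai := fun x => (hasDerivAt_Ai x).differentiableAt

private theorem Ai_fin (R : ℝ) : ({x : ℂ | Ai x = 0} ∩ Metric.closedBall 0 R).Finite := by
  by_contra hinf
  have hinf' : ({x : ℂ | Ai x = 0} ∩ Metric.closedBall 0 R).Infinite := hinf
  obtain ⟨x, hx, hacc⟩ := hinf'.exists_accPt_of_subset_isCompact (isCompact_closedBall (0 : ℂ) R)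
    (fun u hu => hu.2)
  have h1 : ∃ᶠ z in 𝓝[≠] x, Ai z = 0 := by
    rw [accPt_iff_frequently] at hacc
    rw [frequently_nhdsWithin_iff]
    exact hacc.mono fun z hz => ⟨hz.2.1, hz.1⟩
  have han : AnalyticOnNhd ℂ Ai Set.univ := fun z _ => Ai_diff.analyticAt z
  have h2 := han.eqOn_zero_of_preconnected_of_frequently_eq_zero isPreconnected_univ (Set.mem_univ x) h1
  exact Ai_zero_ne (h2 (Set.mem_univ 0))

private theorem zero_eq {z : ℂ} (h : Ai z = 0) : z = -(‖z‖ : ℂ) := by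
  obtain ⟨him, hre⟩ := airy_zero h
  have h1 : z = ((z.re : ℝ) : ℂ) := Complex.ext (by simp) (by simp [him])
  have h2 : ‖z‖ = -z.re := by
    rw [h1, Complex.norm_real, Real.norm_of_nonpos]
    · simp
    · simpa using hre.le
  rw [h2]
  push_cast
  rw [neg_neg]
  exact h1

/-- the zeros of the Airy function are `-a 0, -a 1, …` -/
theorem airy_enum : ∃ a : ℕ → ℝ, 0 < a 0 ∧ StrictMono a ∧ (∀ i, Ai (-(a i : ℂ)) = 0) ∧
    (∀ x : ℂ, Ai x = 0 → ∃ i, x = -(a i : ℂ)) ∧ Tendsto a atTop atTop := by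
  have hinj : ∀ z ∈ {x : ℂ | Ai x = 0}, ∀ w ∈ {x : ℂ | Ai x = 0}, ‖z‖ = ‖w‖ → z = w := by
    intro z hz w hw h
    rw [zero_eq hz, zero_eq hw, h]
  have hinf : {x : ℂ | Ai x = 0}.Infinite := by
    intro hfin
    obtain ⟨m, hm⟩ := (hfin.image Complex.re).bddBelow
    obtain ⟨x, hx, hx0⟩ := airy_unbounded m
    have h1 := hm ⟨(x : ℂ), hx0, rfl⟩
    rw [Complex.ofReal_re] at h1
    linarith
  obtain ⟨z, hz, hmono, hsurj, htend⟩ := SokalIn.exists_enum Ai_fin hinj hinf
  refine ⟨fun i => ‖z i‖, ?_, hmono, fun i => ?_, fun x hx => ?_, htend⟩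
  · rw [norm_pos_iff]
    intro h0
    have h1 : Ai (z 0) = 0 := hz 0
    rw [h0] at h1
    exact Ai_zero_ne h1
  · rw [← zero_eq (hz i)]
    exact hz i
  · obtain ⟨i, hi⟩ := hsurj x hx
    exact ⟨i, by rw [hi]; exact zero_eq (hz i)⟩

end SokalV
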