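import Pool.Agent.Lib_MP_af4de1_v.AiryLim
import Pool.Agent.Lib_MP_af4de1_v.Airy

/-!
# Locally uniform convergence at the Airy scale [IN-T6]

`zA t x = -e⁻¹ (1 - x t/ell t)`: `off (zA t x) = x t/ell t`, i.e. `off ζ * ell t/t = x` (`ell t ≠ 0`), and `fA t x = Ev t (zA t x)/(sz t (zA t x) ell t)`.
`airy_unif`: `tendstoLocallyUniformly_iff_forall_tendsto` and `tendsto_of_seq_tendsto` (countably generated filter `atTop ×ˢ 𝓝 x`): for sequences `n_j → ∞`,
`x_j → x` apply `airy_lim` to `t ∘ n`, `ζ_j = zA (t (n j)) (x j)` (`Par` holds: `zA → -e⁻¹` because `x_j t/ell t → 0`), and continuity of `Ai` for `Ai (x_j)`.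
`fA_differentiable`: `ζ ↦ Ev t ζ` is entire for `Re t ≥ 0` (`SokalF.hasDerivAt_F`), `sz ≠ 0`.
`fA_deriv`: at a zero of `fA t`, `F'(z) = F(qz)`: if `F (e^{-t}) (e^{-t} z) = 0` with `z = zA/t e^{-t/2}` then the derivative of `fA t` vanishes.
-/

namespace SokalV

open Complex Filter Topology

/-- the point with Airy coordinate `x` -/
noncomputable def zA (t x : ℂ) : ℂ := -cexp (-1) * (1 - x * t / ell t)

/-- `Ev` at the Airy scale -/
noncomputable def fA (t x : ℂ) : ℂ := Ev t (zA t x) / (sz t (zA t x) * ell t)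

/-- the zero of `F` -/
noncomputable def zF (t x : ℂ) : ℂ := zA t x / t * cexp (-t / 2)

theorem ell_ne_zero {t : ℂ} (ht : t ≠ 0) : ell t ≠ 0 := by
  intro h
  have := ell_pow (t := t)
  rw [h] at this
  apply ht
  simpa using this.symm

theorem off_zA {t : ℂ} (_ht : t ≠ 0) (x : ℂ) : off (zA t x) = x * t / ell t := by
  unfold off zA
  have h1 : cexp 1 * cexp (-1) = 1 := by rw [← Complex.exp_add, add_neg_cancel, Complex.exp_zero]
  linear_combination (-(1 - x * t / ell t)) * h1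

/-- every `ζ` has an Airy coordinate -/
theorem zA_off {t : ℂ} (ht : t ≠ 0) (ζ : ℂ) : zA t (off ζ * ell t / t) = ζ := by
  have hl := ell_ne_zero ht
  have h2 : off ζ * ell t / t * t / ell t = off ζ := by field_simp
  unfold zA
  rw [h2]
  unfold off
  have h1 : cexp 1 * cexp (-1) = 1 := by rw [← Complex.exp_add, add_neg_cancel, Complex.exp_zero]
  linear_combination ζ * h1

private theorem t6_den {t x : ℂ} (ht : t ≠ 0) : sz t (zA t x) * ell t ≠ 0 :=
  mul_ne_zero (Complex.exp_ne_zero _) (ell_ne_zero ht)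

private theorem t6_const {t : ℂ} (ht : t ≠ 0) : (2 * Real.pi * t : ℂ) ^ (1 / 2 : ℂ) * I ≠ 0 := by
  refine mul_ne_zero ?_ I_ne_zero
  have h1 : (2 * Real.pi * t : ℂ) ≠ 0 := by
    have : (Real.pi : ℂ) ≠ 0 := by exact_mod_cast Real.pi_ne_zero
    exact mul_ne_zero (mul_ne_zero two_ne_zero this) ht
  rw [Complex.cpow_def_of_ne_zero h1]
  exact Complex.exp_ne_zero _

private theorem t6_Ev (t x : ℂ) : Ev t (zA t x) =
    SokalF.F (cexp (-t)) (zF t x) * ((2 * Real.pi * t : ℂ) ^ (1 / 2 : ℂ) * I) := by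
  unfold Ev zF SokalU.E
  ring

theorem fA_eq_zero {t x : ℂ} (ht : t ≠ 0) : fA t x = 0 ↔ SokalF.F (cexp (-t)) (zF t x) = 0 := by
  unfold fA
  rw [div_eq_zero_iff, t6_Ev, mul_eq_zero]
  constructor
  · rintro ((h | h) | h)
    · exact h
    · exact absurd h (t6_const ht)
    · exact absurd h (t6_den ht)
  · intro h
    exact Or.inl (Or.inl h)

private theorem t6_norm {t : ℂ} (hre : 0 ≤ t.re) : ‖cexp (-t)‖ ≤ 1 := by
  rw [Complex.norm_exp, Complex.neg_re, Real.exp_le_one_iff]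
  linarith

private theorem t6_zA (t x : ℂ) : HasDerivAt (zA t) (-cexp (-1) * -(1 * t / ell t)) x := by
  unfold zA
  exact ((((hasDerivAt_id x).mul_const t).div_const (ell t)).const_sub 1).const_mul _

private theorem t6_zF (t x : ℂ) : HasDerivAt (zF t)
    (-cexp (-1) * -(1 * t / ell t) / t * cexp (-t / 2)) x := by
  unfold zF
  exact ((t6_zA t x).div_const t).mul_const _

private theorem t6_sz (t x : ℂ) : DifferentiableAt ℂ (fun x => sz t (zA t x) * ell t) x := by
  have h1 := (t6_zA t x).differentiableAt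
  unfold sz off
  fun_prop

private theorem t6_num {t : ℂ} (hre : 0 ≤ t.re) (x : ℂ) :
    HasDerivAt (fun x => Ev t (zA t x)) (SokalF.F (cexp (-t)) (cexp (-t) * zF t x) *
      (-cexp (-1) * -(1 * t / ell t) / t * cexp (-t / 2)) *
      ((2 * Real.pi * t : ℂ) ^ (1 / 2 : ℂ) * I)) x := by
  have h1 : (fun x => Ev t (zA t x)) = fun x => SokalF.F (cexp (-t)) (zF t x) *
      ((2 * Real.pi * t : ℂ) ^ (1 / 2 : ℂ) * I) := funext fun x => t6_Ev t x
  rw [h1]
  exact ((SokalF.hasDerivAt_F (t6_norm hre) (zF t x)).comp x (t6_zF t x)).mul_const _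

theorem fA_differentiable {t : ℂ} (ht : t ≠ 0) (hre : 0 ≤ t.re) : Differentiable ℂ (fA t) := by
  intro x
  exact (t6_num hre x).differentiableAt.fun_div (t6_sz t x) (t6_den ht)

theorem fA_simple {t x : ℂ} (ht : t ≠ 0) (hre : 0 ≤ t.re) (h0 : fA t x = 0)
    (h1 : deriv (fA t) x ≠ 0) : SokalF.F (cexp (-t)) (cexp (-t) * zF t x) ≠ 0 := by
  intro h2
  apply h1
  have h3 := t6_num hre x
  rw [h2, zero_mul, zero_mul] at h3
  have h4 := (t6_sz t x).hasDerivAt
  have h5 : HasDerivAt (fun y => Ev t (zA t y) / (sz t (zA t y) * ell t))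
      ((0 * (sz t (zA t x) * ell t) -
        Ev t (zA t x) * deriv (fun x => sz t (zA t x) * ell t) x) /
        (sz t (zA t x) * ell t) ^ 2) x := h3.fun_div h4 (t6_den ht)
  have h6 : Ev t (zA t x) = 0 := by
    rw [t6_Ev, (fA_eq_zero ht).1 h0, zero_mul]
  have h7 : fA t = fun y => Ev t (zA t y) / (sz t (zA t y) * ell t) := rfl
  rw [h7, h5.deriv, h6]
  simp

private theorem t6_ell_lim {t : ℕ → ℂ} (h : Tendsto t atTop (𝓝 0)) :
    Tendsto (fun n => ell (t n)) atTop (𝓝 0) := by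
  rw [tendsto_zero_iff_norm_tendsto_zero]
  have h1 : Tendsto (fun n => 2 * ‖t n‖) atTop (𝓝 0) := by
    have := (h.norm).const_mul 2
    simpa using this
  have h0 : ∀ t : ℂ, ‖ell t‖ ^ 3 = 2 * ‖t‖ := by
    intro t
    rw [← norm_pow, ell_pow, norm_mul]
    simp
  have h2 : (fun n => ‖ell (t n)‖) = fun n => (2 * ‖t n‖) ^ (1 / 3 : ℝ) := by
    funext n
    rw [← h0, ← Real.rpow_natCast, ← Real.rpow_mul (norm_nonneg _)]
    norm_num
  rw [h2]
  have h3 := h1.rpow_const (p := (1 / 3 : ℝ)) (Or.inr (by norm_num))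
  rwa [Real.zero_rpow (by norm_num)] at h3

private theorem t6_div {t : ℂ} (ht : t ≠ 0) : t / ell t = ell t ^ 2 / 2 := by
  have hl := ell_ne_zero ht
  have h := ell_pow (t := t)
  rw [div_eq_div_iff hl two_ne_zero]
  linear_combination -h

theorem airy_unif {t : ℕ → ℂ} {u0 : ℂ} (hne : ∀ n, t n ≠ 0) (hre : ∀ n, 0 ≤ (t n).re)
    (him : ∀ n, (t n).im ≤ 0) (hlim : Tendsto t atTop (𝓝 0))
    (hdir : Tendsto (fun n => (‖t n‖ : ℂ) / t n) atTop (𝓝 u0)) (hT : TipConn u0) :
    TendstoLocallyUniformly (fun n x => fA (t n) x) Ai atTop := by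
  have hu0 : ‖u0‖ = 1 := by
    refine tendsto_nhds_unique hdir.norm (tendsto_const_nhds.congr fun n => ?_)
    rw [norm_div, Complex.norm_real, norm_norm, div_self (norm_ne_zero_iff.2 (hne n))]
  have hparts : ∀ n, 0 ≤ ((‖t n‖ : ℂ) / t n).re ∧ 0 ≤ ((‖t n‖ : ℂ) / t n).im := by
    intro n
    rw [div_eq_mul_inv, re_ofReal_mul, im_ofReal_mul, inv_re, inv_im]
    exact ⟨mul_nonneg (norm_nonneg _) (div_nonneg (hre n) (normSq_nonneg _)),
      mul_nonneg (norm_nonneg _) (div_nonneg (by linarith [him n]) (normSq_nonneg _))⟩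
  have hure : 0 ≤ u0.re := ge_of_tendsto ((Complex.continuous_re.tendsto _).comp hdir)
    (Eventually.of_forall fun n => (hparts n).1)
  have huim : 0 ≤ u0.im := ge_of_tendsto ((Complex.continuous_im.tendsto _).comp hdir)
    (Eventually.of_forall fun n => (hparts n).2)
  have hAi : Continuous Ai := continuous_iff_continuousAt.2 fun x => (hasDerivAt_Ai x).continuousAt
  rw [tendstoLocallyUniformly_iff_forall_tendsto]
  intro x
  refine tendsto_of_seq_tendsto fun y hy => ?_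
  have hn : Tendsto (fun j => (y j).1) atTop atTop := (tendsto_fst.comp hy)
  have hx : Tendsto (fun j => (y j).2) atTop (𝓝 x) := (tendsto_snd.comp hy)
  have h1 : Tendsto (fun j => Ai (y j).2) atTop (𝓝 (Ai x)) := (hAi.tendsto x).comp hx
  have htl : Tendsto (fun j => t (y j).1) atTop (𝓝 0) := hlim.comp hn
  have hel := t6_ell_lim htl
  have hpar : Par (fun j => t (y j).1) (fun j => zA (t (y j).1) (y j).2) (-cexp (-1)) u0 := by
    refine ⟨fun j => hne _, fun j => hre _, fun j => him _, htl, hdir.comp hn, ?_⟩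
    have h2 : Tendsto (fun j => -cexp (-1) * (1 - (y j).2 * (ell (t (y j).1) ^ 2 / 2))) atTop
        (𝓝 (-cexp (-1) * (1 - x * ((0 : ℂ) ^ 2 / 2)))) :=
      ((hx.mul ((hel.pow 2).div_const 2)).const_sub 1).const_mul _
    have h3 : -cexp (-1) * (1 - x * ((0 : ℂ) ^ 2 / 2)) = -cexp (-1) := by ring
    rw [h3] at h2
    refine h2.congr fun j => ?_
    unfold zA
    rw [mul_div_assoc, t6_div (hne _)]
  have hoff : Tendsto (fun j => off (zA (t (y j).1) (y j).2) * ell (t (y j).1) / t (y j).1) atTop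
      (𝓝 x) := by
    refine hx.congr fun j => ?_
    have e1 := hne (y j).1
    have e2 := ell_ne_zero e1
    rw [off_zA e1]
    field_simp
  have h2 := (airy_lim hpar hu0 hure huim hT hoff).1
  have h3 : Tendsto (fun j => (Ai (y j).2, fA (t (y j).1) (y j).2)) atTop (𝓝 (Ai x, Ai x)) :=
    h1.prodMk_nhds h2
  exact h3.mono_right (nhds_le_uniformity (Ai x))

end SokalV
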