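import Pool.Agent.Lib_MP_af4de1_in.T4Edge
import Pool.Agent.Lib_MP_af4de1_in.T6Unif
import Pool.Agent.Lib_MP_af4de1_v.Tip1

/-!
# The first zeros are at the Airy scale [IN-T7]

By contradiction: for every `m` there are infinitely many `n` and `x` with `Ev (t n) (zA (t n) x) = 0`, `‖zA (t n) x‖ ≤ e⁻¹ ‖1 + A t n/ell (t n)‖`, `‖x‖ > m`:
choose `n_m` strictly increasing and `x_m`, `ζ_m = zA (t n_m) x_m`.  `‖ζ_m‖ ≥ e⁻¹` (`tree_EvDv`), `‖ζ_m‖ ≤ e⁻¹ (1 + A ‖w‖)`, `w = t/ell t → 0` (`‖ell t‖³ = 2‖t‖`), so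
a subsequence converges to `ζ0`, `‖ζ0‖ = e⁻¹`; `ζ0 ≠ -e⁻¹` contradicts `edge`.  `ζ0 = -e⁻¹`: `Par`, `tip_cases`: the Airy case contradicts `‖x‖ → ∞`
(`off (zA t x) ell t/t = x`).  Otherwise `Scale … v0`, `scale_one` (`tipConn_all`): `v0 cexp(2 arg u0/3 I) = -1`, `arg u0 ∈ [0, π/2]`: `Re v0 = -cos(2 arg u0/3) ≤ -1/2`, so
`Re (off ζ) ≤ -‖off ζ‖/4` for large `m`, `e ‖ζ_m‖ = ‖1 - off ζ_m‖ ≥ 1 + ‖off ζ_m‖/4`, so `‖off ζ_m‖ ≤ 4 A ‖w‖` and `‖x_m‖ = ‖off ζ_m‖/‖w‖ ≤ 4A`: contradiction.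
-/

namespace SokalV

open Complex Filter Topology

private theorem ts7_w {t : ℂ} (ht : t ≠ 0) : ‖t / ell t‖ ^ 3 = ‖t‖ ^ 2 / 2 := by
  have h1 : ‖ell t‖ ^ 3 = 2 * ‖t‖ := by
    rw [← norm_pow, ell_pow, norm_mul]
    simp
  have h2 : 0 < ‖t‖ := norm_pos_iff.2 ht
  rw [norm_div, div_pow, h1]
  field_simp

private theorem ts7_wlim {t : ℕ → ℂ} (hne : ∀ n, t n ≠ 0) (hlim : Tendsto t atTop (𝓝 0)) :
    Tendsto (fun n => ‖t n / ell (t n)‖) atTop (𝓝 0) := by
  have h1 : Tendsto (fun n => ‖t n‖ ^ 2 / 2) atTop (𝓝 0) := by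
    have h2 := (hlim.norm.pow 2).div_const 2
    simpa using h2
  have h2 : (fun n => ‖t n / ell (t n)‖) = fun n => (‖t n‖ ^ 2 / 2) ^ (1 / 3 : ℝ) := by
    funext n
    rw [← ts7_w (hne n), ← Real.rpow_natCast, ← Real.rpow_mul (norm_nonneg _)]
    norm_num
  rw [h2]
  have h3 := h1.rpow_const (p := (1 / 3 : ℝ)) (Or.inr (by norm_num))
  rwa [Real.zero_rpow (by norm_num)] at h3

/-- the case of the larger scale: the direction -/
private theorem ts7_dir {u0 v0 : ℂ} (hre : 0 ≤ u0.re) (him : 0 ≤ u0.im)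
    (h : v0 * cexp (2 * u0.arg / 3 * I) = -1) : v0.re ≤ -1 / 2 := by
  have h1 : v0 = -cexp ((-(2 * u0.arg / 3) : ℝ) * I) := by
    have h2 : cexp (2 * u0.arg / 3 * I) * cexp ((-(2 * u0.arg / 3) : ℝ) * I) = 1 := by
      rw [← Complex.exp_add]
      have : (2 * (u0.arg : ℂ) / 3 * I + ((-(2 * u0.arg / 3) : ℝ) : ℂ) * I) = 0 := by
        push_cast
        ring
      rw [this, Complex.exp_zero]
    calc v0 = v0 * (cexp (2 * u0.arg / 3 * I) * cexp ((-(2 * u0.arg / 3) : ℝ) * I)) := by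
          rw [h2, mul_one]
      _ = (v0 * cexp (2 * u0.arg / 3 * I)) * cexp ((-(2 * u0.arg / 3) : ℝ) * I) := by ring
      _ = _ := by rw [h]; ring
  have ha0 : 0 ≤ u0.arg := Complex.arg_nonneg_iff.2 him
  have ha1 : u0.arg ≤ Real.pi / 2 := (Complex.abs_arg_le_pi_div_two_iff.2 hre |> abs_le.1).2
  have h3 : v0.re = -Real.cos (2 * u0.arg / 3) := by
    rw [h1, Complex.neg_re, Complex.exp_ofReal_mul_I_re, Real.cos_neg]
  have h4 : 1 / 2 ≤ Real.cos (2 * u0.arg / 3) := by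
    rw [← Real.cos_pi_div_three]
    refine Real.cos_le_cos_of_nonneg_of_le_pi (by positivity) ?_ ?_
    · linarith [Real.pi_pos]
    · linarith
  rw [h3]
  linarith

/-- sequence form -/
private theorem ts7_seq {t : ℕ → ℂ} {u0 : ℂ} (hne : ∀ n, t n ≠ 0) (hre : ∀ n, 0 ≤ (t n).re)
    (him : ∀ n, (t n).im ≤ 0) (hlim : Tendsto t atTop (𝓝 0))
    (hdir : Tendsto (fun n => (‖t n‖ : ℂ) / t n) atTop (𝓝 u0)) {A : ℝ} (hA : 0 < A)
    {x : ℕ → ℂ} (hE : ∀ n, Ev (t n) (zA (t n) (x n)) = 0)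
    (hb : ∀ n, ‖zA (t n) (x n)‖ ≤ Real.exp (-1) * ‖1 + A * (t n / ell (t n))‖)
    (hx : Tendsto (fun n => ‖x n‖) atTop atTop) : False := by
  set ζ : ℕ → ℂ := fun n => zA (t n) (x n) with hζ
  have hw := ts7_wlim hne hlim
  have he := Real.exp_pos (-1)
  have hlow : ∀ n, Real.exp (-1) ≤ ‖ζ n‖ := by
    intro n
    by_contra hcon
    push Not at hcon
    exact (tree_EvDv (hne n) (hre n) hcon).1 (hE n)
  have hup : ∀ n, ‖ζ n‖ ≤ Real.exp (-1) * (1 + A * ‖t n / ell (t n)‖) := by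
    intro n
    refine (hb n).trans (mul_le_mul_of_nonneg_left ?_ he.le)
    refine (norm_add_le _ _).trans ?_
    rw [norm_one, norm_mul, Complex.norm_real, Real.norm_of_nonneg hA.le]
  have huplim : Tendsto (fun n => Real.exp (-1) * (1 + A * ‖t n / ell (t n)‖)) atTop
      (𝓝 (Real.exp (-1))) := by
    have h1 := ((hw.const_mul A).const_add 1).const_mul (Real.exp (-1))
    simpa using h1
  have hnlim : Tendsto (fun n => ‖ζ n‖) atTop (𝓝 (Real.exp (-1))) :=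
    tendsto_of_tendsto_of_tendsto_of_le_of_le tendsto_const_nhds huplim hlow hup
  obtain ⟨B, hB⟩ := hnlim.bddAbove_range
  have hmem : ∀ n, ζ n ∈ Metric.closedBall (0 : ℂ) B := by
    intro n
    rw [mem_closedBall_zero_iff]
    exact hB ⟨n, rfl⟩
  obtain ⟨ζ0, -, ψ, hψ, hζlim⟩ := tendsto_subseq_of_bounded Metric.isBounded_closedBall hmem
  have hζ0 : ‖ζ0‖ = Real.exp (-1) :=
    tendsto_nhds_unique hζlim.norm (hnlim.comp hψ.tendsto_atTop)
  have hpar : Par (t ∘ ψ) (ζ ∘ ψ) ζ0 u0 :=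
    ⟨fun n => hne _, fun n => hre _, fun n => him _, hlim.comp hψ.tendsto_atTop,
      hdir.comp hψ.tendsto_atTop, hζlim⟩
  by_cases htip : ζ0 = -cexp (-1)
  · rw [htip] at hpar
    have hu := hpar.norm_dir
    have hur := hpar.dir_re
    have hui := hpar.dir_im
    have hxe : ∀ n, off (ζ n) * ell (t n) / t n = x n := by
      intro n
      have h1 := ell_ne_zero (hne n)
      have h2 := hne n
      show off (zA (t n) (x n)) * ell (t n) / t n = x n
      rw [off_zA h2]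
      field_simp
    rcases tip_cases hpar with ⟨φ, hφ, x0, hx0⟩ | ⟨φ, hφ, v0, hv0, hs⟩
    · have h1 : Tendsto (fun n => ‖x (ψ (φ n))‖) atTop (𝓝 ‖x0‖) := by
        have h2 := hx0.norm
        refine h2.congr fun n => ?_
        show ‖off (ζ (ψ (φ n))) * ell (t (ψ (φ n))) / t (ψ (φ n))‖ = _
        rw [hxe]
      have h2 : Tendsto (fun n => ‖x (ψ (φ n))‖) atTop atTop :=
        hx.comp (hψ.tendsto_atTop.comp hφ.tendsto_atTop)
      exact not_tendsto_nhds_of_tendsto_atTop h2 _ h1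
    · have hpar' := par_comp hpar hφ
      by_cases h1 : v0 * cexp (2 * u0.arg / 3 * I) = -1
      · have h2 := ts7_dir hur hui h1
        have h3 : Tendsto (fun n => (off (ζ (ψ (φ n))) / ‖off (ζ (ψ (φ n)))‖).re) atTop
            (𝓝 v0.re) := (Complex.continuous_re.tendsto _).comp hs.dir
        have h4 : ∀ᶠ n in atTop, (off (ζ (ψ (φ n))) / ‖off (ζ (ψ (φ n)))‖).re < -1 / 4 :=
          h3.eventually_lt_const (by linarith)
        have h5 : ∀ᶠ n in atTop, ‖x (ψ (φ n))‖ ≤ 4 * A := by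
          filter_upwards [h4] with n hn
          set m := ψ (φ n) with hm
          have hoff : off (ζ m) ≠ 0 := hs.ne n
          have hop : 0 < ‖off (ζ m)‖ := norm_pos_iff.2 hoff
          have h6 : (off (ζ m)).re < -1 / 4 * ‖off (ζ m)‖ := by
            rw [Complex.div_ofReal_re, div_lt_iff₀ hop] at hn
            exact hn
          have h7 : 1 + ‖off (ζ m)‖ / 4 ≤ ‖1 - off (ζ m)‖ := by
            refine le_trans ?_ (Complex.re_le_norm _)
            rw [Complex.sub_re, Complex.one_re]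
            linarith
          have h8 : ‖1 - off (ζ m)‖ = Real.exp 1 * ‖ζ m‖ := by
            have h9 : 1 - off (ζ m) = -(cexp 1 * ζ m) := by
              unfold off
              ring
            rw [h9, norm_neg, norm_mul, Complex.norm_exp, Complex.one_re]
          have h9 : Real.exp 1 * ‖ζ m‖ ≤ 1 + A * ‖t m / ell (t m)‖ := by
            calc Real.exp 1 * ‖ζ m‖ ≤ Real.exp 1 * (Real.exp (-1) *
                (1 + A * ‖t m / ell (t m)‖)) := mul_le_mul_of_nonneg_left (hup m) (Real.exp_pos 1).le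
              _ = (Real.exp 1 * Real.exp (-1)) * (1 + A * ‖t m / ell (t m)‖) := by ring
              _ = _ := by rw [← Real.exp_add]; norm_num
          have h10 : ‖off (ζ m)‖ ≤ 4 * A * ‖t m / ell (t m)‖ := by linarith
          have h11 : off (ζ m) = x m * (t m / ell (t m)) := by
            show off (zA (t m) (x m)) = _
            rw [off_zA (hne m), mul_div_assoc]
          have h12 : 0 < ‖t m / ell (t m)‖ :=
            norm_pos_iff.2 (div_ne_zero (hne m) (ell_ne_zero (hne m)))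
          rw [h11, norm_mul] at h10
          exact le_of_mul_le_mul_right h10 h12
        have h6 : Tendsto (fun n => ‖x (ψ (φ n))‖) atTop atTop :=
          hx.comp (hψ.tendsto_atTop.comp hφ.tendsto_atTop)
        obtain ⟨n, hn1, hn2⟩ := (h5.and (h6.eventually_gt_atTop (4 * A))).exists
        exact absurd hn1 (not_le.2 hn2)
      · obtain ⟨h2, -⟩ := scale_one hpar' hu hur hui (tipConn_all hu hur hui) hs hv0 h1
        obtain ⟨n, hn⟩ := h2.exists
        exact hn (hE _)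
  · obtain ⟨n, hn⟩ := (edge hpar hζ0 htip).exists
    exact hn (hE _)

theorem scale_bound {t : ℕ → ℂ} {u0 : ℂ} (hne : ∀ n, t n ≠ 0) (hre : ∀ n, 0 ≤ (t n).re)
    (him : ∀ n, (t n).im ≤ 0) (hlim : Tendsto t atTop (𝓝 0))
    (hdir : Tendsto (fun n => (‖t n‖ : ℂ) / t n) atTop (𝓝 u0)) {A : ℝ} (hA : 0 < A) :
    ∃ M : ℝ, ∀ᶠ n in atTop, ∀ x : ℂ, fA (t n) x = 0 →
      ‖zA (t n) x‖ ≤ Real.exp (-1) * ‖1 + A * (t n / ell (t n))‖ → ‖x‖ ≤ M := by
  by_contra hcon
  push Not at hcon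
  have h1 : ∀ m : ℕ, ∃ᶠ n in atTop, ∃ x : ℂ, fA (t n) x = 0 ∧
      ‖zA (t n) x‖ ≤ Real.exp (-1) * ‖1 + A * (t n / ell (t n))‖ ∧ (m : ℝ) < ‖x‖ := by
    intro m
    have h2 := hcon (m : ℝ)
    exact h2
  obtain ⟨φ, hφ, h2⟩ := Filter.extraction_forall_of_frequently h1
  choose x hx1 hx2 hx3 using h2
  refine ts7_seq (t := t ∘ φ) (u0 := u0) (fun n => hne _) (fun n => hre _) (fun n => him _)
    (hlim.comp hφ.tendsto_atTop) (hdir.comp hφ.tendsto_atTop) hA (x := x) (fun n => ?_)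
    (fun n => hx2 n) ?_
  · have h3 := hx1 n
    unfold fA at h3
    have h4 : sz (t (φ n)) (zA (t (φ n)) (x n)) ≠ 0 := by
      unfold sz
      exact Complex.exp_ne_zero _
    have h5 := ell_ne_zero (hne (φ n))
    rcases div_eq_zero_iff.1 h3 with h6 | h6
    · exact h6
    · exact absurd h6 (mul_ne_zero h4 h5)
  · refine tendsto_atTop_mono (fun n => (hx3 n).le) tendsto_natCast_atTop_atTop

end SokalV
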