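import Pool.Agent.Lib_MP_af4de1_in.Defs
import Pool.Agent.Lib_MP_af4de1_in.T5Airy
import Pool.Agent.Lib_MP_af4de1_in.T7Scale
import Pool.Agent.Lib_MP_af4de1_in.Hurw

/-!
# The first zeros near `q = 1` along a sequence [IN-T8]

`w_n = t n/ell (t n)`, `ell t = |ell t| e^{i arg t/3}` so `arg w = (2/3) arg t`, `Re w ≥ ‖w‖/2`, `w_n → 0`, `‖t n‖/‖w_n‖ = ‖ell (t n)‖ → 0`.
`mono_scale`: `0 < a < a'`, `‖x + a‖, ‖x' + a'‖ ≤ (a' - a)/16`, `Re w ≥ ‖w‖/2`, `a'‖w‖ ≤ 1`: `‖1 - x w‖ + (a' - a)‖w‖/8 ≤ ‖1 - x' w‖`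
(`‖1 + a' w‖² - ‖1 + a w‖² ≥ (a' - a)‖w‖`, sum of the norms `≤ 4`).
`seq_first`: `a` from `airy_enum`, `A = a (k + 1)`, `M` from `scale_bound`, `K ≥ k + 1` with `M + 1 < a K`.
`hurwitz_simple` (`Hurw.lean`, helper4) at each `-a i`, `i ≤ K`, with a common small radius `r ≤ min (a (i+1) - a i)/16`: for large `n` exactly one zero `x_i` of `fA (t n)` in
`ball (-a i) r`, simple.  On the compact set `closedBall 0 (M + 1/2) \ ⋃ ball (-a i) r` `|Ai| ≥ m > 0`, so no zeros of `fA (t n)` there.  `z i = zF (t n) (x_i)`.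
Completeness: `F (e^{-t}) w = 0`, `‖w‖ ≤ ‖z k‖`, `w = zF t x` (`zA_off`), `‖zA t x‖ ≤ ‖zA t x_k‖ = e⁻¹‖1 - x_k w_n‖ ≤ e⁻¹‖1 + A w_n‖`, so `‖x‖ ≤ M`, so `x = x_i`, and `i ≤ k` by
`mono_scale`.  Gap: `‖z i‖ < ‖e^{-t}‖ ‖z (i+1)‖`: `mono_scale` and `1 - ‖e^{-t}‖ ≤ ‖t‖ = o(‖w‖)`.
-/

namespace SokalV

open Complex Filter Topology SokalIn

private theorem t8_norm_ell {t : ℂ} : ‖ell t‖ ^ 3 = 2 * ‖t‖ := by
  rw [← norm_pow, ell_pow, norm_mul]
  simp

private theorem t8_ell_lim {t : ℕ → ℂ} (h : Tendsto t atTop (𝓝 0)) :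
    Tendsto (fun n => ‖ell (t n)‖) atTop (𝓝 0) := by
  have h1 : Tendsto (fun n => 2 * ‖t n‖) atTop (𝓝 0) := by
    have := (h.norm).const_mul 2
    simpa using this
  rw [Metric.tendsto_atTop] at h1 ⊢
  intro ε hε
  obtain ⟨N, hN⟩ := h1 (ε ^ 3) (by positivity)
  refine ⟨N, fun n hn => ?_⟩
  have h2 := hN n hn
  rw [Real.dist_eq, sub_zero, abs_of_nonneg (by positivity), ← t8_norm_ell] at h2
  rw [Real.dist_eq, sub_zero, abs_of_nonneg (norm_nonneg _)]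
  exact lt_of_pow_lt_pow_left₀ 3 hε.le h2

private theorem t8_w {t : ℂ} (ht : t ≠ 0) : t / ell t = ell t ^ 2 / 2 := by
  have h := ell_ne_zero ht
  rw [div_eq_div_iff h two_ne_zero]
  linear_combination -(ell_pow (t := t))

theorem w_re {t : ℂ} (ht : t ≠ 0) (hre : 0 ≤ t.re) : ‖t / ell t‖ / 2 ≤ (t / ell t).re := by
  have h2 : (2 * t) ≠ 0 := mul_ne_zero two_ne_zero ht
  have h3 : ell t ^ 2 = cexp (Complex.log (2 * t) * (2 / 3)) := by
    unfold ell
    rw [Complex.cpow_def_of_ne_zero h2, ← Complex.exp_nat_mul]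
    congr 1
    push_cast
    ring
  have him : (Complex.log (2 * t) * (2 / 3)).im = 2 / 3 * (2 * t).arg := by
    have : (2 / 3 : ℂ) = ((2 / 3 : ℝ) : ℂ) := by push_cast; ring
    rw [this, Complex.mul_im, Complex.ofReal_re, Complex.ofReal_im, mul_zero, zero_add,
      Complex.log_im]
    ring
  have harg : |(2 * t).arg| ≤ Real.pi / 2 := by
    rw [Complex.abs_arg_le_pi_div_two_iff]
    simp only [Complex.mul_re, Complex.re_ofNat, Complex.im_ofNat, zero_mul, sub_zero]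
    linarith
  have hcos : 1 / 2 ≤ Real.cos (2 / 3 * (2 * t).arg) := by
    rw [← Real.cos_abs, ← Real.cos_pi_div_three]
    refine Real.cos_le_cos_of_nonneg_of_le_pi (abs_nonneg _) (by linarith [Real.pi_pos]) ?_
    rw [abs_mul, abs_of_nonneg (by norm_num : (0 : ℝ) ≤ 2 / 3)]
    linarith
  rw [t8_w ht, h3, norm_div, Complex.norm_exp]
  have h4 : (cexp (Complex.log (2 * t) * (2 / 3)) / 2).re =
      (cexp (Complex.log (2 * t) * (2 / 3))).re / 2 := by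
    simp
  rw [h4, Complex.exp_re, him]
  have h5 : ‖(2 : ℂ)‖ = 2 := by simp
  rw [h5]
  have h6 := Real.exp_pos (Complex.log (2 * t) * (2 / 3)).re
  nlinarith

private theorem t8_sq (a : ℝ) (w : ℂ) : ‖1 + a * w‖ ^ 2 = 1 + 2 * a * w.re + a ^ 2 * ‖w‖ ^ 2 := by
  rw [← Complex.normSq_eq_norm_sq, ← Complex.normSq_eq_norm_sq, Complex.normSq_apply,
    Complex.normSq_apply]
  simp
  ring

theorem mono_scale {a a' : ℝ} (h0 : 0 < a) (h : a < a') {x x' w : ℂ} (hx : ‖x + a‖ ≤ (a' - a) / 16)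
    (hx' : ‖x' + a'‖ ≤ (a' - a) / 16) (hw : ‖w‖ / 2 ≤ w.re) (hs : a' * ‖w‖ ≤ 1) :
    ‖1 - x * w‖ + (a' - a) * ‖w‖ / 8 ≤ ‖1 - x' * w‖ := by
  have hwn := norm_nonneg w
  have e1 : ‖1 - x * w‖ ≤ ‖1 + a * w‖ + (a' - a) / 16 * ‖w‖ := by
    have : 1 - x * w = (1 + a * w) - (x + a) * w := by ring
    rw [this]
    refine (norm_sub_le _ _).trans ?_
    rw [norm_mul]
    have := mul_le_mul_of_nonneg_right hx hwn
    linarith
  have e2 : ‖1 + a' * w‖ ≤ ‖1 - x' * w‖ + (a' - a) / 16 * ‖w‖ := by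
    have : 1 + a' * w = (1 - x' * w) + (x' + a') * w := by ring
    rw [this]
    refine (norm_add_le _ _).trans ?_
    rw [norm_mul]
    have := mul_le_mul_of_nonneg_right hx' hwn
    linarith
  have e3 := t8_sq a w
  have e4 := t8_sq a' w
  have e5 : ‖1 + a * w‖ ≤ 2 := by
    refine (norm_add_le _ _).trans ?_
    rw [norm_one, norm_mul, Complex.norm_real, Real.norm_of_nonneg h0.le]
    have := mul_le_mul_of_nonneg_right h.le hwn
    linarith
  have e6 : ‖1 + a' * w‖ ≤ 2 := by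
    refine (norm_add_le _ _).trans ?_
    rw [norm_one, norm_mul, Complex.norm_real, Real.norm_of_nonneg (h0.trans h).le]
    linarith
  have e7 : (a' - a) * ‖w‖ ≤ ‖1 + a' * w‖ ^ 2 - ‖1 + a * w‖ ^ 2 := by
    rw [e3, e4]
    have h1 : 0 ≤ (a' ^ 2 - a ^ 2) * ‖w‖ ^ 2 := by
      refine mul_nonneg ?_ (sq_nonneg _)
      nlinarith
    have h2 : (a' - a) * (‖w‖ / 2) ≤ (a' - a) * w.re :=
      mul_le_mul_of_nonneg_left hw (by linarith)
    nlinarith
  have e8 : 0 ≤ (a' - a) * ‖w‖ := mul_nonneg (by linarith) hwn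
  have e9 : ‖1 + a * w‖ + (a' - a) * ‖w‖ / 4 ≤ ‖1 + a' * w‖ := by
    by_contra hc
    push Not at hc
    have n1 := norm_nonneg (1 + (a : ℂ) * w)
    have n2 := norm_nonneg (1 + (a' : ℂ) * w)
    have h3 : ‖1 + (a' : ℂ) * w‖ ^ 2 - ‖1 + (a : ℂ) * w‖ ^ 2 =
        (‖1 + (a' : ℂ) * w‖ - ‖1 + (a : ℂ) * w‖) * (‖1 + (a' : ℂ) * w‖ + ‖1 + (a : ℂ) * w‖) := by
      ring
    rcases le_or_gt (‖1 + (a' : ℂ) * w‖ - ‖1 + (a : ℂ) * w‖) 0 with h4 | h4
    · have h5 : (‖1 + (a' : ℂ) * w‖ - ‖1 + (a : ℂ) * w‖) *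
          (‖1 + (a' : ℂ) * w‖ + ‖1 + (a : ℂ) * w‖) ≤ 0 :=
        mul_nonpos_of_nonpos_of_nonneg h4 (by linarith)
      have h6 : (a' - a) * ‖w‖ = 0 := by linarith
      rw [h6] at hc
      nlinarith
    · have h5 : (‖1 + (a' : ℂ) * w‖ - ‖1 + (a : ℂ) * w‖) *
          (‖1 + (a' : ℂ) * w‖ + ‖1 + (a : ℂ) * w‖) ≤
          (‖1 + (a' : ℂ) * w‖ - ‖1 + (a : ℂ) * w‖) * 4 :=
        mul_le_mul_of_nonneg_left (by linarith) h4.le
      linarith
  linarith

/-- the modulus of the zero -/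
private theorem t8_norm_zF (t x : ℂ) :
    ‖zF t x‖ = Real.exp (-1) / ‖t‖ * ‖cexp (-t / 2)‖ * ‖1 - x * (t / ell t)‖ := by
  unfold zF zA
  rw [norm_mul, norm_div, norm_mul, norm_neg, mul_div_assoc]
  have : ‖cexp (-1)‖ = Real.exp (-1) := by
    rw [Complex.norm_exp]
    simp
  rw [this]
  ring_nf

private theorem t8_norm_zA (t x : ℂ) : ‖zA t x‖ = Real.exp (-1) * ‖1 - x * (t / ell t)‖ := by
  unfold zA
  rw [norm_mul, norm_neg, mul_div_assoc]
  have : ‖cexp (-1)‖ = Real.exp (-1) := by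
    rw [Complex.norm_exp]
    simp
  rw [this]

private theorem t8_exists {t : ℂ} (ht : t ≠ 0) (w : ℂ) : ∃ x, zF t x = w := by
  refine ⟨off (w * t * cexp (t / 2)) * ell t / t, ?_⟩
  unfold zF
  rw [zA_off ht]
  have h1 : cexp (t / 2) * cexp (-t / 2) = 1 := by
    rw [← Complex.exp_add, show t / 2 + -t / 2 = 0 by ring, Complex.exp_zero]
  have h2 : w * t * cexp (t / 2) / t * cexp (-t / 2) =
      w * (t / t) * (cexp (t / 2) * cexp (-t / 2)) := by ring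
  rw [h2, h1, div_self ht, mul_one, mul_one]

/-- the conditions on `t` under which the assembly works -/
private theorem t8_core {a : ℕ → ℝ} (ha0 : 0 < a 0) (ham : StrictMono a) {k K : ℕ} (hK : k + 1 ≤ K)
    {r M : ℝ} (hr : 0 < r) (hrgap : ∀ i ≤ K, r ≤ (a (i + 1) - a i) / 16) {t : ℂ} (ht : t ≠ 0)
    (hre : 0 ≤ t.re) {x : ℕ → ℂ} (hx0 : ∀ i ≤ K, fA t (x i) = 0)
    (hxd : ∀ i ≤ K, deriv (fA t) (x i) ≠ 0) (hxb : ∀ i ≤ K, ‖x i + a i‖ ≤ r)
    (hsm : a (K + 1) * ‖t / ell t‖ ≤ 1)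
    (hM : ∀ y : ℂ, fA t y = 0 →
      ‖zA t y‖ ≤ Real.exp (-1) * ‖1 + (a (k + 1) : ℝ) * (t / ell t)‖ → ‖y‖ ≤ M)
    (hall : ∀ y : ℂ, ‖y‖ ≤ M → fA t y = 0 → ∃ i ≤ K, y = x i)
    (hell : ‖ell t‖ < r / 8) :
    First (cexp (-t)) k (fun i => zF t (x i)) ∧
      ∀ i < k, ‖zF t (x i)‖ < ‖cexp (-t)‖ * ‖zF t (x (i + 1))‖ := by
  set w : ℂ := t / ell t with hw
  have hell0 : ell t ≠ 0 := ell_ne_zero ht
  have hw0 : w ≠ 0 := div_ne_zero ht hell0
  have hwpos : 0 < ‖w‖ := norm_pos_iff.2 hw0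
  have hwre : ‖w‖ / 2 ≤ w.re := w_re ht hre
  have htw : ‖t‖ = ‖ell t‖ * ‖w‖ := by
    rw [hw, norm_div]
    field_simp
  have hpos : ∀ i, 0 < a i := fun i => ha0.trans_le (ham.monotone (Nat.zero_le i))
  have hsi : ∀ i ≤ K + 1, a i * ‖w‖ ≤ 1 := fun i hi =>
    (mul_le_mul_of_nonneg_right (ham.monotone hi) hwpos.le).trans hsm
  -- comparison of two zeros
  have hcmp : ∀ i j, i < j → j ≤ K →
      ‖1 - x i * w‖ + (a j - a i) * ‖w‖ / 8 ≤ ‖1 - x j * w‖ := by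
    intro i j hij hj
    have h1 : a (i + 1) ≤ a j := ham.monotone hij
    have h2 := hrgap i (by omega)
    refine mono_scale (hpos i) (ham hij) ((hxb i (by omega)).trans ?_) ((hxb j hj).trans ?_) hwre
      (hsi j (by omega))
    · linarith
    · linarith
  have hc : 0 < Real.exp (-1) / ‖t‖ * ‖cexp (-t / 2)‖ := by
    have h1 : 0 < ‖t‖ := norm_pos_iff.2 ht
    have h2 : 0 < ‖cexp (-t / 2)‖ := norm_pos_iff.2 (Complex.exp_ne_zero _)
    positivity
  have hq1 : ‖cexp (-t)‖ ≤ 1 := by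
    rw [Complex.norm_exp, Real.exp_le_one_iff]
    simpa using hre
  have hq2 : 1 - ‖t‖ ≤ ‖cexp (-t)‖ := by
    rw [Complex.norm_exp]
    have h1 := Real.add_one_le_exp (-t).re
    have h2 := Complex.re_le_norm t
    have h3 : (-t).re = -t.re := rfl
    linarith
  have hgap : ∀ i < k, ‖zF t (x i)‖ < ‖cexp (-t)‖ * ‖zF t (x (i + 1))‖ := by
    intro i hi
    rw [t8_norm_zF, t8_norm_zF, ← hw]
    have h1 := hcmp i (i + 1) (Nat.lt_succ_self i) (by omega)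
    have h2 : ‖1 - x (i + 1) * w‖ ≤ 3 := by
      have h3 : 1 - x (i + 1) * w = 1 + (a (i + 1) : ℂ) * w - (x (i + 1) + a (i + 1)) * w := by ring
      rw [h3]
      refine (norm_sub_le _ _).trans ?_
      have h4 : ‖1 + (a (i + 1) : ℂ) * w‖ ≤ 2 := by
        refine (norm_add_le _ _).trans ?_
        rw [norm_one, norm_mul, Complex.norm_real, Real.norm_of_nonneg (hpos _).le]
        linarith [hsi (i + 1) (by omega)]
      have h5 : ‖(x (i + 1) + a (i + 1)) * w‖ ≤ 1 := by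
        rw [norm_mul]
        have h6 := hxb (i + 1) (by omega)
        have h7 := hrgap i (by omega)
        have h8 : r ≤ a (i + 1) := by linarith [hpos i]
        exact (mul_le_mul_of_nonneg_right (h6.trans h8) hwpos.le).trans (hsi (i + 1) (by omega))
      linarith
    have h3 : 0 ≤ ‖1 - x (i + 1) * w‖ := norm_nonneg _
    have h4 : ‖1 - x i * w‖ < ‖cexp (-t)‖ * ‖1 - x (i + 1) * w‖ := by
      have h5 : (1 - ‖t‖) * ‖1 - x (i + 1) * w‖ ≤ ‖cexp (-t)‖ * ‖1 - x (i + 1) * w‖ :=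
        mul_le_mul_of_nonneg_right hq2 h3
      have h6 : ‖t‖ * ‖1 - x (i + 1) * w‖ ≤ ‖t‖ * 3 :=
        mul_le_mul_of_nonneg_left h2 (norm_nonneg _)
      have h7 : ‖t‖ * 3 < (a (i + 1) - a i) * ‖w‖ / 8 := by
        rw [htw]
        have h8 := hrgap i (by omega)
        have h9 : ‖ell t‖ * ‖w‖ < r / 8 * ‖w‖ := mul_lt_mul_of_pos_right hell hwpos
        have h10 : r * ‖w‖ ≤ (a (i + 1) - a i) / 16 * ‖w‖ := mul_le_mul_of_nonneg_right h8 hwpos.le
        have h11 : 0 < r * ‖w‖ := mul_pos hr hwpos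
        linarith
      linarith
    calc Real.exp (-1) / ‖t‖ * ‖cexp (-t / 2)‖ * ‖1 - x i * w‖
        < Real.exp (-1) / ‖t‖ * ‖cexp (-t / 2)‖ * (‖cexp (-t)‖ * ‖1 - x (i + 1) * w‖) :=
          mul_lt_mul_of_pos_left h4 hc
      _ = ‖cexp (-t)‖ * (Real.exp (-1) / ‖t‖ * ‖cexp (-t / 2)‖ * ‖1 - x (i + 1) * w‖) := by ring
  refine ⟨⟨fun i hi => (fA_eq_zero ht).1 (hx0 i (by omega)),
    fun i hi => fA_simple ht hre (hx0 i (by omega)) (hxd i (by omega)), fun i hi => ?_,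
    fun v hv hvk => ?_⟩, hgap⟩
  · refine (hgap i hi).trans_le ?_
    have := mul_le_mul_of_nonneg_right hq1 (norm_nonneg (zF t (x (i + 1))))
    rwa [one_mul] at this
  · obtain ⟨y, rfl⟩ := t8_exists ht v
    have hy0 : fA t y = 0 := (fA_eq_zero ht).2 hv
    rw [t8_norm_zF, t8_norm_zF, ← hw] at hvk
    have h1 : ‖1 - y * w‖ ≤ ‖1 - x k * w‖ := le_of_mul_le_mul_left hvk hc
    have h2 : ‖1 - x k * w‖ ≤ ‖1 + (a (k + 1) : ℝ) * w‖ := by
      have h3 := hrgap k (by omega)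
      have h4 := mono_scale (x := x k) (x' := -(a (k + 1) : ℂ)) (w := w) (hpos k)
        (ham (Nat.lt_succ_self k)) ((hxb k (by omega)).trans h3) ?_ hwre (hsi (k + 1) (by omega))
      · have h5 : (1 : ℂ) - -(a (k + 1) : ℂ) * w = 1 + (a (k + 1) : ℝ) * w := by ring
        rw [h5] at h4
        have h6 : 0 ≤ (a (k + 1) - a k) * ‖w‖ / 8 := by
          have := ham (Nat.lt_succ_self k)
          have h7 : 0 ≤ (a (k + 1) - a k) * ‖w‖ := mul_nonneg (by linarith) hwpos.le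
          linarith
        linarith
      · rw [neg_add_cancel, norm_zero]
        linarith
    have h3 : ‖zA t y‖ ≤ Real.exp (-1) * ‖1 + (a (k + 1) : ℝ) * (t / ell t)‖ := by
      rw [t8_norm_zA, ← hw]
      exact mul_le_mul_of_nonneg_left (h1.trans h2) (Real.exp_pos _).le
    obtain ⟨i, hi, rfl⟩ := hall y (hM y hy0 h3) hy0
    refine ⟨i, ?_, rfl⟩
    by_contra hik
    rw [not_le] at hik
    have h4 := hcmp k i hik hi
    have h5 : 0 < (a i - a k) * ‖w‖ := mul_pos (by linarith [ham hik]) hwpos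
    linarith

private theorem t8_min (g : ℕ → ℝ) (K : ℕ) (hg : ∀ i ≤ K, 0 < g i) : ∃ e > 0, ∀ i ≤ K, e ≤ g i := by
  obtain ⟨e, he, h⟩ := SokalIn.exists_pos_le g (K + 1) fun i hi => hg i (by omega)
  exact ⟨e, he, fun i hi => h i (by omega)⟩

theorem seq_first {t : ℕ → ℂ} {u0 : ℂ} (hne : ∀ n, t n ≠ 0) (hre : ∀ n, 0 ≤ (t n).re)
    (him : ∀ n, (t n).im ≤ 0) (hlim : Tendsto t atTop (𝓝 0))
    (hdir : Tendsto (fun n => (‖t n‖ : ℂ) / t n) atTop (𝓝 u0)) (k : ℕ) :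
    ∀ᶠ n in atTop, ∃ z : ℕ → ℂ, First (cexp (-t n)) k z ∧
      ∀ i < k, ‖z i‖ < ‖cexp (-t n)‖ * ‖z (i + 1)‖ := by
  -- the direction
  have hform : ∀ n, (‖t n‖ : ℂ) / t n = ((‖t n‖⁻¹ : ℝ) : ℂ) * (starRingEnd ℂ) (t n) := by
    intro n
    have h1 : (‖t n‖ : ℂ) ≠ 0 := by
      exact_mod_cast (norm_pos_iff.2 (hne n)).ne'
    have h2 : (starRingEnd ℂ) (t n) * t n = (‖t n‖ : ℂ) ^ 2 := by
      rw [mul_comm, Complex.mul_conj, Complex.normSq_eq_norm_sq]
      push_cast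
      ring
    rw [div_eq_iff (hne n), mul_assoc, h2]
    push_cast
    field_simp
  have hu : ‖u0‖ = 1 := by
    refine tendsto_nhds_unique hdir.norm ?_
    refine tendsto_const_nhds.congr fun n => ?_
    rw [norm_div, Complex.norm_real, norm_norm, div_self (norm_pos_iff.2 (hne n)).ne']
  have hure : 0 ≤ u0.re := by
    refine ge_of_tendsto ((Complex.continuous_re.tendsto u0).comp hdir) (Eventually.of_forall fun n => ?_)
    rw [Function.comp_apply, hform, Complex.re_ofReal_mul, Complex.conj_re]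
    exact mul_nonneg (inv_nonneg.2 (norm_nonneg _)) (hre n)
  have huim : 0 ≤ u0.im := by
    refine ge_of_tendsto ((Complex.continuous_im.tendsto u0).comp hdir) (Eventually.of_forall fun n => ?_)
    rw [Function.comp_apply, hform, Complex.im_ofReal_mul, Complex.conj_im]
    exact mul_nonneg (inv_nonneg.2 (norm_nonneg _)) (by linarith [him n])
  have hunif := airy_unif hne hre him hlim hdir (tipConn_all hu hure huim)
  -- the Airy zeros
  obtain ⟨a, ha0, ham, haz, hall, hat⟩ := airy_enum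
  have hpos : ∀ i, 0 < a i := fun i => ha0.trans_le (ham.monotone (Nat.zero_le i))
  obtain ⟨M, hM⟩ := scale_bound hne hre him hlim hdir (A := a (k + 1)) (hpos _)
  obtain ⟨K, hK1, hK2⟩ : ∃ K, k + 1 ≤ K ∧ M < a K := by
    obtain ⟨K, h1, h2⟩ := ((eventually_ge_atTop (k + 1)).and (hat.eventually_gt_atTop M)).exists
    exact ⟨K, h1, h2⟩
  have hAi : Differentiable ℂ Ai := fun x => (hasDerivAt_Ai x).differentiableAt
  have hAid : ∀ i, deriv Ai (-(a i : ℂ)) ≠ 0 := fun i => by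
    rw [(hasDerivAt_Ai _).deriv]
    exact airy_simple (haz i)
  have hH := fun i : ℕ => SokalIn.hurwitz_simple (fun n => fA_differentiable (hne n) (hre n)) hAi hunif
    (haz i) (hAid i)
  choose r0 hr0 hH using hH
  obtain ⟨r, hr, hrle⟩ := t8_min (fun i => min (r0 i) ((a (i + 1) - a i) / 16)) K fun i _ =>
    lt_min (hr0 i) (by linarith [ham (Nat.lt_succ_self i)])
  have hr1 : ∀ i ≤ K, r ≤ r0 i := fun i hi => (hrle i hi).trans (min_le_left _ _)
  have hr2 : ∀ i ≤ K, r ≤ (a (i + 1) - a i) / 16 := fun i hi => (hrle i hi).trans (min_le_right _ _)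
  have hz : ∀ᶠ n in atTop, ∀ i ∈ Finset.range (K + 1),
      (∃! x, x ∈ Metric.ball (-(a i : ℂ)) r ∧ fA (t n) x = 0) ∧
      (∀ x ∈ Metric.ball (-(a i : ℂ)) r, deriv (fA (t n)) x ≠ 0) := by
    rw [Filter.eventually_all_finset]
    intro i hi
    have hi' : i ≤ K := by
      rw [Finset.mem_range] at hi
      omega
    filter_upwards [hH i r ⟨hr, hr1 i hi'⟩] with n hn
    exact ⟨hn.1, hn.2.1⟩
  -- no other zeros
  set C : Set ℂ := Metric.closedBall 0 M \ ⋃ i ∈ Finset.range (K + 1), Metric.ball (-(a i : ℂ)) r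
    with hCdef
  have hCc : IsCompact C :=
    (isCompact_closedBall (0 : ℂ) M).diff (isOpen_biUnion fun i _ => Metric.isOpen_ball)
  have hCmem : ∀ y, y ∈ C ↔ ‖y‖ ≤ M ∧ ∀ i ≤ K, r ≤ ‖y - -(a i : ℂ)‖ := by
    intro y
    rw [hCdef, Set.mem_sdiff, mem_closedBall_zero_iff, Set.mem_iUnion₂]
    simp only [Finset.mem_range, Metric.mem_ball, dist_eq_norm, not_exists, not_lt,
      Nat.lt_succ_iff]
  have hC0 : ∀ y ∈ C, Ai y ≠ 0 := by
    intro y hy h0
    rw [hCmem] at hy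
    obtain ⟨i, rfl⟩ := hall y h0
    rcases le_or_gt i K with hi | hi
    · have := hy.2 i hi
      rw [sub_self, norm_zero] at this
      linarith
    · have h1 := hy.1
      rw [norm_neg, Complex.norm_real, Real.norm_of_nonneg (hpos i).le] at h1
      have := ham hi
      linarith
  have hC : ∀ᶠ n in atTop, ∀ y ∈ C, fA (t n) y ≠ 0 := by
    rcases C.eq_empty_or_nonempty with he | hCne
    · refine Eventually.of_forall fun n y hy => ?_
      rw [he] at hy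
      exact absurd hy (Set.notMem_empty y)
    · obtain ⟨y0, hy0, hmin⟩ := hCc.exists_isMinOn hCne hAi.continuous.norm.continuousOn
      have hm : 0 < ‖Ai y0‖ := norm_pos_iff.2 (hC0 y0 hy0)
      have h1 : TendstoUniformlyOn (fun n x => fA (t n) x) Ai atTop C :=
        (tendstoLocallyUniformlyOn_iff_tendstoUniformlyOn_of_compact hCc).1
          hunif.tendstoLocallyUniformlyOn
      rw [Metric.tendstoUniformlyOn_iff] at h1
      filter_upwards [h1 _ hm] with n hn y hy h0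
      have h2 := hn y hy
      rw [h0, dist_zero_right] at h2
      exact absurd (show ‖Ai y0‖ ≤ ‖Ai y‖ from hmin hy) (not_le.2 h2)
  -- small quantities
  have hl := t8_ell_lim hlim
  have hwlim : Tendsto (fun n => a (K + 1) * ‖t n / ell (t n)‖) atTop (𝓝 0) := by
    have h1 : Tendsto (fun n => a (K + 1) * (‖ell (t n)‖ ^ 2 / 2)) atTop (𝓝 (a (K + 1) * (0 ^ 2 / 2))) :=
      ((hl.pow 2).div_const 2).const_mul _
    have h2 : a (K + 1) * ((0 : ℝ) ^ 2 / 2) = 0 := by ring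
    rw [h2] at h1
    refine h1.congr fun n => ?_
    rw [t8_w (hne n), norm_div, norm_pow]
    simp
  filter_upwards [hM, hz, hC, hl.eventually_lt_const (show (0 : ℝ) < r / 8 by positivity),
    hwlim.eventually_lt_const one_pos] with n h1 h2 h3 h4 h5
  have h2' : ∀ i, ∃ y : ℂ, i ≤ K → ‖y + a i‖ ≤ r ∧ fA (t n) y = 0 ∧ deriv (fA (t n)) y ≠ 0 ∧
      ∀ y', ‖y' - -(a i : ℂ)‖ < r → fA (t n) y' = 0 → y' = y := by
    intro i
    by_cases hi : i ≤ K
    · obtain ⟨⟨y, ⟨hy1, hy2⟩, hy3⟩, hd⟩ := h2 i (Finset.mem_range.2 (by omega))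
      refine ⟨y, fun _ => ⟨?_, hy2, hd y hy1, fun y' hy' h0 => hy3 y' ⟨?_, h0⟩⟩⟩
      · rw [Metric.mem_ball, dist_eq_norm, sub_neg_eq_add] at hy1
        exact hy1.le
      · rw [Metric.mem_ball, dist_eq_norm]
        exact hy'
    · exact ⟨0, fun h => absurd h hi⟩
  choose x hx using h2'
  refine ⟨fun i => zF (t n) (x i), ?_⟩
  refine t8_core ha0 ham hK1 hr hr2 (hne n) (hre n) (fun i hi => (hx i hi).2.1)
    (fun i hi => (hx i hi).2.2.1) (fun i hi => (hx i hi).1) h5.le h1 ?_ h4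
  intro y hy h0
  have h6 : y ∉ C := fun h7 => h3 y h7 h0
  rw [hCmem] at h6
  push Not at h6
  obtain ⟨i, hi, hi2⟩ := h6 hy
  exact ⟨i, hi, (hx i hi).2.2.2 y hi2 h0⟩

end SokalV
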