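import Mathlib

/-!
# Zero winding number through continuous logarithms
-/

set_option autoImplicit false

namespace SokalIn

open Complex Set Filter Topology

/-- `f` has a continuous `2π`-periodic logarithm. -/
def W0 (f : ℝ → ℂ) : Prop :=
  ∃ L : ℝ → ℂ, Continuous L ∧ (∀ θ, L (θ + 2 * Real.pi) = L θ) ∧ ∀ θ, cexp (L θ) = f θ

/-- a nonvanishing continuous function on a simply connected, locally path connected space has a
continuous logarithm -/
theorem lift_of {X : Type*} [TopologicalSpace X] [LocallyPathConnectedSpace X]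
    [SimplyConnectedSpace X] {H : X → ℂ} (hc : Continuous H) (h0 : ∀ p, H p ≠ 0) :
    ∃ L : X → ℂ, Continuous L ∧ ∀ p, cexp (L p) = H p := by
  obtain ⟨x0⟩ : Nonempty X := inferInstance
  obtain ⟨L, ⟨-, hL⟩, -⟩ := isCoveringMapOn_exp.existsUnique_continuousMap_lifts
    (⟨H, hc⟩ : C(X, ℂ)) (a₀ := x0) (e₀ := Complex.log (H x0)) (exp_log (h0 x0))
    (fun a => h0 a)
  exact ⟨L, L.continuous, fun p => congrFun hL p⟩

instance : SimplyConnectedSpace (ℝ × ℝ) := inferInstance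
instance : LocallyPathConnectedSpace (ℝ × ℝ) := inferInstance

/-- a continuous function with `exp D = 1` is constant -/
theorem const_of_exp_eq_one {X : Type*} [TopologicalSpace X] [PreconnectedSpace X] {D : X → ℂ}
    (hD : Continuous D) (h1 : ∀ x, cexp (D x) = 1) (x y : X) : D x = D y := by
  have hn : ∀ x, ∃ n : ℤ, D x = n * (2 * Real.pi * I) := fun x => exp_eq_one_iff.1 (h1 x)
  choose n hn using hn
  have hcont : Continuous n := by
    rw [Int.isClosedEmbedding_coe_real.isEmbedding.continuous_iff]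
    have : ((fun m : ℤ => (m : ℝ)) ∘ n) = fun x => (D x).im / (2 * Real.pi) := by
      funext x
      have hpi := Real.pi_pos
      simp only [Function.comp_apply]
      rw [hn x]
      have : ((n x : ℂ) * (2 * Real.pi * I)).im = (n x : ℝ) * (2 * Real.pi) := by
        simp
      rw [this]
      field_simp
    rw [this]
    fun_prop
  have : n x = n y := PreconnectedSpace.constant inferInstance hcont
  rw [hn x, hn y, this]

theorem W0.ne_zero {f : ℝ → ℂ} (hf : W0 f) (θ : ℝ) : f θ ≠ 0 := by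
  obtain ⟨L, -, -, h⟩ := hf
  rw [← h]
  exact exp_ne_zero _

theorem W0.mul {f g : ℝ → ℂ} (hf : W0 f) (hg : W0 g) : W0 fun θ => f θ * g θ := by
  obtain ⟨L, hL, hp, he⟩ := hf
  obtain ⟨M, hM, hq, hm⟩ := hg
  exact ⟨fun θ => L θ + M θ, hL.add hM, fun θ => by simp [hp, hq], fun θ => by
    rw [exp_add, he, hm]⟩

theorem W0.inv {f : ℝ → ℂ} (hf : W0 f) : W0 fun θ => (f θ)⁻¹ := by
  obtain ⟨L, hL, hp, he⟩ := hf
  exact ⟨fun θ => -L θ, hL.neg, fun θ => by simp [hp], fun θ => by rw [exp_neg, he]⟩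

theorem W0.div {f g : ℝ → ℂ} (hf : W0 f) (hg : W0 g) : W0 fun θ => f θ / g θ := by
  simpa only [div_eq_mul_inv] using hf.mul hg.inv

theorem W0.const {c : ℂ} (hc : c ≠ 0) : W0 fun _ => c :=
  ⟨fun _ => Complex.log c, continuous_const, fun _ => rfl, fun _ => exp_log hc⟩

theorem W0.congr {f g : ℝ → ℂ} (hf : W0 f) (h : ∀ θ, g θ = f θ) : W0 g := by
  have : g = f := funext h
  rw [this]; exact hf

theorem W0.of_exp {L : ℝ → ℂ} (hL : Continuous L) (hp : ∀ θ, L (θ + 2 * Real.pi) = L θ) :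
    W0 fun θ => cexp (L θ) := ⟨L, hL, hp, fun _ => rfl⟩

theorem W0.prod {ι : Type*} (s : Finset ι) {f : ι → ℝ → ℂ} (hf : ∀ i ∈ s, W0 (f i)) :
    W0 fun θ => ∏ i ∈ s, f i θ := by
  classical
  induction s using Finset.induction_on with
  | empty => simpa using W0.const one_ne_zero
  | insert a s ha ih =>
    refine ((hf a (Finset.mem_insert_self a s)).mul
      (ih fun i hi => hf i (Finset.mem_insert_of_mem hi))).congr fun θ => ?_
    rw [Finset.prod_insert ha]

/-- homotopy invariance -/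
theorem W0.homotopy {H : ℝ × ℝ → ℂ} (hc : Continuous H) (h0 : ∀ p, H p ≠ 0)
    (hp : ∀ θ s, H (θ + 2 * Real.pi, s) = H (θ, s)) {a b : ℝ} (ha : W0 fun θ => H (θ, a)) :
    W0 fun θ => H (θ, b) := by
  obtain ⟨L, hL, he⟩ := lift_of hc h0
  obtain ⟨M, hM, hMp, hMe⟩ := ha
  have hD1 : ∀ p : ℝ × ℝ, cexp (L (p.1 + 2 * Real.pi, p.2) - L p) = 1 := by
    intro p
    rw [exp_sub, he, he, hp]
    exact div_self (h0 _)
  have hDc : Continuous fun p : ℝ × ℝ => L (p.1 + 2 * Real.pi, p.2) - L p := by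
    fun_prop
  have hconst := const_of_exp_eq_one hDc hD1
  -- the value at `(0, a)`
  have hE1 : ∀ θ : ℝ, cexp (L (θ, a) - M θ) = 1 := by
    intro θ
    rw [exp_sub, he, hMe]
    exact div_self (h0 _)
  have hEc : Continuous fun θ : ℝ => L (θ, a) - M θ := by fun_prop
  have hE := const_of_exp_eq_one hEc hE1
  have h00 : L (0 + 2 * Real.pi, a) - L (0, a) = 0 := by
    have h1 : L (0 + 2 * Real.pi, a) - M (0 + 2 * Real.pi) = L (0, a) - M 0 :=
      hE (0 + 2 * Real.pi) 0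
    rw [hMp 0] at h1
    linear_combination h1
  refine ⟨fun θ => L (θ, b), by fun_prop, fun θ => ?_, fun θ => he _⟩
  have h1 : L (θ + 2 * Real.pi, b) - L (θ, b) = L (0 + 2 * Real.pi, a) - L (0, a) :=
    hconst (θ, b) (0, a)
  rw [h00, sub_eq_zero] at h1
  exact h1

/-- the winding number of `e^(imθ)` is `m` -/
theorem W0.int_eq_zero {m : ℤ} (h : W0 fun θ => cexp (m * θ * I)) : m = 0 := by
  obtain ⟨L, hL, hp, he⟩ := h
  have h1 : ∀ θ : ℝ, cexp (L θ - m * θ * I) = 1 := by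
    intro θ
    rw [exp_sub, he]
    exact div_self (exp_ne_zero _)
  have hc : Continuous fun θ : ℝ => L θ - m * θ * I := by fun_prop
  have h2 := const_of_exp_eq_one hc h1 (0 + 2 * Real.pi) 0
  simp only [hp 0] at h2
  have h3 : (m : ℂ) * (2 * Real.pi) * I = 0 := by
    push_cast at h2
    linear_combination -h2
  have hpi : (Real.pi : ℂ) ≠ 0 := by exact_mod_cast Real.pi_ne_zero
  have h4 : (m : ℂ) = 0 := by
    rcases mul_eq_zero.1 h3 with h | h
    · rcases mul_eq_zero.1 h with h | h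
      · exact h
      · exact absurd h (mul_ne_zero two_ne_zero hpi)
    · exact absurd h I_ne_zero
  exact_mod_cast h4

/-- a homotopy over `[0,1]` -/
theorem W0.homotopy01 {H : ℝ × ℝ → ℂ} (hc : ContinuousOn H (univ ×ˢ Icc 0 1))
    (h0 : ∀ θ, ∀ s ∈ Icc (0 : ℝ) 1, H (θ, s) ≠ 0)
    (hp : ∀ θ, ∀ s ∈ Icc (0 : ℝ) 1, H (θ + 2 * Real.pi, s) = H (θ, s))
    (ha : W0 fun θ => H (θ, 0)) : W0 fun θ => H (θ, 1) := by
  have hmem : ∀ s : ℝ, (projIcc (0 : ℝ) 1 zero_le_one s : ℝ) ∈ Icc (0 : ℝ) 1 := fun s =>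
    (projIcc (0 : ℝ) 1 zero_le_one s).2
  have hpr : Continuous fun s : ℝ => (projIcc (0 : ℝ) 1 zero_le_one s : ℝ) :=
    continuous_subtype_val.comp continuous_projIcc
  have hc' : Continuous fun p : ℝ × ℝ => H (p.1, (projIcc (0 : ℝ) 1 zero_le_one p.2 : ℝ)) := by
    refine hc.comp_continuous (by fun_prop) fun p => ?_
    exact ⟨mem_univ _, hmem _⟩
  have h1 := W0.homotopy (H := fun p : ℝ × ℝ => H (p.1, (projIcc (0 : ℝ) 1 zero_le_one p.2 : ℝ)))
    hc' (fun p => h0 _ _ (hmem _)) (fun θ s => hp _ _ (hmem _)) (a := 0) (b := 1)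
  simp only [projIcc_left, projIcc_right] at h1
  exact h1 ha

end SokalIn
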