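import Pool.Agent.Lib_MP_af4de1_in.Local
import Pool.Agent.Lib_MP_af4de1_in.Par88

/-!
# The winding numbers of the zeros on a good circle

`q^i z_i = -(1-q)⁻¹ ∏_{l<i} (1 - z_l/z_i)/(1 - z_l/(q z_i)) · Q(z_i)/Q(q z_i)`, from
`F'(z_i) = F(q z_i)`, `F = ∏_{l≤i} (w - z_l) Q`.  Every factor has a continuous periodic logarithm.
-/

set_option autoImplicit false

open Complex Set Filter Topology SokalF

namespace SokalIn

theorem norm_qq {ρ : ℝ} (hρ : 0 < ρ) (θ : ℝ) : ‖qq ρ θ 1‖ = ρ := by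
  unfold qq
  rw [Complex.norm_exp]
  have : (((1 : ℝ) : ℂ) * (Real.log ρ + θ * I)).re = Real.log ρ := by simp
  rw [this, Real.exp_log hρ]

theorem continuous_qq (ρ : ℝ) : Continuous fun θ : ℝ => qq ρ θ 1 := by
  unfold qq
  fun_prop

theorem qq_period (ρ θ : ℝ) : qq ρ (θ + 2 * Real.pi) 1 = qq ρ θ 1 := by
  unfold qq
  have : (((1 : ℝ) : ℂ) * (Real.log ρ + ((θ + 2 * Real.pi : ℝ) : ℂ) * I)) =
      ((1 : ℝ) : ℂ) * (Real.log ρ + θ * I) + 2 * Real.pi * I := by
    push_cast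
    ring
  rw [this, exp_periodic]

theorem qq_ne_zero (ρ θ τ : ℝ) : qq ρ θ τ ≠ 0 := exp_ne_zero _

/-- joint continuity -/
theorem continuous_F_qq {ρ : ℝ} (hρ : 0 < ρ) (hρ1 : ρ ≤ 1) :
    Continuous (Function.uncurry fun (θ : ℝ) (w : ℂ) => F (qq ρ θ 1) w) := by
  have h1 : Continuous fun p : ℝ × ℂ => (qq ρ p.1 1, p.2) :=
    ((continuous_qq ρ).comp continuous_fst).prodMk continuous_snd
  exact continuousOn_F.comp_continuous h1 fun p => (norm_qq hρ p.1).trans_le hρ1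

/-! ### Logarithms of the elementary factors -/

theorem W0.one_sub {u : ℝ → ℂ} (hu : Continuous u) (hp : ∀ θ, u (θ + 2 * Real.pi) = u θ)
    (h1 : ∀ θ, ‖u θ‖ < 1) : W0 fun θ => 1 - u θ := by
  have hs : ∀ θ, 1 - u θ ∈ Complex.slitPlane := by
    intro θ
    left
    rw [Complex.sub_re, Complex.one_re]
    linarith [Complex.re_le_norm (u θ), h1 θ]
  refine ⟨fun θ => Complex.log (1 - u θ), ?_, fun θ => by simp [hp], fun θ => ?_⟩
  · exact Continuous.clog (by fun_prop) hs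
  · exact Complex.exp_log (Complex.slitPlane_ne_zero (hs θ))

/-! ### The quotients -/

/-- `f / ∏_{i<n} (w - a i)` -/
noncomputable def Qf (f : ℝ → ℂ → ℂ) (a : ℝ → ℕ → ℂ) : ℕ → ℝ → ℂ → ℂ
  | 0 => f
  | n + 1 => fun θ w => dslope (Qf f a n θ) (a θ n) w

section

variable {f : ℝ → ℂ → ℂ} {a : ℝ → ℕ → ℂ} {k : ℕ}

theorem Qf_diff (hd : ∀ θ, Differentiable ℂ (f θ)) (n : ℕ) :
    ∀ θ, Differentiable ℂ (Qf f a n θ) := by
  induction n with
  | zero => exact hd
  | succ n ih => exact fun θ => differentiable_dslope (ih θ) _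

theorem Qf_cont (hc : Continuous (Function.uncurry f)) (hd : ∀ θ, Differentiable ℂ (f θ))
    (ha : ∀ i ≤ k, Continuous fun θ => a θ i) {n : ℕ} (hn : n ≤ k + 1) :
    Continuous (Function.uncurry (Qf f a n)) := by
  induction n with
  | zero => exact hc
  | succ n ih => exact continuous_dslope_par (ih (by omega)) (Qf_diff hd n) (ha n (by omega))

theorem Qf_period {T : ℝ} (hf : ∀ θ, f (θ + T) = f θ) (ha : ∀ i ≤ k, ∀ θ, a (θ + T) i = a θ i)
    {n : ℕ} (hn : n ≤ k + 1) : ∀ θ, Qf f a n (θ + T) = Qf f a n θ := by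
  induction n with
  | zero => exact hf
  | succ n ih =>
    intro θ
    funext w
    simp only [Qf]
    rw [ih (by omega) θ, ha n (by omega)]

theorem Qf_eq {θ : ℝ} (h0 : ∀ i ≤ k, f θ (a θ i) = 0)
    (hne : ∀ i j, i < j → j ≤ k → a θ i ≠ a θ j) {n : ℕ} (hn : n ≤ k + 1) :
    ∀ w, f θ w = (∏ i ∈ Finset.range n, (w - a θ i)) * Qf f a n θ w := by
  induction n with
  | zero => intro w; simp [Qf]
  | succ n ih =>
    intro w
    have ih' := ih (by omega)
    have hz : Qf f a n θ (a θ n) = 0 := by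
      have h1 := ih' (a θ n)
      rw [h0 n (by omega)] at h1
      rcases mul_eq_zero.1 h1.symm with h2 | h2
      · exfalso
        obtain ⟨i, hi, h3⟩ := Finset.prod_eq_zero_iff.1 h2
        rw [Finset.mem_range] at hi
        exact hne i n hi (by omega) (sub_eq_zero.1 h3).symm
      · exact h2
    have h4 : Qf f a n θ w = (w - a θ n) * Qf f a (n + 1) θ w := by
      have := sub_smul_dslope (Qf f a n θ) (a θ n) w
      rw [hz, sub_zero, smul_eq_mul] at this
      exact this.symm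
    rw [ih' w, h4, Finset.prod_range_succ]
    ring

end

/-! ### The formula -/

section

variable {q : ℂ} {k : ℕ} {z : ℕ → ℂ}

theorem First.ne (h : First q k z) {i j : ℕ} (hij : i < j) (hj : j ≤ k) : z i ≠ z j := by
  intro h1
  have := h.lt hij hj
  rw [h1] at this
  exact lt_irrefl _ this

/-- the last quotient has no zero in the closed disc -/
theorem quot_ne (hq : ‖q‖ ≤ 1) (h : First q k z) {Q : ℂ → ℂ} (hQ : Differentiable ℂ Q)
    (hF : ∀ w, F q w = (∏ i ∈ Finset.range (k + 1), (w - z i)) * Q w) {w : ℂ}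
    (hw : ‖w‖ ≤ ‖z k‖) : Q w ≠ 0 := by
  intro h0
  have h1 : F q w = 0 := by rw [hF, h0, mul_zero]
  obtain ⟨i, hi, rfl⟩ := h.complete w h1 hw
  refine h.simple i hi ?_
  rw [← deriv_F hq]
  have h2 : HasDerivAt Q (deriv Q (z i)) (z i) := (hQ (z i)).hasDerivAt
  have h3 : DifferentiableAt ℂ (fun w => ∏ i ∈ Finset.range (k + 1), (w - z i)) (z i) := by
    fun_prop
  have h5 : F q = fun w => (∏ i ∈ Finset.range (k + 1), (w - z i)) * Q w := funext hF
  have h6 : ∏ j ∈ Finset.range (k + 1), (z i - z j) = 0 :=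
    Finset.prod_eq_zero (Finset.mem_range.2 (Nat.lt_succ_of_le hi)) (sub_self _)
  have h4 : HasDerivAt (fun w => (∏ i ∈ Finset.range (k + 1), (w - z i)) * Q w) 0 (z i) :=
    (h3.hasDerivAt.mul h2).congr_deriv (by simp only [h0, h6, mul_zero, zero_mul, add_zero])
  rw [h5]
  exact h4.deriv

/-- `F'(z_k) = F(q z_k)` -/
theorem zero_formula (hq : ‖q‖ ≤ 1) {Q : ℂ → ℂ} (hQ : Differentiable ℂ Q)
    (hF : ∀ w, F q w = (∏ i ∈ Finset.range (k + 1), (w - z i)) * Q w) :
    (∏ i ∈ Finset.range k, (z k - z i)) * Q (z k) =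
      (∏ i ∈ Finset.range k, (q * z k - z i)) * ((q - 1) * z k) * Q (q * z k) := by
  have h1 : deriv (F q) (z k) = F q (q * z k) := deriv_F hq (z k)
  have h2 : HasDerivAt Q (deriv Q (z k)) (z k) := (hQ (z k)).hasDerivAt
  have h3 : DifferentiableAt ℂ (fun w => ∏ i ∈ Finset.range k, (w - z i)) (z k) := by fun_prop
  have h30 : HasDerivAt (fun w => w - z k) 1 (z k) := (hasDerivAt_id (z k)).sub_const (z k)
  have h5 : F q = fun w => (∏ i ∈ Finset.range k, (w - z i)) * (w - z k) * Q w := by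
    funext w
    rw [hF w, Finset.prod_range_succ]
  have h4 : HasDerivAt (fun w => (∏ i ∈ Finset.range k, (w - z i)) * (w - z k) * Q w)
      ((∏ i ∈ Finset.range k, (z k - z i)) * Q (z k)) (z k) :=
    ((h3.hasDerivAt.mul h30).mul h2).congr_deriv (by simp)
  have h7 : deriv (F q) (z k) = (∏ i ∈ Finset.range k, (z k - z i)) * Q (z k) := by
    rw [h5]
    exact h4.deriv
  rw [← h7, h1, hF (q * z k), Finset.prod_range_succ]
  ring

end

/-- The exact formula. -/
theorem neg_zero_mul_pow {q : ℂ} (hq : ‖q‖ < 1) (hq0 : q ≠ 0) {k : ℕ} {z : ℕ → ℂ}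
    (h : First q k z) (hgap : ∀ l < k, ‖z l‖ < ‖q‖ * ‖z k‖) {Q : ℂ → ℂ} (hQ : Differentiable ℂ Q)
    (hF : ∀ w, F q w = (∏ i ∈ Finset.range (k + 1), (w - z i)) * Q w) :
    -z k * q ^ k = (1 - q)⁻¹ * (∏ l ∈ Finset.range k, (1 - z l / z k) / (1 - z l / (q * z k))) *
      (Q (z k) / Q (q * z k)) := by
  have h1 := zero_formula hq.le hQ hF
  have hz : z k ≠ 0 := h.ne_zero le_rfl
  have hqz : q * z k ≠ 0 := mul_ne_zero hq0 hz
  have hq1 : 1 - q ≠ 0 := by
    intro h2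
    rw [← sub_eq_zero.1 h2, norm_one] at hq
    exact lt_irrefl _ hq
  have e1 : ∏ l ∈ Finset.range k, (z k - z l) =
      z k ^ k * ∏ l ∈ Finset.range k, (1 - z l / z k) := by
    rw [← Finset.card_range k, ← Finset.prod_const, Finset.card_range, ← Finset.prod_mul_distrib]
    refine Finset.prod_congr rfl fun l _ => ?_
    field_simp
  have e2 : ∏ l ∈ Finset.range k, (q * z k - z l) =
      (q * z k) ^ k * ∏ l ∈ Finset.range k, (1 - z l / (q * z k)) := by
    rw [← Finset.card_range k, ← Finset.prod_const, Finset.card_range, ← Finset.prod_mul_distrib]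
    refine Finset.prod_congr rfl fun l _ => ?_
    field_simp
  have hB : ∏ l ∈ Finset.range k, (1 - z l / (q * z k)) ≠ 0 := by
    refine Finset.prod_ne_zero_iff.2 fun l hl => ?_
    intro h2
    have h3 : z l = q * z k := by
      have := sub_eq_zero.1 h2
      field_simp at this
      exact this.symm
    have h4 := hgap l (Finset.mem_range.1 hl)
    rw [h3, norm_mul] at h4
    exact lt_irrefl _ h4
  have hQ1 : Q (q * z k) ≠ 0 := by
    refine quot_ne hq.le h hQ hF ?_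
    rw [norm_mul]
    exact mul_le_of_le_one_left (norm_nonneg _) hq.le
  rw [e1, e2, mul_pow] at h1
  have hzk : z k ^ k ≠ 0 := pow_ne_zero _ hz
  rw [Finset.prod_div_distrib]
  generalize (∏ l ∈ Finset.range k, (1 - z l / z k)) = A at h1 ⊢
  generalize (∏ l ∈ Finset.range k, (1 - z l / (q * z k))) = B at h1 hB ⊢
  generalize Q (q * z k) = C at h1 hQ1 ⊢
  have h5 : A * Q (z k) = q ^ k * B * ((q - 1) * z k) * C := by
    apply mul_left_cancel₀ hzk
    linear_combination h1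
  have h6 : (1 - q)⁻¹ * (A / B) * (Q (z k) / C) =
      (1 - q)⁻¹ * (A * Q (z k)) / (B * C) := by
    field_simp
  rw [h6, h5]
  field_simp
  ring

theorem W0.one_sub_inv {u : ℝ → ℂ} (hu : Continuous u) (hp : ∀ θ, u (θ + 2 * Real.pi) = u θ)
    (h1 : ∀ θ, ‖u θ‖ < 1) : W0 fun θ => (1 - u θ)⁻¹ := (W0.one_sub hu hp h1).inv

/-- **The winding numbers.** -/
theorem w0_zero {ρ : ℝ} (hρ : 0 < ρ) (hρ1 : ρ < 1) {k : ℕ} {z : ℝ → ℕ → ℂ} (hC : Circ ρ k z)
    (hc : ∀ i ≤ k, Continuous fun θ => z θ i) (hp : ∀ i ≤ k, ∀ θ, z (θ + 2 * Real.pi) i = z θ i)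
    {i : ℕ} (hi : i ≤ k) : W0 fun θ => -z θ i * (qq ρ θ 1) ^ i := by
  set f : ℝ → ℂ → ℂ := fun θ => F (qq ρ θ 1) with hf
  have hqn : ∀ θ, ‖qq ρ θ 1‖ = ρ := norm_qq hρ
  have hd : ∀ θ, Differentiable ℂ (f θ) := fun θ =>
    SokalRay.differentiable_F ((hqn θ).le.trans hρ1.le)
  have hcf : Continuous (Function.uncurry f) := continuous_F_qq hρ hρ1.le
  have hfp : ∀ θ, f (θ + 2 * Real.pi) = f θ := fun θ => by simp only [hf]; rw [qq_period]
  set Q : ℝ → ℂ → ℂ := Qf f z (i + 1) with hQdef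
  have hQd : ∀ θ, Differentiable ℂ (Q θ) := Qf_diff hd (i + 1)
  have hQc : Continuous (Function.uncurry Q) := Qf_cont hcf hd hc (by omega)
  have hQp : ∀ θ, Q (θ + 2 * Real.pi) = Q θ := Qf_period hfp hp (by omega)
  have hF : ∀ θ w, F (qq ρ θ 1) w = (∏ l ∈ Finset.range (i + 1), (w - z θ l)) * Q θ w := by
    intro θ w
    have h1 := hC.first θ
    exact Qf_eq (f := f) (a := z) (k := k) (θ := θ) (fun l hl => h1.zero l hl)
      (fun l m hlm hm => h1.ne hlm hm) (n := i + 1) (by omega) w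
  have hfi : ∀ θ, First (qq ρ θ 1) i (z θ) := fun θ => (hC.first θ).mono_k hi
  have hgap : ∀ θ, ∀ l < i, ‖z θ l‖ < ρ * ‖z θ i‖ := by
    intro θ l hl
    have h1 := hC.gap θ (i - 1) (by omega)
    rw [Nat.sub_add_cancel (by omega)] at h1
    exact lt_of_le_of_lt ((hfi θ).le (show l ≤ i - 1 by omega) (by omega)) h1
  have hQne : ∀ θ w, ‖w‖ ≤ ‖z θ i‖ → Q θ w ≠ 0 := fun θ w hw =>
    quot_ne ((hqn θ).le.trans hρ1.le) (hfi θ) (hQd θ) (hF θ) hw
  have hz0 : ∀ θ, z θ i ≠ 0 := fun θ => (hfi θ).ne_zero le_rfl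
  have hqc := continuous_qq ρ
  have hzc := hc i hi
  -- the four kinds of factors
  have w1 : W0 fun θ => (1 - qq ρ θ 1)⁻¹ :=
    W0.one_sub_inv hqc (qq_period ρ) fun θ => by rw [hqn]; exact hρ1
  have w2 : W0 fun θ => ∏ l ∈ Finset.range i,
      ((1 - z θ l / z θ i) / (1 - z θ l / (qq ρ θ 1 * z θ i))) := by
    refine W0.prod _ (f := fun l θ => (1 - z θ l / z θ i) / (1 - z θ l / (qq ρ θ 1 * z θ i)))
      fun l hl => ?_
    have hl' : l < i := Finset.mem_range.1 hl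
    have hlc := hc l (by omega)
    refine W0.div ?_ ?_
    · refine W0.one_sub (u := fun θ => z θ l / z θ i) (hlc.div hzc hz0) (fun θ => ?_) fun θ => ?_
      · simp only [hp l (by omega), hp i hi]
      · rw [norm_div, div_lt_one (norm_pos_iff.2 (hz0 θ))]
        exact (hfi θ).lt hl' le_rfl
    · refine W0.one_sub (u := fun θ => z θ l / (qq ρ θ 1 * z θ i))
        (hlc.div (hqc.mul hzc) fun θ => mul_ne_zero (qq_ne_zero _ _ _) (hz0 θ)) (fun θ => ?_)
        fun θ => ?_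
      · simp only [hp l (by omega), hp i hi, qq_period]
      · have h1 : 0 < ρ * ‖z θ i‖ := mul_pos hρ (norm_pos_iff.2 (hz0 θ))
        rw [norm_div, norm_mul, hqn, div_lt_one h1]
        exact hgap θ l hl'
  have w3 : W0 fun θ => Q θ (z θ i) / Q θ (qq ρ θ 1 * z θ i) := by
    have hle : ∀ θ : ℝ, ∀ s ∈ Icc (0 : ℝ) 1, ‖(s : ℂ) * z θ i‖ ≤ ‖z θ i‖ := by
      intro θ s hs
      rw [norm_mul, Complex.norm_real, Real.norm_of_nonneg hs.1]
      exact mul_le_of_le_one_left (norm_nonneg _) hs.2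
    have hle' : ∀ θ : ℝ, ∀ s ∈ Icc (0 : ℝ) 1, ‖(s : ℂ) * (qq ρ θ 1 * z θ i)‖ ≤ ‖z θ i‖ := by
      intro θ s hs
      rw [norm_mul, norm_mul, hqn, Complex.norm_real, Real.norm_of_nonneg hs.1]
      calc s * (ρ * ‖z θ i‖) ≤ 1 * (1 * ‖z θ i‖) := by
            gcongr
            exact hs.2
        _ = ‖z θ i‖ := by ring
    have h := W0.homotopy01
      (H := fun p : ℝ × ℝ => Q p.1 (p.2 * z p.1 i) / Q p.1 (p.2 * (qq ρ p.1 1 * z p.1 i)))
      ?_ ?_ ?_ ?_
    · simpa using h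
    · refine ContinuousOn.div ?_ ?_ ?_
      · have h1 : Continuous fun p : ℝ × ℝ => (p.1, (p.2 : ℂ) * z p.1 i) := by fun_prop
        exact (hQc.comp h1).continuousOn
      · have h1 : Continuous fun p : ℝ × ℝ => (p.1, (p.2 : ℂ) * (qq ρ p.1 1 * z p.1 i)) := by
          fun_prop
        exact (hQc.comp h1).continuousOn
      · intro p hp'
        exact hQne _ _ (hle' p.1 p.2 hp'.2)
    · intro θ s hs
      exact div_ne_zero (hQne _ _ (hle θ s hs)) (hQne _ _ (hle' θ s hs))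
    · intro θ s _
      simp only [hQp, hp i hi, qq_period]
    · refine (W0.const one_ne_zero).congr fun θ => ?_
      have h1 : Q θ 0 ≠ 0 := hQne θ 0 (by rw [norm_zero]; exact norm_nonneg _)
      simp only [ofReal_zero, zero_mul]
      exact div_self h1
  refine ((w1.mul w2).mul w3).congr fun θ => ?_
  exact neg_zero_mul_pow ((hqn θ).trans_lt hρ1) (qq_ne_zero _ _ _) (hfi θ)
    (fun l hl => by rw [hqn]; exact hgap θ l hl) (hQd θ) (hF θ)

end SokalIn
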